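import Mathlib

/-!
# Functions on the discrete cube: mean, derivatives, the Poincaré inequality
-/

set_option autoImplicit false

open Finset

namespace Pool.Agent.L0h23.AA

/-- the discrete cube; `true` stands for `-1`, `false` for `1` -/
abbrev X (n : ℕ) : Type := Fin n → Bool

variable {n : ℕ}

/-- the mean over the cube -/
noncomputable def E (f : X n → ℝ) : ℝ := ((2:ℝ) ^ n)⁻¹ * ∑ x, f x

/-- negate the coordinate `j` -/
def flip (j : Fin n) (x : X n) : X n := Function.update x j (!x j)

/-- the discrete derivative -/
noncomputable def D (j : Fin n) (f : X n → ℝ) (x : X n) : ℝ := (f x - f (flip j x)) / 2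

theorem two_pow_pos' : (0:ℝ) < 2 ^ n := by positivity

theorem card_X : (Fintype.card (X n) : ℝ) = 2 ^ n := by
  simp [X]

theorem E_const (c : ℝ) : E (fun _ : X n => c) = c := by
  unfold E
  rw [sum_const, card_univ, nsmul_eq_mul, card_X]
  field_simp

theorem E_add (f g : X n → ℝ) : E (fun x => f x + g x) = E f + E g := by
  unfold E
  rw [sum_add_distrib, mul_add]

theorem E_sub (f g : X n → ℝ) : E (fun x => f x - g x) = E f - E g := by
  unfold E
  rw [sum_sub_distrib, mul_sub]

theorem E_smul (c : ℝ) (f : X n → ℝ) : E (fun x => c * f x) = c * E f := by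
  unfold E
  rw [← mul_sum]
  ring

theorem E_sum {ι : Type*} (s : Finset ι) (f : ι → X n → ℝ) :
    E (fun x => ∑ i ∈ s, f i x) = ∑ i ∈ s, E (f i) := by
  unfold E
  rw [sum_comm, mul_sum]

theorem E_mono {f g : X n → ℝ} (h : ∀ x, f x ≤ g x) : E f ≤ E g := by
  unfold E
  exact mul_le_mul_of_nonneg_left (sum_le_sum fun x _ => h x) (by positivity)

theorem E_nonneg {f : X n → ℝ} (h : ∀ x, 0 ≤ f x) : 0 ≤ E f := by
  have := E_mono (f := fun _ => 0) (g := f) h
  rwa [E_const] at this

theorem abs_E_le (f : X n → ℝ) : |E f| ≤ E (fun x => |f x|) := by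
  rw [abs_le]
  constructor
  · have h := E_mono (f := fun x => - |f x|) (g := f) (fun x => neg_abs_le _)
    have h2 : E (fun x => - |f x|) = - E (fun x => |f x|) := by
      have := E_smul (-1) (fun x => |f x|)
      simpa using this
    rw [h2] at h
    exact h
  · exact E_mono (fun x => le_abs_self _)

theorem flip_flip (j : Fin n) (x : X n) : flip j (flip j x) = x := by
  unfold flip
  funext i
  by_cases h : i = j
  · subst h; simp
  · simp [h]

/-- flipping a coordinate as a permutation -/
def flipEquiv (j : Fin n) : X n ≃ X n := ⟨flip j, flip j, flip_flip j, flip_flip j⟩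

theorem E_equiv (e : X n ≃ X n) (f : X n → ℝ) : E (fun x => f (e x)) = E f := by
  unfold E
  rw [Equiv.sum_comp e f]

theorem E_flip (j : Fin n) (f : X n → ℝ) : E (fun x => f (flip j x)) = E f :=
  E_equiv (flipEquiv j) f

theorem flip_apply_same (j : Fin n) (x : X n) : flip j x j = !x j := by
  unfold flip; simp

theorem flip_apply_ne {i j : Fin n} (h : i ≠ j) (x : X n) : flip j x i = x i := by
  unfold flip; simp [h]

theorem flip_comm (i j : Fin n) (x : X n) : flip i (flip j x) = flip j (flip i x) := by
  funext k
  by_cases h1 : k = i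
  · subst h1
    by_cases h2 : k = j
    · subst h2; rfl
    · rw [flip_apply_same, flip_apply_ne h2, flip_apply_ne h2, flip_apply_same]
  · by_cases h2 : k = j
    · subst h2
      rw [flip_apply_ne h1, flip_apply_same, flip_apply_same, flip_apply_ne h1]
    · rw [flip_apply_ne h1, flip_apply_ne h2, flip_apply_ne h2, flip_apply_ne h1]

/-- Cauchy-Schwarz -/
theorem E_mul_sq_le (f g : X n → ℝ) :
    (E fun x => f x * g x) ^ 2 ≤ (E fun x => f x ^ 2) * (E fun x => g x ^ 2) := by
  unfold E
  have h := sum_mul_sq_le_sq_mul_sq (univ : Finset (X n)) f g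
  have h2 : (0:ℝ) < ((2:ℝ) ^ n)⁻¹ := by positivity
  calc (((2:ℝ) ^ n)⁻¹ * ∑ x, f x * g x) ^ 2
      = (((2:ℝ) ^ n)⁻¹) ^ 2 * (∑ x, f x * g x) ^ 2 := by ring
    _ ≤ (((2:ℝ) ^ n)⁻¹) ^ 2 * ((∑ x, f x ^ 2) * ∑ x, g x ^ 2) :=
        mul_le_mul_of_nonneg_left h (by positivity)
    _ = _ := by ring

theorem sq_E_le (f : X n → ℝ) : (E f) ^ 2 ≤ E fun x => f x ^ 2 := by
  have h := E_mul_sq_le f (fun _ => 1)
  simp only [mul_one, one_pow] at h
  rwa [E_const, mul_one] at h

theorem E_sqrt_le {f : X n → ℝ} (h : ∀ x, 0 ≤ f x) : E (fun x => √(f x)) ≤ √(E f) := by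
  apply Real.le_sqrt_of_sq_le
  refine (sq_E_le _).trans (le_of_eq ?_)
  congr 1
  funext x
  exact Real.sq_sqrt (h x)

/-- averaging over the coordinate `j` -/
noncomputable def Av (j : Fin n) (f : X n → ℝ) (x : X n) : ℝ := (f x + f (flip j x)) / 2

theorem E_Av (j : Fin n) (f : X n → ℝ) : E (Av j f) = E f := by
  have h : E (Av j f) = (1/2) * (E f + E (fun x => f (flip j x))) := by
    rw [← E_add, ← E_smul]
    congr 1
    funext x
    unfold Av
    ring
  rw [h, E_flip]
  ring

theorem E_sq_split (j : Fin n) (f : X n → ℝ) :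
    (E fun x => f x ^ 2) = (E fun x => Av j f x ^ 2) + E fun x => D j f x ^ 2 := by
  rw [← E_add]
  have h : (E fun x => f x ^ 2) = (1/2) * ((E fun x => f x ^ 2) + E fun x => f (flip j x) ^ 2) := by
    rw [E_flip j (fun x => f x ^ 2)]
    ring
  rw [h, ← E_add, ← E_smul]
  congr 1
  funext x
  unfold Av D
  ring

theorem Av_sq_le (j : Fin n) (f : X n → ℝ) : (E fun x => Av j f x ^ 2) ≤ E fun x => f x ^ 2 := by
  rw [E_sq_split j f]
  have := E_nonneg (f := fun x => D j f x ^ 2) (fun x => sq_nonneg _)
  linarith

theorem D_Av_comm (i j : Fin n) (f : X n → ℝ) (x : X n) : D i (Av j f) x = Av j (D i f) x := by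
  simp only [D, Av]
  rw [flip_comm i j x]
  ring

/-- `f` depends only on the coordinates in `s` -/
def DepOn (s : Finset (Fin n)) (f : X n → ℝ) : Prop :=
  ∀ x y : X n, (∀ i ∈ s, x i = y i) → f x = f y

theorem Av_DepOn {s : Finset (Fin n)} {j : Fin n} {f : X n → ℝ}
    (h : DepOn (insert j s) f) : DepOn s (Av j f) := by
  intro x y hxy
  unfold Av
  by_cases hj : x j = y j
  · rw [h x y, h (flip j x) (flip j y)]
    · intro i hi
      rcases mem_insert.1 hi with rfl | hi
      · rw [flip_apply_same, flip_apply_same, hj]
      · by_cases hij : i = j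
        · subst hij
          rw [flip_apply_same, flip_apply_same, hj]
        · rw [flip_apply_ne hij, flip_apply_ne hij, hxy i hi]
    · intro i hi
      rcases mem_insert.1 hi with rfl | hi
      · exact hj
      · exact hxy i hi
  · have hj' : x j = !y j := by
      cases hx : x j <;> cases hy : y j <;> simp_all
    rw [h x (flip j y), h (flip j x) y]
    · ring
    · intro i hi
      by_cases hij : i = j
      · subst hij
        rw [flip_apply_same, hj']
        simp
      · rcases mem_insert.1 hi with rfl | hi
        · exact absurd rfl hij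
        · rw [flip_apply_ne hij, hxy i hi]
    · intro i hi
      by_cases hij : i = j
      · subst hij
        rw [flip_apply_same, hj']
      · rcases mem_insert.1 hi with rfl | hi
        · exact absurd rfl hij
        · rw [flip_apply_ne hij, hxy i hi]

/-- Poincaré inequality for functions of the coordinates in `s` -/
theorem poincare_aux (s : Finset (Fin n)) : ∀ f : X n → ℝ, DepOn s f →
    (E fun x => f x ^ 2) - (E f) ^ 2 ≤ ∑ j ∈ s, E fun x => D j f x ^ 2 := by
  induction s using Finset.induction_on with
  | empty =>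
    intro f hf
    have h : f = fun _ => f (fun _ => false) := by
      funext x
      exact hf _ _ (by simp)
    rw [h, E_const, E_const]
    simp
  | insert j s hj ih =>
    intro f hf
    have h1 := ih (Av j f) (Av_DepOn hf)
    rw [E_Av] at h1
    rw [sum_insert hj, E_sq_split j f]
    have h2 : ∑ i ∈ s, (E fun x => D i (Av j f) x ^ 2) ≤ ∑ i ∈ s, E fun x => D i f x ^ 2 := by
      refine sum_le_sum fun i _ => ?_
      have : (fun x => D i (Av j f) x ^ 2) = fun x => Av j (D i f) x ^ 2 := by
        funext x
        rw [D_Av_comm]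
      rw [this]
      exact Av_sq_le j (D i f)
    linarith

theorem poincare (f : X n → ℝ) :
    (E fun x => f x ^ 2) - (E f) ^ 2 ≤ ∑ j, E fun x => D j f x ^ 2 :=
  poincare_aux univ f (fun x y h => by
    have : x = y := funext fun i => h i (mem_univ i)
    rw [this])

/-- `x` with the coordinates in `A` replaced by those of `y` -/
def ov (A : Finset (Fin n)) (y x : X n) : X n := fun i => if i ∈ A then y i else x i

theorem ov_empty (y x : X n) : ov ∅ y x = x := by
  funext i; simp [ov]

theorem ov_flip_mem {A : Finset (Fin n)} {j : Fin n} (hj : j ∈ A) (y x : X n) :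
    ov A y (flip j x) = ov A y x := by
  funext i
  unfold ov
  by_cases hi : i ∈ A
  · simp [hi]
  · have : i ≠ j := fun h => hi (h ▸ hj)
    simp [hi, flip_apply_ne this]

theorem ov_flip_not_mem {A : Finset (Fin n)} {j : Fin n} (hj : j ∉ A) (y x : X n) :
    ov A y (flip j x) = flip j (ov A y x) := by
  funext i
  unfold ov
  by_cases hij : i = j
  · subst hij
    simp [hj, flip_apply_same]
  · by_cases hi : i ∈ A
    · simp [hi, flip_apply_ne hij]
    · simp [hi, flip_apply_ne hij]

theorem D_ov_mem {A : Finset (Fin n)} {j : Fin n} (hj : j ∈ A) (y : X n) (f : X n → ℝ) (x : X n) :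
    D j (fun x => f (ov A y x)) x = 0 := by
  unfold D
  simp only [ov_flip_mem hj]
  ring

theorem D_ov_not_mem {A : Finset (Fin n)} {j : Fin n} (hj : j ∉ A) (y : X n) (f : X n → ℝ)
    (x : X n) : D j (fun x => f (ov A y x)) x = D j f (ov A y x) := by
  unfold D
  simp only [ov_flip_not_mem hj]

/-- setting one coordinate -/
theorem E_update (j : Fin n) (f : X n → ℝ) :
    E f = (E (fun x => f (Function.update x j false)) +
      E (fun x => f (Function.update x j true))) / 2 := by
  have h : E f = E (Av j f) := (E_Av j f).symm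
  have h2 : Av j f = fun x => (1/2) * (f (Function.update x j false) +
      f (Function.update x j true)) := by
    funext x
    unfold Av flip
    cases hx : x j with
    | false =>
      have : Function.update x j false = x := by
        rw [← hx]; exact Function.update_eq_self j x
      rw [this]
      simp only [Bool.not_false]
      ring
    | true =>
      have : Function.update x j true = x := by
        rw [← hx]; exact Function.update_eq_self j x
      rw [this]
      simp only [Bool.not_true]
      ring
  rw [h, h2, E_smul, E_add]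
  ring

theorem ov_insert_update {A : Finset (Fin n)} {j : Fin n} (hj : j ∉ A) (y x : X n) (b : Bool) :
    ov (insert j A) (Function.update y j b) x = ov A y (Function.update x j b) := by
  funext i
  unfold ov
  by_cases hij : i = j
  · subst hij
    simp [hj]
  · simp [hij]

theorem E_ov_insert {A : Finset (Fin n)} {j : Fin n} (hj : j ∉ A) (y : X n) (f : X n → ℝ) :
    E (fun x => f (ov A y x)) =
      (E (fun x => f (ov (insert j A) (Function.update y j false) x)) +
        E (fun x => f (ov (insert j A) (Function.update y j true) x))) / 2 := by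
  rw [E_update j]
  simp only [ov_insert_update hj]

end Pool.Agent.L0h23.AA
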