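import Mathlib

/-!
# Markov's inequality, and polynomials bounded at the points `1 / r`
-/

set_option autoImplicit false

open Polynomial Set

namespace Pool.Agent.L0h23.AA

theorem markov_one_le {n : ℕ} {P : ℝ[X]} (hn : P.natDegree ≤ n)
    (h : ∀ x ∈ Icc (-1:ℝ) 1, |P.eval x| ≤ 1) : (derivative P).eval 1 ≤ (n:ℝ) ^ 2 := by
  have h1 := Chebyshev.eval_iterate_derivative_le_of_forall_abs_le_one (n := n) (P := P) (k := 1)
    (x := 1) le_rfl (natDegree_le_iff_degree_le.1 hn) h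
  simp only [Function.iterate_one] at h1
  refine h1.trans (le_of_eq ?_)
  have h2 := Chebyshev.T_derivative_eq_U (R := ℝ) (n : ℤ)
  rw [h2]
  simp only [eval_mul, Int.cast_natCast, eval_natCast, Chebyshev.U_eval_one]
  push_cast
  ring

theorem markov_one {n : ℕ} {P : ℝ[X]} (hn : P.natDegree ≤ n)
    (h : ∀ x ∈ Icc (-1:ℝ) 1, |P.eval x| ≤ 1) : |(derivative P).eval 1| ≤ (n:ℝ) ^ 2 := by
  rw [abs_le]
  constructor
  · have := markov_one_le (P := -P) (n := n) (by rwa [natDegree_neg]) (fun x hx => by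
      rw [eval_neg, abs_neg]; exact h x hx)
    rw [derivative_neg, eval_neg] at this
    linarith
  · exact markov_one_le hn h

/-- Markov's inequality at an endpoint `b` of an interval with other endpoint `a` (`a < b` or `b < a`) -/
theorem markov_end {n : ℕ} {P : ℝ[X]} (hn : P.natDegree ≤ n) {a b M : ℝ} (hab : a ≠ b)
    (hM : 0 < M) (h : ∀ x ∈ uIcc a b, |P.eval x| ≤ M) :
    |(derivative P).eval b| ≤ 2 * (n:ℝ) ^ 2 * M / |b - a| := by
  set L : ℝ[X] := C ((b - a) / 2) * X + C ((a + b) / 2) with hL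
  set Q : ℝ[X] := C M⁻¹ * P.comp L with hQ
  have hLd : L.natDegree ≤ 1 := by
    rw [hL]
    exact natDegree_linear_le
  have hQn : Q.natDegree ≤ n := by
    refine (natDegree_C_mul_le _ _).trans ?_
    refine (natDegree_comp_le).trans ?_
    calc P.natDegree * L.natDegree ≤ n * 1 := Nat.mul_le_mul hn hLd
      _ = n := mul_one n
  have hev : ∀ x, Q.eval x = M⁻¹ * P.eval ((b - a) / 2 * x + (a + b) / 2) := by
    intro x
    rw [hQ, eval_mul, eval_C, eval_comp, hL]
    simp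
  have hb : ∀ x ∈ Icc (-1:ℝ) 1, |Q.eval x| ≤ 1 := by
    intro x hx
    rw [hev, abs_mul, abs_of_pos (inv_pos.2 hM)]
    have hx2 : (b - a) / 2 * x + (a + b) / 2 ∈ uIcc a b := by
      rw [mem_uIcc]
      rcases lt_or_gt_of_ne hab with h1 | h1
      · left
        constructor <;> nlinarith [hx.1, hx.2]
      · right
        constructor <;> nlinarith [hx.1, hx.2]
    have := h _ hx2
    rw [inv_mul_le_iff₀ hM]
    linarith
  have h1 := markov_one hQn hb
  have hd : (derivative Q).eval 1 = M⁻¹ * ((derivative P).eval b * ((b - a) / 2)) := by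
    rw [hQ, derivative_C_mul, eval_mul, eval_C, derivative_comp, eval_mul, eval_comp]
    have e1 : L.eval 1 = b := by rw [hL]; simp; ring
    have e2 : (derivative L).eval 1 = (b - a) / 2 := by
      rw [hL]; simp
    rw [e1, e2]
    ring
  rw [hd, abs_mul, abs_mul, abs_of_pos (inv_pos.2 hM), abs_div, abs_two] at h1
  have hba : 0 < |b - a| := abs_pos.2 (sub_ne_zero.2 hab.symm)
  rw [le_div_iff₀ hba]
  rw [inv_mul_le_iff₀ hM] at h1
  linarith

/-- Markov's inequality with a slightly worse constant -/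
theorem markov {n : ℕ} {P : ℝ[X]} (hn : P.natDegree ≤ n) {l M : ℝ} (hl : 0 < l)
    (hM : 0 < M) (h : ∀ x ∈ Icc 0 l, |P.eval x| ≤ M) (x : ℝ) (hx : x ∈ Icc 0 l) :
    |(derivative P).eval x| ≤ 4 * (n:ℝ) ^ 2 * M / l := by
  by_cases hx2 : l / 2 ≤ x
  · have h1 := markov_end hn (a := 0) (b := x) (M := M) (by linarith) hM (fun y hy => by
      rw [uIcc_of_le hx.1] at hy
      exact h y ⟨hy.1, hy.2.trans hx.2⟩)
    refine h1.trans ?_
    rw [sub_zero, abs_of_nonneg hx.1, div_le_div_iff₀ (by linarith) hl]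
    have : 0 ≤ (n:ℝ) ^ 2 * M := by positivity
    nlinarith
  · push Not at hx2
    have h1 := markov_end hn (a := l) (b := x) (M := M) (by linarith) hM (fun y hy => by
      rw [uIcc_of_ge hx.2] at hy
      exact h y ⟨hx.1.trans hy.1, hy.2⟩)
    refine h1.trans ?_
    rw [abs_sub_comm, abs_of_pos (by linarith), div_le_div_iff₀ (by linarith) hl]
    have : 0 ≤ (n:ℝ) ^ 2 * M := by positivity
    nlinarith

/-- A polynomial bounded by `1` at `0` and at the points `1 / r` is nearly constant. -/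
theorem nearly_const {D m : ℕ} (hD : 1 ≤ D) {q : ℝ[X]} (hq : q.natDegree ≤ D)
    (hm : 64 * D ^ 4 ≤ m) (h0 : |q.eval 0| ≤ 1)
    (h : ∀ r : ℕ, 1 ≤ r → r ≤ m → |q.eval (1 / (r:ℝ))| ≤ 1) (r : ℕ) (hr : 1 ≤ r) (hrm : r ≤ m) :
    |q.eval 0 - q.eval (1 / (r:ℝ))| ≤ 64 * (D:ℝ) ^ 4 / r := by
  have hD1 : (1:ℝ) ≤ D := by exact_mod_cast hD
  set l : ℝ := 1 / (8 * (D:ℝ) ^ 2) with hl
  have hl0 : 0 < l := by positivity
  -- the maximum
  obtain ⟨x₀, hx₀, hmax⟩ := isCompact_Icc.exists_isMaxOn (s := Icc 0 l) ⟨0, left_mem_Icc.2 hl0.le⟩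
    (f := fun x => |q.eval x|) (by fun_prop)
  set M : ℝ := |q.eval x₀| with hM
  have hmax' : ∀ x ∈ Icc 0 l, |q.eval x| ≤ M := fun x hx => hmax hx
  have hmv : ∀ (M' : ℝ), 0 < M' → (∀ x ∈ Icc 0 l, |q.eval x| ≤ M') → ∀ x ∈ Icc 0 l, ∀ y ∈ Icc 0 l,
      |q.eval x - q.eval y| ≤ 32 * (D:ℝ) ^ 4 * M' * |x - y| := by
    intro M' hM' hb x hx y hy
    have h1 := Convex.norm_image_sub_le_of_norm_deriv_le (f := fun x => q.eval x) (s := Icc 0 l)
      (C := 4 * (D:ℝ) ^ 2 * M' / l) (x := y) (y := x)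
      (fun z _ => q.differentiableAt) (fun z hz => by
        rw [Polynomial.deriv]
        exact markov hq hl0 hM' hb z hz) (convex_Icc 0 l) hy hx
    rw [Real.norm_eq_abs, Real.norm_eq_abs] at h1
    refine h1.trans (le_of_eq ?_)
    rw [hl]
    field_simp
    ring
  -- a node near `x₀`
  have hnode : ∃ ν ∈ Icc 0 l, |q.eval ν| ≤ 1 ∧ |x₀ - ν| ≤ 1 / (64 * (D:ℝ) ^ 4) := by
    have hmR : 64 * (D:ℝ) ^ 4 ≤ m := by exact_mod_cast hm
    have hm0 : (0:ℝ) < m := by
      have : (0:ℝ) < 64 * (D:ℝ) ^ 4 := by positivity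
      linarith
    by_cases hx1 : x₀ < 1 / m
    · refine ⟨0, left_mem_Icc.2 hl0.le, h0, ?_⟩
      rw [sub_zero, abs_of_nonneg hx₀.1]
      refine hx1.le.trans ?_
      exact one_div_le_one_div_of_le (by positivity) hmR
    · push Not at hx1
      have hx00 : 0 < x₀ := lt_of_lt_of_le (by positivity) hx1
      set k : ℕ := ⌊1 / x₀⌋₊ with hk
      have hk1 : (k:ℝ) ≤ 1 / x₀ := Nat.floor_le (by positivity)
      have hk2 : 1 / x₀ < k + 1 := Nat.lt_floor_add_one _
      have hk8 : 8 * D ^ 2 ≤ k := by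
        apply Nat.le_floor
        have : (8:ℝ) * (D:ℝ) ^ 2 ≤ 1 / x₀ := by
          rw [le_div_iff₀ hx00]
          have := hx₀.2
          rw [hl, le_div_iff₀ (by positivity)] at this
          linarith
        push_cast
        exact this
      have hk8' : (8:ℝ) * (D:ℝ) ^ 2 ≤ k := by exact_mod_cast hk8
      have hkpos : (0:ℝ) < k := lt_of_lt_of_le (by positivity) hk8'
      have hkm : k ≤ m := by
        have : (k:ℝ) ≤ m := by
          refine hk1.trans ?_
          rw [div_le_iff₀ hx00]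
          rw [div_le_iff₀ hm0] at hx1
          linarith
        exact_mod_cast this
      have hk0 : 1 ≤ k := by exact_mod_cast hkpos
      refine ⟨1 / k, ⟨by positivity, ?_⟩, h k hk0 hkm, ?_⟩
      · rw [hl]
        exact one_div_le_one_div_of_le (by positivity) hk8'
      · have h1 : x₀ ≤ 1 / k := by
          rw [le_div_iff₀ hkpos]
          rw [le_div_iff₀ hx00] at hk1
          linarith
        have h2 : 1 / ((k:ℝ) + 1) ≤ x₀ := by
          rw [div_le_iff₀ (by positivity)]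
          rw [div_lt_iff₀ hx00] at hk2
          linarith
        rw [abs_sub_comm, abs_of_nonneg (by linarith)]
        have h3 : 1 / (k:ℝ) - 1 / ((k:ℝ) + 1) ≤ 1 / (64 * (D:ℝ) ^ 4) := by
          have h4 : 1 / (k:ℝ) - 1 / ((k:ℝ) + 1) = 1 / (k * (k + 1)) := by
            field_simp
            ring
          rw [h4]
          apply one_div_le_one_div_of_le (by positivity)
          have h5 : (8 * (D:ℝ) ^ 2) * (8 * (D:ℝ) ^ 2) ≤ k * k :=
            mul_le_mul hk8' hk8' (by positivity) (by positivity)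
          nlinarith
        linarith
  obtain ⟨ν, hν, hν1, hν2⟩ := hnode
  have hM2 : M ≤ 2 := by
    by_contra hcon
    push Not at hcon
    have h1 := hmv M (by linarith) hmax' x₀ hx₀ ν hν
    have h2 : 32 * (D:ℝ) ^ 4 * M * |x₀ - ν| ≤ M / 2 := by
      calc 32 * (D:ℝ) ^ 4 * M * |x₀ - ν| ≤ 32 * (D:ℝ) ^ 4 * M * (1 / (64 * (D:ℝ) ^ 4)) :=
            mul_le_mul_of_nonneg_left hν2 (by positivity)
        _ = M / 2 := by
            field_simp
            ring
    have h3 : M ≤ |q.eval x₀ - q.eval ν| + |q.eval ν| := by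
      have := abs_add_le (q.eval x₀ - q.eval ν) (q.eval ν)
      rwa [sub_add_cancel] at this
    linarith
  by_cases hr8 : 8 * D ^ 2 ≤ r
  · have hr8' : (8:ℝ) * (D:ℝ) ^ 2 ≤ r := by exact_mod_cast hr8
    have hr0 : (0:ℝ) < r := by exact_mod_cast hr
    have h1 := hmv 2 (by norm_num) (fun x hx => (hmax' x hx).trans hM2) 0 (left_mem_Icc.2 hl0.le)
      (1 / r) ⟨by positivity, by rw [hl]; exact one_div_le_one_div_of_le (by positivity) hr8'⟩
    refine h1.trans (le_of_eq ?_)
    rw [zero_sub, abs_neg, abs_of_pos (by positivity)]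
    ring
  · push Not at hr8
    have hr8' : (r:ℝ) < (8:ℝ) * (D:ℝ) ^ 2 := by exact_mod_cast hr8
    have hr0 : (0:ℝ) < r := by exact_mod_cast hr
    have h1 := h r hr hrm
    have h2 : |q.eval 0 - q.eval (1 / (r:ℝ))| ≤ 2 := by
      have := abs_sub (q.eval 0) (q.eval (1 / (r:ℝ)))
      linarith
    refine h2.trans ?_
    rw [le_div_iff₀ hr0]
    have h3 : (1:ℝ) ≤ (D:ℝ) ^ 2 := one_le_pow₀ hD1
    nlinarith

end Pool.Agent.L0h23.AA
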