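import Mathlib

/-!
# Random maps of small range: polynomial dependence on `1 / r`
-/

set_option autoImplicit false
set_option linter.unusedSectionVars false

open Finset Polynomial

namespace Pool.Agent.L0h23.AA.Sym

variable {ι : Type} [Fintype ι] [DecidableEq ι] {V : ι → Type} [∀ i, Fintype (V i)]
  [∀ i, DecidableEq (V i)]

/-- sort-preserving maps from the points to the points -/
abbrev Maps (V : ι → Type) : Type := ∀ p : (Σ i, V i), V p.1

/-- composition with permutations of the sorts -/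
def pc (ρ : ∀ i, Equiv.Perm (V i)) (σ : Maps V) : Maps V := fun p => ρ p.1 (σ p)

/-- a function of maps which depends only on the values on `W` and is invariant under permutations -/
structure Inv (W : Finset (Σ i, V i)) (Ψ : Maps V → ℝ) : Prop where
  dep : ∀ σ σ' : Maps V, (∀ p ∈ W, σ p = σ' p) → Ψ σ = Ψ σ'
  perm : ∀ (ρ : ∀ i, Equiv.Perm (V i)) (σ : Maps V), Ψ (pc ρ σ) = Ψ σ

/-- the identity -/
def idM : Maps V := fun p => p.2

section Step

variable (W : Finset (Σ i, V i)) (p : Σ i, V i) (Ψ : Maps V → ℝ)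

/-- the values of the map at the points of `W` of the same sort as `p` -/
def Im (σ : Maps V) : Finset (V p.1) :=
  univ.filter fun y => ∃ q ∈ W, (⟨q.1, σ q⟩ : Σ i, V i) = ⟨p.1, y⟩

theorem mem_Im (σ : Maps V) (y : V p.1) :
    y ∈ Im W p σ ↔ ∃ q ∈ W, (⟨q.1, σ q⟩ : Σ i, V i) = ⟨p.1, y⟩ := by
  unfold Im; simp

open Classical in
/-- the value if `p` is sent to a new point -/
noncomputable def new (σ : Maps V) : ℝ :=
  if h : ∃ y, y ∉ Im W p σ then Ψ (Function.update σ p h.choose) else 0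

/-- the sum of the values if `p` is sent to an old point -/
noncomputable def old (σ : Maps V) : ℝ := ∑ y ∈ Im W p σ, Ψ (Function.update σ p y)

theorem Im_dep {σ σ' : Maps V} (h : ∀ q ∈ W, σ q = σ' q) : Im W p σ = Im W p σ' := by
  ext y
  rw [mem_Im, mem_Im]
  constructor
  · rintro ⟨q, hq, e⟩
    exact ⟨q, hq, by rw [← h q hq]; exact e⟩
  · rintro ⟨q, hq, e⟩
    exact ⟨q, hq, by rw [h q hq]; exact e⟩

theorem Im_perm (ρ : ∀ i, Equiv.Perm (V i)) (σ : Maps V) :
    Im W p (pc ρ σ) = (Im W p σ).map (ρ p.1).toEmbedding := by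
  ext y
  rw [mem_Im, mem_map]
  constructor
  · rintro ⟨q, hq, e⟩
    refine ⟨(ρ p.1).symm y, ?_, by simp⟩
    rw [mem_Im]
    refine ⟨q, hq, ?_⟩
    obtain ⟨i, v⟩ := q
    obtain ⟨j, w⟩ := p
    simp only [pc] at e
    rw [Sigma.mk.injEq] at e
    obtain ⟨rfl, e⟩ := e
    rw [heq_eq_eq] at e
    simp [← e]
  · rintro ⟨y', hy', e⟩
    rw [mem_Im] at hy'
    obtain ⟨q, hq, e'⟩ := hy'
    refine ⟨q, hq, ?_⟩
    obtain ⟨i, v⟩ := q
    obtain ⟨j, w⟩ := p
    rw [Sigma.mk.injEq] at e'
    obtain ⟨rfl, e'⟩ := e'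
    rw [heq_eq_eq] at e'
    simp only [pc]
    rw [e', ← e]
    rfl

theorem pc_update (ρ : ∀ i, Equiv.Perm (V i)) (σ : Maps V) (y : V p.1) :
    pc ρ (Function.update σ p y) = Function.update (pc ρ σ) p (ρ p.1 y) := by
  funext q
  unfold pc
  by_cases h : q = p
  · subst h; simp
  · simp [h]

variable {W p Ψ}

theorem fresh (hΨ : Inv (insert p W) Ψ) (σ : Maps V) (y y' : V p.1)
    (hy : y ∉ Im W p σ) (hy' : y' ∉ Im W p σ) :
    Ψ (Function.update σ p y) = Ψ (Function.update σ p y') := by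
  rw [← hΨ.perm (Function.update (fun _ => 1) p.1 (Equiv.swap y y')) (Function.update σ p y)]
  apply hΨ.dep
  intro q hq
  rw [pc_update]
  by_cases h : q = p
  · subst h
    simp
  · rw [Function.update_of_ne h, Function.update_of_ne h]
    have hqW : q ∈ W := (mem_insert.1 hq).resolve_left h
    unfold pc
    obtain ⟨i, v⟩ := q
    obtain ⟨j, w⟩ := p
    by_cases hij : i = j
    · subst hij
      simp only [Function.update_self]
      apply Equiv.swap_apply_of_ne_of_ne
      · intro e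
        exact hy ((mem_Im _ _ _ _).2 ⟨⟨i, v⟩, hqW, by rw [e]⟩)
      · intro e
        exact hy' ((mem_Im _ _ _ _).2 ⟨⟨i, v⟩, hqW, by rw [e]⟩)
    · simp [Function.update_of_ne hij]

theorem new_eq (hΨ : Inv (insert p W) Ψ) (σ : Maps V) (y : V p.1) (hy : y ∉ Im W p σ) :
    new W p Ψ σ = Ψ (Function.update σ p y) := by
  have h : ∃ y, y ∉ Im W p σ := ⟨y, hy⟩
  unfold new
  rw [dif_pos h]
  exact fresh hΨ σ _ _ h.choose_spec hy

theorem update_dep (hΨ : Inv (insert p W) Ψ) {σ σ' : Maps V} (h : ∀ q ∈ W, σ q = σ' q)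
    (y : V p.1) : Ψ (Function.update σ p y) = Ψ (Function.update σ' p y) := by
  apply hΨ.dep
  intro q hq
  by_cases hqp : q = p
  · subst hqp; simp
  · rw [Function.update_of_ne hqp, Function.update_of_ne hqp]
    exact h q ((mem_insert.1 hq).resolve_left hqp)

theorem inv_new (hΨ : Inv (insert p W) Ψ) : Inv W (new W p Ψ) := by
  constructor
  · intro σ σ' h
    have e := Im_dep W p h
    by_cases hy : ∃ y, y ∉ Im W p σ
    · obtain ⟨y, hy⟩ := hy
      rw [new_eq hΨ σ y hy, new_eq hΨ σ' y (by rwa [← e])]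
      exact update_dep hΨ h y
    · have hy' : ¬ ∃ y, y ∉ Im W p σ' := by rwa [← e]
      unfold new
      rw [dif_neg hy, dif_neg hy']
  · intro ρ σ
    have e := Im_perm W p ρ σ
    by_cases hy : ∃ y, y ∉ Im W p σ
    · obtain ⟨y, hy⟩ := hy
      have hy2 : ρ p.1 y ∉ Im W p (pc ρ σ) := by
        rw [e, mem_map]
        rintro ⟨z, hz, hzy⟩
        exact hy ((ρ p.1).injective hzy ▸ hz)
      rw [new_eq hΨ σ y hy, new_eq hΨ _ _ hy2, ← pc_update, hΨ.perm]
    · have hy' : ¬ ∃ y, y ∉ Im W p (pc ρ σ) := by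
        rintro ⟨y, hy'⟩
        apply hy
        refine ⟨(ρ p.1).symm y, fun hz => hy' ?_⟩
        rw [e, mem_map]
        exact ⟨_, hz, by simp⟩
      unfold new
      rw [dif_neg hy, dif_neg hy']

theorem inv_old (hΨ : Inv (insert p W) Ψ) : Inv W (old W p Ψ) := by
  constructor
  · intro σ σ' h
    unfold old
    rw [Im_dep W p h]
    exact sum_congr rfl fun y _ => update_dep hΨ h y
  · intro ρ σ
    unfold old
    rw [Im_perm, sum_map]
    refine sum_congr rfl fun y _ => ?_
    have : (ρ p.1).toEmbedding y = ρ p.1 y := rfl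
    rw [this, ← pc_update, hΨ.perm]

theorem card_Im_perm (ρ : ∀ i, Equiv.Perm (V i)) (σ : Maps V) :
    (Im W p (pc ρ σ)).card = (Im W p σ).card := by
  rw [Im_perm, card_map]

/-- the coefficient of `1 / r` -/
noncomputable def dif (W : Finset (Σ i, V i)) (p : Σ i, V i) (Ψ : Maps V → ℝ) (σ : Maps V) : ℝ :=
  old W p Ψ σ - (Im W p σ).card * new W p Ψ σ

theorem inv_dif (hΨ : Inv (insert p W) Ψ) : Inv W (dif W p Ψ) := by
  constructor
  · intro σ σ' h
    unfold dif
    rw [(inv_old hΨ).dep σ σ' h, (inv_new hΨ).dep σ σ' h, Im_dep W p h]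
  · intro ρ σ
    unfold dif
    rw [(inv_old hΨ).perm, (inv_new hΨ).perm, card_Im_perm]

end Step

/-- averaging over one value -/
theorem sum_update {P C : Type} [Fintype P] [DecidableEq P] [Fintype C] (p : P)
    (F : (P → C) → ℝ) :
    ∑ g : P → C, ∑ c : C, F (Function.update g p c) = Fintype.card C * ∑ g, F g := by
  have hinv : Function.Involutive (fun x : (P → C) × C => (Function.update x.1 p x.2, x.1 p)) := by
    rintro ⟨g, c⟩
    simp
  have h1 : ∑ x : (P → C) × C, F (Function.update x.1 p x.2) = ∑ x : (P → C) × C, F x.1 :=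
    Equiv.sum_comp hinv.toPerm (fun x => F x.1)
  rw [Fintype.sum_prod_type, Fintype.sum_prod_type] at h1
  rw [h1]
  simp [mul_sum]

/-- the mean over all colourings of the points with `r` colours -/
noncomputable def avg {P : Type} [Fintype P] [DecidableEq P] (r : ℕ) (F : (P → Fin r) → ℝ) : ℝ :=
  (Fintype.card (P → Fin r) : ℝ)⁻¹ * ∑ g, F g

theorem avg_add {P : Type} [Fintype P] [DecidableEq P] (r : ℕ) (F G : (P → Fin r) → ℝ) :
    avg r (fun g => F g + G g) = avg r F + avg r G := by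
  unfold avg
  rw [sum_add_distrib, mul_add]

theorem avg_smul {P : Type} [Fintype P] [DecidableEq P] (r : ℕ) (c : ℝ) (F : (P → Fin r) → ℝ) :
    avg r (fun g => c * F g) = c * avg r F := by
  unfold avg
  rw [← mul_sum]
  ring

theorem avg_const {P : Type} [Fintype P] [DecidableEq P] (r : ℕ) (hr : 1 ≤ r) (c : ℝ) :
    avg r (fun _ : P → Fin r => c) = c := by
  unfold avg
  rw [sum_const, card_univ, nsmul_eq_mul]
  have : (Fintype.card (P → Fin r) : ℝ) ≠ 0 := by
    simp
    intro h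
    omega
  field_simp

theorem avg_update {P : Type} [Fintype P] [DecidableEq P] (r : ℕ) (hr : 1 ≤ r) (p : P)
    (F : (P → Fin r) → ℝ) :
    avg r F = avg r (fun g => (1 / (r:ℝ)) * ∑ c : Fin r, F (Function.update g p c)) := by
  rw [avg_smul]
  unfold avg
  rw [sum_update p F, Fintype.card_fin]
  have : (r:ℝ) ≠ 0 := by positivity
  field_simp

/-- the map given by a colouring and injections of the colours into the sorts -/
def comp {r : ℕ} (h : ∀ i, Fin r → V i) (g : (Σ i, V i) → Fin r) : Maps V := fun p => h p.1 (g p)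

theorem comp_update {r : ℕ} (h : ∀ i, Fin r → V i) (g : (Σ i, V i) → Fin r) (p : Σ i, V i)
    (c : Fin r) : comp h (Function.update g p c) = Function.update (comp h g) p (h p.1 c) := by
  funext q
  unfold comp
  by_cases hq : q = p
  · subst hq; simp
  · simp [hq]

theorem sum_colours {W : Finset (Σ i, V i)} {p : Σ i, V i} {Ψ : Maps V → ℝ}
    (hΨ : Inv (insert p W) Ψ) {r : ℕ} (h : ∀ i, Fin r → V i) (hi : ∀ i, Function.Injective (h i))
    (g : (Σ i, V i) → Fin r) :
    ∑ c : Fin r, Ψ (comp h (Function.update g p c)) =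
      dif W p Ψ (comp h g) + r * new W p Ψ (comp h g) := by
  set σ := comp h g with hσ
  simp only [comp_update]
  rw [← hσ]
  have h1 : ∑ c : Fin r, Ψ (Function.update σ p (h p.1 c)) =
      ∑ y ∈ univ.map ⟨h p.1, hi p.1⟩, Ψ (Function.update σ p y) := by
    rw [sum_map]
    rfl
  have hsub : Im W p σ ⊆ univ.map ⟨h p.1, hi p.1⟩ := by
    intro y hy
    rw [mem_Im] at hy
    obtain ⟨q, hq, e⟩ := hy
    rw [mem_map]
    obtain ⟨i, v⟩ := q
    obtain ⟨j, w⟩ := p
    rw [Sigma.mk.injEq] at e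
    obtain ⟨rfl, e⟩ := e
    rw [heq_eq_eq] at e
    exact ⟨g ⟨i, v⟩, mem_univ _, e⟩
  rw [h1, ← sum_sdiff hsub]
  have h2 : ∑ y ∈ univ.map ⟨h p.1, hi p.1⟩ \ Im W p σ, Ψ (Function.update σ p y) =
      (r - (Im W p σ).card) * new W p Ψ σ := by
    have h3 : ∀ y ∈ univ.map ⟨h p.1, hi p.1⟩ \ Im W p σ, Ψ (Function.update σ p y) =
        new W p Ψ σ := fun y hy => (new_eq hΨ σ y (mem_sdiff.1 hy).2).symm
    rw [sum_congr rfl h3, sum_const, nsmul_eq_mul, card_sdiff_of_subset hsub, card_map, card_univ,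
      Fintype.card_fin, Nat.cast_sub]
    have := card_le_card hsub
    rwa [card_map, card_univ, Fintype.card_fin] at this
  rw [h2]
  unfold dif old
  ring

theorem new_id {W : Finset (Σ i, V i)} {p : Σ i, V i} {Ψ : Maps V → ℝ}
    (hΨ : Inv (insert p W) Ψ) (hp : p ∉ W) : new W p Ψ idM = Ψ idM := by
  have h : p.2 ∉ Im W p (idM : Maps V) := by
    rw [mem_Im]
    rintro ⟨q, hq, e⟩
    have : q = p := e
    exact hp (this ▸ hq)
  rw [new_eq hΨ _ _ h]
  congr 1
  exact Function.update_eq_self p (idM : Maps V)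

/-- **The polynomial lemma.** -/
theorem exists_poly (W : Finset (Σ i, V i)) : ∀ Ψ : Maps V → ℝ, Inv W Ψ →
    ∃ q : ℝ[X], q.natDegree ≤ W.card ∧ q.eval 0 = Ψ idM ∧
      ∀ r : ℕ, 1 ≤ r → ∀ h : ∀ i, Fin r → V i, (∀ i, Function.Injective (h i)) →
        avg r (fun g => Ψ (comp h g)) = q.eval (1 / (r:ℝ)) := by
  induction W using Finset.induction_on with
  | empty =>
    intro Ψ hΨ
    refine ⟨C (Ψ idM), by simp, by simp, fun r hr h _ => ?_⟩
    have : (fun g : (Σ i, V i) → Fin r => Ψ (comp h g)) = fun _ => Ψ idM := by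
      funext g
      exact hΨ.dep _ _ (by simp)
    rw [this, avg_const r hr, eval_C]
  | insert p W hp ih =>
    intro Ψ hΨ
    obtain ⟨q₁, a1, a2, a3⟩ := ih _ (inv_dif hΨ)
    obtain ⟨q₂, b1, b2, b3⟩ := ih _ (inv_new hΨ)
    refine ⟨X * q₁ + q₂, ?_, ?_, ?_⟩
    · rw [card_insert_of_notMem hp]
      refine (natDegree_add_le _ _).trans (max_le ?_ (b1.trans (Nat.le_succ _)))
      refine (natDegree_mul_le).trans ?_
      rw [natDegree_X]
      omega
    · rw [eval_add, eval_mul, eval_X, zero_mul, zero_add, b2]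
      exact new_id hΨ hp
    · intro r hr h hi
      rw [avg_update r hr p]
      have hr0 : (r:ℝ) ≠ 0 := by positivity
      have e : (fun g : (Σ i, V i) → Fin r =>
          1 / (r:ℝ) * ∑ c : Fin r, Ψ (comp h (Function.update g p c))) =
          fun g => (1 / (r:ℝ)) * dif W p Ψ (comp h g) + new W p Ψ (comp h g) := by
        funext g
        rw [sum_colours hΨ h hi g]
        field_simp
      rw [e, avg_add, avg_smul, a3 r hr h hi, b3 r hr h hi, eval_add, eval_mul, eval_X]

end Pool.Agent.L0h23.AA.Sym
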