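import Pool.Agent.L0h23.AA.Fourier
import Pool.Agent.L0h23.AA.Small
import Pool.Agent.L0h23.AA.Markov

/-!
# Invariant functions of low degree have small variance on the big sorts
-/

set_option autoImplicit false
set_option linter.unusedSectionVars false

open Finset Polynomial

namespace Pool.Agent.L0h23.AA.Sym

variable {ι : Type} [Fintype ι] [DecidableEq ι] {V : ι → Type} [∀ i, Fintype (V i)]
  [∀ i, DecidableEq (V i)]
variable {I : Type} [Fintype I] [DecidableEq I] [MulAction (∀ i, Equiv.Perm (V i)) I]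

/-- every coordinate `e` has a support `supp e` of at most `κ` points -/
structure Local (κ : ℕ) (supp : I → Finset (Σ i, V i)) : Prop where
  card_le : ∀ e, (supp e).card ≤ κ
  equivariant : ∀ (π : ∀ i, Equiv.Perm (V i)) (e : I),
    supp (π • e) = (supp e).image fun p => ⟨p.1, π p.1 p.2⟩
  fixed : ∀ (π : ∀ i, Equiv.Perm (V i)) (e : I), (∀ p ∈ supp e, π p.1 p.2 = p.2) → π • e = e

variable {κ : ℕ} {supp : I → Finset (Σ i, V i)}

/-- `π` agrees with `σ` on `s` -/
def agree (π : ∀ i, Equiv.Perm (V i)) (σ : Maps V) (s : Finset (Σ i, V i)) : Prop :=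
  ∀ p ∈ s, π p.1 p.2 = σ p

open Classical in
/-- the action of a map on a coordinate, `none` if the map is not injective on the support -/
noncomputable def ac (supp : I → Finset (Σ i, V i)) (σ : Maps V) (e : I) : Option I :=
  if h : ∃ π : ∀ i, Equiv.Perm (V i), agree π σ (supp e) then some (h.choose • e) else none

theorem ac_eq (hL : Local κ supp) {σ : Maps V} {e : I} {π : ∀ i, Equiv.Perm (V i)}
    (h : agree π σ (supp e)) : ac supp σ e = some (π • e) := by
  have h' : ∃ π : ∀ i, Equiv.Perm (V i), agree π σ (supp e) := ⟨π, h⟩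
  unfold ac
  rw [dif_pos h']
  congr 1
  have h2 := h'.choose_spec
  set ρ := h'.choose
  have h3 : (π⁻¹ * ρ) • e = e := by
    apply hL.fixed
    intro p hp
    have e1 := h p hp
    have e2 := h2 p hp
    show (π p.1)⁻¹ (ρ p.1 p.2) = p.2
    rw [e2, ← e1]
    simp
  rw [mul_smul, inv_smul_eq_iff] at h3
  exact h3

theorem ac_none {σ : Maps V} {e : I}
    (h : ¬ ∃ π : ∀ i, Equiv.Perm (V i), agree π σ (supp e)) : ac supp σ e = none := by
  unfold ac
  rw [dif_neg h]

theorem ac_dep (hL : Local κ supp) {σ σ' : Maps V} {e : I} (h : ∀ p ∈ supp e, σ p = σ' p) :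
    ac supp σ e = ac supp σ' e := by
  by_cases hπ : ∃ π : ∀ i, Equiv.Perm (V i), agree π σ (supp e)
  · obtain ⟨π, hπ⟩ := hπ
    rw [ac_eq hL hπ, ac_eq hL (π := π) (fun p hp => (hπ p hp).trans (h p hp))]
  · rw [ac_none hπ, ac_none]
    rintro ⟨π, hπ'⟩
    exact hπ ⟨π, fun p hp => (hπ' p hp).trans (h p hp).symm⟩

theorem ac_pc (hL : Local κ supp) (ρ : ∀ i, Equiv.Perm (V i)) (σ : Maps V) (e : I) :
    ac supp (pc ρ σ) e = (ac supp σ e).map (ρ • ·) := by
  by_cases hπ : ∃ π : ∀ i, Equiv.Perm (V i), agree π σ (supp e)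
  · obtain ⟨π, hπ⟩ := hπ
    rw [ac_eq hL hπ, ac_eq hL (π := ρ * π)]
    · simp [mul_smul]
    · intro p hp
      show ρ p.1 (π p.1 p.2) = ρ p.1 (σ p)
      rw [hπ p hp]
  · rw [ac_none hπ, ac_none]
    · rfl
    · rintro ⟨π, hπ'⟩
      apply hπ
      refine ⟨ρ⁻¹ * π, fun p hp => ?_⟩
      have := hπ' p hp
      show (ρ p.1)⁻¹ (π p.1 p.2) = σ p
      rw [this]
      simp [pc]

theorem ac_id (hL : Local κ supp) (e : I) : ac supp idM e = some e := by
  rw [ac_eq hL (σ := idM) (π := 1) (fun p _ => rfl), one_smul]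

theorem supp_of_ac (hL : Local κ supp) {σ : Maps V} {e e' : I} (h : ac supp σ e = some e') :
    ∀ q ∈ supp e', ∃ p ∈ supp e, (⟨p.1, σ p⟩ : Σ i, V i) = q := by
  by_cases hπ : ∃ π : ∀ i, Equiv.Perm (V i), agree π σ (supp e)
  · obtain ⟨π, hπ⟩ := hπ
    rw [ac_eq hL hπ] at h
    have h2 : π • e = e' := Option.some.inj h
    intro q hq
    rw [← h2, hL.equivariant, mem_image] at hq
    obtain ⟨p, hp, hpq⟩ := hq
    exact ⟨p, hp, by rw [← hπ p hp]; exact hpq⟩
  · rw [ac_none hπ] at h
    cases h

/-- extension of a point of the cube by `false` at `none` -/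
def ext (x : I → Bool) (o : Option I) : Bool := o.elim false x

/-- the point of the cube pulled back by a map -/
noncomputable def tw (supp : I → Finset (Σ i, V i)) (x : I → Bool) (σ : Maps V) : I → Bool :=
  fun e => ext x (ac supp σ e)

/-- the average over the group -/
noncomputable def gav (F : (∀ i, Equiv.Perm (V i)) → ℝ) : ℝ :=
  (Fintype.card (∀ i, Equiv.Perm (V i)) : ℝ)⁻¹ * ∑ π, F π

theorem card_G_pos : (0:ℝ) < Fintype.card (∀ i, Equiv.Perm (V i)) := by
  exact_mod_cast Fintype.card_pos

theorem gav_const (c : ℝ) : gav (V := V) (fun _ => c) = c := by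
  unfold gav
  rw [sum_const, card_univ, nsmul_eq_mul]
  have := card_G_pos (V := V)
  field_simp

theorem gav_mono {F G : (∀ i, Equiv.Perm (V i)) → ℝ} (h : ∀ π, F π ≤ G π) : gav F ≤ gav G := by
  unfold gav
  exact mul_le_mul_of_nonneg_left (sum_le_sum fun π _ => h π) (inv_nonneg.2 card_G_pos.le)

theorem gav_smul (c : ℝ) (F : (∀ i, Equiv.Perm (V i)) → ℝ) :
    gav (fun π => c * F π) = c * gav F := by
  unfold gav
  rw [← mul_sum]
  ring

theorem gav_sum {α : Type} (s : Finset α) (F : α → (∀ i, Equiv.Perm (V i)) → ℝ) :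
    gav (fun π => ∑ a ∈ s, F a π) = ∑ a ∈ s, gav (F a) := by
  unfold gav
  rw [sum_comm, mul_sum]

theorem sq_gav_le (F : (∀ i, Equiv.Perm (V i)) → ℝ) : (gav F) ^ 2 ≤ gav fun π => F π ^ 2 := by
  unfold gav
  have h := sq_sum_le_card_mul_sum_sq (s := (univ : Finset (∀ i, Equiv.Perm (V i)))) (f := F)
  have h0 := card_G_pos (V := V)
  rw [card_univ] at h
  set c : ℝ := (Fintype.card (∀ i, Equiv.Perm (V i)) : ℝ)
  calc (c⁻¹ * ∑ π, F π) ^ 2 = c⁻¹ ^ 2 * (∑ π, F π) ^ 2 := by ring
    _ ≤ c⁻¹ ^ 2 * (c * ∑ π, F π ^ 2) := mul_le_mul_of_nonneg_left h (by positivity)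
    _ = _ := by
      field_simp

theorem avg_mono {P : Type} [Fintype P] [DecidableEq P] (r : ℕ) {F G : (P → Fin r) → ℝ}
    (h : ∀ g, F g ≤ G g) : avg r F ≤ avg r G := by
  unfold avg
  exact mul_le_mul_of_nonneg_left (sum_le_sum fun g _ => h g) (by positivity)

theorem avg_sum {P : Type} [Fintype P] [DecidableEq P] (r : ℕ) {α : Type} (s : Finset α)
    (F : α → (P → Fin r) → ℝ) : avg r (fun g => ∑ a ∈ s, F a g) = ∑ a ∈ s, avg r (F a) := by
  unfold avg
  rw [sum_comm, mul_sum]

/-- the functions of maps given by a character -/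
noncomputable def Psi (supp : I → Finset (Σ i, V i)) (x : I → Bool) (S : Finset I)
    (σ : Maps V) : ℝ := gav fun π => ch S (tw supp x (pc π σ))

theorem pc_mul (π ρ : ∀ i, Equiv.Perm (V i)) (σ : Maps V) : pc (π * ρ) σ = pc π (pc ρ σ) := rfl

theorem inv_Psi (hL : Local κ supp) (x : I → Bool) (S : Finset I) :
    Inv (S.biUnion supp) (Psi supp x S) := by
  constructor
  · intro σ σ' h
    unfold Psi
    congr 1
    funext π
    unfold ch
    refine prod_congr rfl fun e he => ?_
    have : tw supp x (pc π σ) e = tw supp x (pc π σ') e := by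
      unfold tw
      rw [ac_dep hL (σ := pc π σ) (σ' := pc π σ')]
      intro p hp
      unfold pc
      rw [h p (mem_biUnion.2 ⟨e, he, hp⟩)]
    rw [this]
  · intro ρ σ
    unfold Psi gav
    refine congrArg (fun z => (Fintype.card (∀ i, Equiv.Perm (V i)) : ℝ)⁻¹ * z) ?_
    rw [← Equiv.sum_comp (Equiv.mulRight ρ) (fun π => ch S (tw supp x (pc π σ)))]
    refine sum_congr rfl fun π _ => ?_
    rw [Equiv.coe_mulRight, pc_mul]

theorem tw_pc_id (hL : Local κ supp) (x : I → Bool) (π : ∀ i, Equiv.Perm (V i)) :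
    tw supp x (pc π idM) = fun e => x (π • e) := by
  funext e
  unfold tw
  rw [ac_pc hL, ac_id hL]
  rfl

section Main

variable (f : (I → Bool) → ℝ)

/-- the average of `f` over the random maps of range `r` -/
noncomputable def AR (supp : I → Finset (Σ i, V i)) {r : ℕ} (h : ∀ i, Fin r → V i)
    (x : I → Bool) : ℝ :=
  avg r fun g => gav fun π => f (tw supp x (pc π (comp h g)))

variable {f}

theorem sum_Psi (x : I → Bool) (σ : Maps V) :
    ∑ S, coef f S * Psi supp x S σ = gav fun π => f (tw supp x (pc π σ)) := by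
  unfold Psi
  simp only [← gav_smul]
  rw [← gav_sum]
  congr 1
  funext π
  exact (inversion f _).symm

theorem abs_gav_le (hb : ∀ x, |f x| ≤ 1) (F : (∀ i, Equiv.Perm (V i)) → (I → Bool)) :
    |gav fun π => f (F π)| ≤ 1 := by
  rw [abs_le]
  constructor
  · have := gav_mono (F := fun _ => (-1:ℝ)) (G := fun π => f (F π)) (fun π => (abs_le.1 (hb _)).1)
    rwa [gav_const] at this
  · have := gav_mono (G := fun _ => (1:ℝ)) (F := fun π => f (F π)) (fun π => (abs_le.1 (hb _)).2)
    rwa [gav_const] at this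

theorem abs_AR_le (hb : ∀ x, |f x| ≤ 1) {r : ℕ} (hr : 1 ≤ r) (h : ∀ i, Fin r → V i)
    (x : I → Bool) : |AR f supp h x| ≤ 1 := by
  unfold AR
  rw [abs_le]
  constructor
  · have := avg_mono r (F := fun _ => (-1:ℝ))
      (G := fun g => gav fun π => f (tw supp x (pc π (comp h g))))
      (fun g => (abs_le.1 (abs_gav_le hb _)).1)
    rwa [avg_const r hr] at this
  · have := avg_mono r (G := fun _ => (1:ℝ))
      (F := fun g => gav fun π => f (tw supp x (pc π (comp h g))))
      (fun g => (abs_le.1 (abs_gav_le hb _)).2)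
    rwa [avg_const r hr] at this

/-- **Pointwise approximation.** -/
theorem approx (hL : Local κ supp) (hb : ∀ x, |f x| ≤ 1)
    (hinv : ∀ (π : ∀ i, Equiv.Perm (V i)) (x : I → Bool), f (fun e => x (π • e)) = f x)
    {d : ℕ} (hdeg : ∀ S : Finset I, d < S.card → coef f S = 0) {m r : ℕ}
    (hm : ∀ i, m ≤ Fintype.card (V i)) (hD : 1 ≤ κ * d) (h64 : 64 * (κ * d) ^ 4 ≤ m)
    (hr : 1 ≤ r) (hrm : r ≤ m) (h : ∀ i, Fin r → V i) (hi : ∀ i, Function.Injective (h i))
    (x : I → Bool) : |f x - AR f supp h x| ≤ 64 * ((κ * d : ℕ):ℝ) ^ 4 / r := by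
  choose q hq1 hq2 hq3 using fun S : Finset I => exists_poly _ _ (inv_Psi hL x S)
  set Q : ℝ[X] := ∑ S, C (coef f S) * q S with hQ
  have hQd : Q.natDegree ≤ κ * d := by
    rw [hQ]
    refine natDegree_sum_le_of_forall_le _ _ fun S _ => ?_
    by_cases hS : d < S.card
    · rw [hdeg S hS]; simp
    · push Not at hS
      refine (natDegree_C_mul_le _ _).trans ((hq1 S).trans ?_)
      refine (card_biUnion_le_card_mul S supp κ fun e _ => hL.card_le e).trans ?_
      rw [mul_comm]
      exact Nat.mul_le_mul_left _ hS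
  have hQ0 : Q.eval 0 = f x := by
    rw [hQ, eval_finsetSum]
    simp only [eval_mul, eval_C, hq2]
    rw [sum_Psi]
    have : (fun π => f (tw supp x (pc π idM))) = fun _ : (∀ i, Equiv.Perm (V i)) => f x := by
      funext π
      rw [tw_pc_id hL, hinv]
    rw [this, gav_const]
  have hQr : ∀ (s : ℕ), 1 ≤ s → ∀ k : ∀ i, Fin s → V i, (∀ i, Function.Injective (k i)) →
      Q.eval (1 / (s:ℝ)) = AR f supp k x := by
    intro s hs k hk
    rw [hQ, eval_finsetSum]
    simp only [eval_mul, eval_C]
    unfold AR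
    simp only [← sum_Psi]
    rw [avg_sum]
    refine sum_congr rfl fun S _ => ?_
    rw [avg_smul, hq3 S s hs k hk]
  rw [← hQ0, ← hQr r hr h hi]
  refine nearly_const hD hQd h64 (by rw [hQ0]; exact hb x) (fun s hs hsm => ?_) r hr hrm
  have hk : ∀ i, ∃ k : Fin s → V i, Function.Injective k := by
    intro i
    have : Fintype.card (Fin s) ≤ Fintype.card (V i) := by
      rw [Fintype.card_fin]; exact hsm.trans (hm i)
    exact ⟨_, (Function.Embedding.nonempty_of_card_le this).some.injective⟩
  choose k hk using hk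
  rw [hQr s hs k hk]
  exact abs_AR_le hb hs k x

/-- the points in the range of `π ∘ h` -/
def rng {r : ℕ} (h : ∀ i, Fin r → V i) (π : ∀ i, Equiv.Perm (V i)) : Finset (Σ i, V i) :=
  univ.filter fun p => ∃ c, π p.1 (h p.1 c) = p.2

theorem tw_flip (hL : Local κ supp) {r : ℕ} (h : ∀ i, Fin r → V i)
    (π : ∀ i, Equiv.Perm (V i)) (g : (Σ i, V i) → Fin r) (e : I)
    (he : ¬ supp e ⊆ rng h π) (x : I → Bool) :
    tw supp (flipI e x) (pc π (comp h g)) = tw supp x (pc π (comp h g)) := by
  funext e'
  unfold tw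
  cases ho : ac supp (pc π (comp h g)) e' with
  | none => rfl
  | some e'' =>
    have hne : e'' ≠ e := by
      intro heq
      apply he
      intro q hq
      rw [← heq] at hq
      obtain ⟨p, _, hpq⟩ := supp_of_ac hL ho q hq
      unfold rng
      rw [mem_filter]
      refine ⟨mem_univ _, ?_⟩
      rw [← hpq]
      exact ⟨g p, rfl⟩
    show flipI e x e'' = x e''
    unfold flipI
    rw [Function.update_of_ne hne]

theorem count_perm (i : ι) (u v : V i) :
    ((univ.filter fun π : ∀ i, Equiv.Perm (V i) => π i u = v).card : ℝ) * Fintype.card (V i) =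
      Fintype.card (∀ i, Equiv.Perm (V i)) := by
  have h1 : ∀ v', (univ.filter fun π : ∀ i, Equiv.Perm (V i) => π i u = v').card =
      (univ.filter fun π : ∀ i, Equiv.Perm (V i) => π i u = v).card := by
    intro v'
    refine card_bij' (fun π _ => Function.update (1 : ∀ i, Equiv.Perm (V i)) i (Equiv.swap v v') * π)
      (fun π _ => Function.update (1 : ∀ i, Equiv.Perm (V i)) i (Equiv.swap v v') * π) ?_ ?_ ?_ ?_
    · intro π hπ
      rw [mem_filter] at hπ ⊢
      refine ⟨mem_univ _, ?_⟩
      simp [hπ.2]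
    · intro π hπ
      rw [mem_filter] at hπ ⊢
      refine ⟨mem_univ _, ?_⟩
      simp [hπ.2]
    · intro π _
      rw [← mul_assoc]
      have : Function.update (1 : ∀ i, Equiv.Perm (V i)) i (Equiv.swap v v') *
          Function.update (1 : ∀ i, Equiv.Perm (V i)) i (Equiv.swap v v') = 1 := by
        funext j
        by_cases hj : j = i
        · subst hj; simp
        · simp [hj]
      rw [this, one_mul]
    · intro π _
      rw [← mul_assoc]
      have : Function.update (1 : ∀ i, Equiv.Perm (V i)) i (Equiv.swap v v') *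
          Function.update (1 : ∀ i, Equiv.Perm (V i)) i (Equiv.swap v v') = 1 := by
        funext j
        by_cases hj : j = i
        · subst hj; simp
        · simp [hj]
      rw [this, one_mul]
  have h2 : ∑ v', (univ.filter fun π : ∀ i, Equiv.Perm (V i) => π i u = v').card =
      Fintype.card (∀ i, Equiv.Perm (V i)) := by
    rw [← card_univ, card_eq_sum_card_fiberwise (f := fun π : ∀ i, Equiv.Perm (V i) => π i u)
      (t := univ) (fun _ _ => mem_univ _)]
  rw [sum_congr rfl fun v' _ => h1 v', sum_const, card_univ, smul_eq_mul] at h2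
  rw [mul_comm]
  exact_mod_cast h2

theorem gav_rng_le {m r : ℕ} (hm : ∀ i, m ≤ Fintype.card (V i)) (hm0 : 1 ≤ m)
    (h : ∀ i, Fin r → V i) (p : Σ i, V i) :
    gav (fun π => if p ∈ rng h π then (1:ℝ) else 0) ≤ r / m := by
  have hG := card_G_pos (V := V)
  have h1 : (∑ π : (∀ i, Equiv.Perm (V i)), if p ∈ rng h π then (1:ℝ) else 0) ≤
      ∑ c : Fin r, ((univ.filter fun π : ∀ i, Equiv.Perm (V i) => π p.1 (h p.1 c) = p.2).card : ℝ) := by
    have e1 : ∀ c : Fin r,
        ((univ.filter fun π : ∀ i, Equiv.Perm (V i) => π p.1 (h p.1 c) = p.2).card : ℝ) =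
        ∑ π : (∀ i, Equiv.Perm (V i)), if π p.1 (h p.1 c) = p.2 then (1:ℝ) else 0 := by
      intro c
      rw [← sum_filter, sum_const, nsmul_eq_mul, mul_one]
    rw [sum_congr rfl fun c _ => e1 c, sum_comm]
    refine sum_le_sum fun π _ => ?_
    split_ifs with hp
    · unfold rng at hp
      obtain ⟨c, hc⟩ := (mem_filter.1 hp).2
      calc (1:ℝ) = if π p.1 (h p.1 c) = p.2 then (1:ℝ) else 0 := by rw [if_pos hc]
        _ ≤ _ := single_le_sum (f := fun c => if π p.1 (h p.1 c) = p.2 then (1:ℝ) else 0)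
            (fun c _ => by split_ifs <;> norm_num) (mem_univ c)
    · exact sum_nonneg fun c _ => by split_ifs <;> norm_num
  have h2 : ∀ c : Fin r,
      ((univ.filter fun π : ∀ i, Equiv.Perm (V i) => π p.1 (h p.1 c) = p.2).card : ℝ) ≤
      Fintype.card (∀ i, Equiv.Perm (V i)) / m := by
    intro c
    rw [← count_perm p.1 (h p.1 c) p.2, le_div_iff₀ (by positivity)]
    exact mul_le_mul_of_nonneg_left (by exact_mod_cast hm p.1) (by positivity)
  unfold gav
  have h3 := h1.trans (sum_le_sum fun c _ => h2 c)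
  rw [sum_const, card_univ, Fintype.card_fin, nsmul_eq_mul] at h3
  calc (Fintype.card (∀ i, Equiv.Perm (V i)) : ℝ)⁻¹ *
        ∑ π : (∀ i, Equiv.Perm (V i)), (if p ∈ rng h π then (1:ℝ) else 0)
      ≤ (Fintype.card (∀ i, Equiv.Perm (V i)) : ℝ)⁻¹ *
        (r * (Fintype.card (∀ i, Equiv.Perm (V i)) / m)) :=
        mul_le_mul_of_nonneg_left h3 (by positivity)
    _ = r / m := by
        field_simp

/-- the sets which contain a coordinate with a nonempty support -/
def touch (supp : I → Finset (Σ i, V i)) : Finset (Finset I) :=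
  univ.filter fun S => ∃ e ∈ S, (supp e).Nonempty

theorem coef_avg {r : ℕ} (F : ((Σ i, V i) → Fin r) → (∀ i, Equiv.Perm (V i)) → (I → Bool) → ℝ)
    (S : Finset I) : coef (fun x => avg r fun g => gav fun π => F g π x) S =
      avg r fun g => gav fun π => coef (F g π) S := by
  unfold coef
  have h1 : (fun x => (avg r fun g => gav fun π => F g π x) * ch S x) =
      fun x => avg r fun g => gav fun π => F g π x * ch S x := by
    funext x
    rw [mul_comm, ← avg_smul]
    congr 1
    funext g
    rw [← gav_smul]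
    congr 1
    funext π
    ring
  rw [h1]
  unfold avg gav mean
  simp only [mul_sum]
  rw [sum_comm]
  refine sum_congr rfl fun g _ => ?_
  rw [sum_comm]
  refine sum_congr rfl fun π _ => sum_congr rfl fun x _ => by ring

/-- **The weight on the sorts is small.** -/
theorem core (hL : Local κ supp) (hb : ∀ x, |f x| ≤ 1)
    (hinv : ∀ (π : ∀ i, Equiv.Perm (V i)) (x : I → Bool), f (fun e => x (π • e)) = f x)
    {d : ℕ} (hdeg : ∀ S : Finset I, d < S.card → coef f S = 0) {m r : ℕ}
    (hm : ∀ i, m ≤ Fintype.card (V i)) (hD : 1 ≤ κ * d) (h64 : 64 * (κ * d) ^ 4 ≤ m)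
    (hr : 1 ≤ r) (hrm : r ≤ m) :
    √(∑ S ∈ touch supp, coef f S ^ 2) ≤ √((r:ℝ) / m) + 64 * ((κ * d : ℕ):ℝ) ^ 4 / r := by
  have hk : ∀ i, ∃ k : Fin r → V i, Function.Injective k := by
    intro i
    have : Fintype.card (Fin r) ≤ Fintype.card (V i) := by
      rw [Fintype.card_fin]; exact hrm.trans (hm i)
    exact ⟨_, (Function.Embedding.nonempty_of_card_le this).some.injective⟩
  choose h hi using hk
  set ε : ℝ := 64 * ((κ * d : ℕ):ℝ) ^ 4 / r with hε
  have hε0 : 0 ≤ ε := by positivity
  set w : ℝ := ∑ S ∈ touch supp, coef f S ^ 2 with hw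
  have hw0 : 0 ≤ w := sum_nonneg fun _ _ => sq_nonneg _
  -- the error term
  set R : (I → Bool) → ℝ := fun x => f x - AR f supp h x with hR
  have hRb : ∀ x, |R x| ≤ ε := fun x => approx hL hb hinv hdeg hm hD h64 hr hrm h hi x
  have hRsq : ∑ S, coef R S ^ 2 ≤ ε ^ 2 := by
    have := parseval R R
    have e : ∑ S, coef R S ^ 2 = ∑ S, coef R S * coef R S := sum_congr rfl fun S _ => by ring
    rw [e, ← this]
    have := mean_mono (f := fun x => R x * R x) (g := fun _ => ε ^ 2) (fun x => by
      rw [← sq, ← sq_abs]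
      exact pow_le_pow_left₀ (abs_nonneg _) (hRb x) 2)
    rwa [mean_const] at this
  have hsplit : ∀ S, coef f S = coef (AR f supp h) S + coef R S := by
    intro S
    unfold coef
    rw [← mean_add]
    congr 1
    funext x
    rw [hR]
    ring
  have hcs1 : ∑ S ∈ touch supp, coef f S * coef R S ≤ √w * ε := by
    have h1 := Real.sum_mul_le_sqrt_mul_sqrt (touch supp) (fun S => coef f S) (fun S => coef R S)
    refine h1.trans ?_
    refine mul_le_mul_of_nonneg_left ?_ (Real.sqrt_nonneg _)
    rw [Real.sqrt_le_left hε0]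
    refine le_trans ?_ hRsq
    exact sum_le_sum_of_subset_of_nonneg (subset_univ _) (fun _ _ _ => sq_nonneg _)
  -- the main term
  have hmain : ∑ S ∈ touch supp, coef f S * coef (AR f supp h) S ≤ √(w * (r / m)) := by
    have e1 : ∀ S, coef (AR f supp h) S =
        avg r fun g => gav fun π => coef (fun x => f (tw supp x (pc π (comp h g)))) S :=
      fun S => coef_avg (fun g π x => f (tw supp x (pc π (comp h g)))) S
    have e2 : ∑ S ∈ touch supp, coef f S * coef (AR f supp h) S =
        avg r fun g => gav fun π => ∑ S ∈ touch supp,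
          coef f S * coef (fun x => f (tw supp x (pc π (comp h g)))) S := by
      simp only [e1, ← avg_smul, ← gav_smul]
      rw [← avg_sum]
      congr 1
      funext g
      rw [← gav_sum]
    have e3 : ∀ (g : (Σ i, V i) → Fin r) (π : ∀ i, Equiv.Perm (V i)), ∑ S ∈ touch supp,
          coef f S * coef (fun x => f (tw supp x (pc π (comp h g)))) S ≤
        √(∑ S ∈ touch supp, if (∀ e ∈ S, supp e ⊆ rng h π) then coef f S ^ 2 else 0) := by
      intro g π
      have e4 : ∑ S ∈ touch supp, coef f S * coef (fun x => f (tw supp x (pc π (comp h g)))) S =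
          ∑ S ∈ touch supp, (if (∀ e ∈ S, supp e ⊆ rng h π) then coef f S else 0) *
            coef (fun x => f (tw supp x (pc π (comp h g)))) S := by
        refine sum_congr rfl fun S _ => ?_
        split_ifs with hS
        · rfl
        · push Not at hS
          obtain ⟨e, he, he'⟩ := hS
          have hz : coef (fun x => f (tw supp x (pc π (comp h g)))) S = 0 :=
            coef_eq_zero_of_indep _ S e he (fun x => by
              show f (tw supp (flipI e x) (pc π (comp h g))) = f (tw supp x (pc π (comp h g)))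
              rw [tw_flip hL h π g e he' x])
          rw [hz, mul_zero, mul_zero]
      rw [e4]
      refine (Real.sum_mul_le_sqrt_mul_sqrt _ _ _).trans ?_
      have e5 : ∑ S ∈ touch supp, (if (∀ e ∈ S, supp e ⊆ rng h π) then coef f S else 0) ^ 2 =
          ∑ S ∈ touch supp, if (∀ e ∈ S, supp e ⊆ rng h π) then coef f S ^ 2 else 0 := by
        refine sum_congr rfl fun S _ => ?_
        split_ifs <;> ring
      rw [e5]
      refine mul_le_of_le_one_right (Real.sqrt_nonneg _) ?_
      rw [Real.sqrt_le_one]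
      refine (sum_le_sum_of_subset_of_nonneg (subset_univ _) (fun _ _ _ => sq_nonneg _)).trans ?_
      have e6 := parseval (fun x => f (tw supp x (pc π (comp h g))))
        (fun x => f (tw supp x (pc π (comp h g))))
      have e7 : ∑ S, coef (fun x => f (tw supp x (pc π (comp h g)))) S ^ 2 =
          ∑ S, coef (fun x => f (tw supp x (pc π (comp h g)))) S *
            coef (fun x => f (tw supp x (pc π (comp h g)))) S := sum_congr rfl fun S _ => by ring
      rw [e7, ← e6]
      have := mean_mono (f := fun x => f (tw supp x (pc π (comp h g))) *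
        f (tw supp x (pc π (comp h g)))) (g := fun _ => (1:ℝ)) (fun x => by
          rw [← sq, ← sq_abs]
          exact pow_le_one₀ (abs_nonneg _) (hb _))
      rwa [mean_const] at this
    have e8 : (gav fun π : (∀ i, Equiv.Perm (V i)) =>
        √(∑ S ∈ touch supp, if (∀ e ∈ S, supp e ⊆ rng h π) then coef f S ^ 2 else 0)) ≤
        √(w * (r / m)) := by
      apply Real.le_sqrt_of_sq_le
      refine (sq_gav_le _).trans ?_
      have e9 : (fun π : (∀ i, Equiv.Perm (V i)) =>
          √(∑ S ∈ touch supp, if (∀ e ∈ S, supp e ⊆ rng h π) then coef f S ^ 2 else 0) ^ 2) =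
          fun π => ∑ S ∈ touch supp, coef f S ^ 2 *
            (if (∀ e ∈ S, supp e ⊆ rng h π) then 1 else 0) := by
        funext π
        rw [Real.sq_sqrt (sum_nonneg fun S _ => by split_ifs <;> positivity)]
        refine sum_congr rfl fun S _ => ?_
        split_ifs <;> ring
      rw [e9, gav_sum, hw, sum_mul]
      refine sum_le_sum fun S hS => ?_
      rw [gav_smul]
      refine mul_le_mul_of_nonneg_left ?_ (sq_nonneg _)
      obtain ⟨e, he, p, hp⟩ := (mem_filter.1 hS).2
      refine le_trans (gav_mono fun π => ?_) (gav_rng_le hm (hr.trans hrm) h p)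
      split_ifs with h1 h2
      · exact le_rfl
      · exact absurd (h1 e he hp) h2
      · norm_num
      · norm_num
    rw [e2]
    calc (avg r fun g => gav fun π => ∑ S ∈ touch supp,
          coef f S * coef (fun x => f (tw supp x (pc π (comp h g)))) S)
        ≤ avg r fun _ => √(w * (r / m)) :=
          avg_mono r fun g => (gav_mono fun π => e3 g π).trans e8
      _ = √(w * (r / m)) := avg_const r hr _
  have htot : w ≤ √w * (√((r:ℝ) / m) + ε) := by
    have e1 : w = ∑ S ∈ touch supp, coef f S * coef (AR f supp h) S +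
        ∑ S ∈ touch supp, coef f S * coef R S := by
      rw [hw, ← sum_add_distrib]
      refine sum_congr rfl fun S _ => ?_
      have := hsplit S
      calc coef f S ^ 2 = coef f S * coef f S := sq _
        _ = coef f S * (coef (AR f supp h) S + coef R S) := by rw [← this]
        _ = _ := by ring
    rw [Real.sqrt_mul hw0] at hmain
    rw [mul_add]
    linarith
  rcases hw0.eq_or_lt with h0 | h0
  · rw [← h0, Real.sqrt_zero]
    positivity
  · have hs : 0 < √w := Real.sqrt_pos.2 h0
    have h1 : √w * √w ≤ √w * (√((r:ℝ) / m) + ε) := by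
      rw [Real.mul_self_sqrt hw0]; exact htot
    exact le_of_mul_le_mul_left h1 hs

end Main

end Pool.Agent.L0h23.AA.Sym
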