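import Mathlib

/-!
# Fourier analysis on the cube with an arbitrary finite set of coordinates
-/

set_option autoImplicit false
set_option linter.unusedSectionVars false

open Finset

namespace Pool.Agent.L0h23.AA.Sym

variable {I : Type} [Fintype I] [DecidableEq I]

/-- the mean of a function on the cube `{-1,1}^I` -/
noncomputable def mean (f : (I → Bool) → ℝ) : ℝ := ((2:ℝ) ^ Fintype.card I)⁻¹ * ∑ x, f x

/-- the character `∏_{e ∈ S} x_e` -/
noncomputable def ch (S : Finset I) (x : I → Bool) : ℝ := ∏ e ∈ S, (-1 : ℝ) ^ (x e).toNat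

/-- the Fourier coefficient -/
noncomputable def coef (f : (I → Bool) → ℝ) (S : Finset I) : ℝ := mean fun x => f x * ch S x

theorem mean_const (c : ℝ) : mean (fun _ : I → Bool => c) = c := by
  unfold mean
  rw [sum_const, card_univ, nsmul_eq_mul]
  have h : (Fintype.card (I → Bool) : ℝ) = 2 ^ Fintype.card I := by simp
  rw [h]
  field_simp

theorem mean_add (f g : (I → Bool) → ℝ) : mean (fun x => f x + g x) = mean f + mean g := by
  unfold mean
  rw [sum_add_distrib, mul_add]

theorem mean_sub (f g : (I → Bool) → ℝ) : mean (fun x => f x - g x) = mean f - mean g := by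
  unfold mean
  rw [sum_sub_distrib, mul_sub]

theorem mean_smul (c : ℝ) (f : (I → Bool) → ℝ) : mean (fun x => c * f x) = c * mean f := by
  unfold mean
  rw [← mul_sum]
  ring

theorem mean_sum {κ : Type*} (s : Finset κ) (f : κ → (I → Bool) → ℝ) :
    mean (fun x => ∑ i ∈ s, f i x) = ∑ i ∈ s, mean (f i) := by
  unfold mean
  rw [sum_comm, mul_sum]

theorem mean_mono {f g : (I → Bool) → ℝ} (h : ∀ x, f x ≤ g x) : mean f ≤ mean g := by
  unfold mean
  exact mul_le_mul_of_nonneg_left (sum_le_sum fun x _ => h x) (by positivity)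

theorem mean_nonneg {f : (I → Bool) → ℝ} (h : ∀ x, 0 ≤ f x) : 0 ≤ mean f := by
  have := mean_mono (f := fun _ => 0) (g := f) h
  rwa [mean_const] at this

theorem mean_mul_sq_le (f g : (I → Bool) → ℝ) :
    (mean fun x => f x * g x) ^ 2 ≤ (mean fun x => f x ^ 2) * (mean fun x => g x ^ 2) := by
  unfold mean
  have h := sum_mul_sq_le_sq_mul_sq (univ : Finset (I → Bool)) f g
  calc (((2:ℝ) ^ Fintype.card I)⁻¹ * ∑ x, f x * g x) ^ 2
      = (((2:ℝ) ^ Fintype.card I)⁻¹) ^ 2 * (∑ x, f x * g x) ^ 2 := by ring
    _ ≤ (((2:ℝ) ^ Fintype.card I)⁻¹) ^ 2 * ((∑ x, f x ^ 2) * ∑ x, g x ^ 2) :=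
        mul_le_mul_of_nonneg_left h (by positivity)
    _ = _ := by ring

theorem ch_sq (S : Finset I) (x : I → Bool) : ch S x * ch S x = 1 := by
  unfold ch
  rw [← prod_mul_distrib]
  refine prod_eq_one fun e _ => ?_
  cases x e <;> simp

theorem abs_ch (S : Finset I) (x : I → Bool) : |ch S x| = 1 := by
  unfold ch
  rw [abs_prod]
  refine prod_eq_one fun i _ => ?_
  rw [abs_pow, abs_neg, abs_one, one_pow]

theorem sum_ch_mul (x y : I → Bool) :
    ∑ S : Finset I, ch S x * ch S y = if x = y then (2:ℝ) ^ Fintype.card I else 0 := by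
  have h : ∑ S : Finset I, ch S x * ch S y =
      ∏ e : I, (1 + (-1 : ℝ) ^ (x e).toNat * (-1 : ℝ) ^ (y e).toNat) := by
    rw [prod_one_add, ← powerset_univ]
    refine sum_congr rfl fun S _ => ?_
    unfold ch
    rw [prod_mul_distrib]
  rw [h]
  split_ifs with hxy
  · subst hxy
    have : ∀ e : I, (1 + (-1 : ℝ) ^ (x e).toNat * (-1 : ℝ) ^ (x e).toNat) = 2 := by
      intro e
      cases x e <;> norm_num
    rw [prod_congr rfl fun e _ => this e, prod_const, card_univ]
  · obtain ⟨e, he⟩ := Function.ne_iff.1 hxy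
    refine prod_eq_zero (mem_univ e) ?_
    cases hx : x e <;> cases hy : y e <;> simp_all

theorem inversion (f : (I → Bool) → ℝ) (x : I → Bool) : f x = ∑ S, coef f S * ch S x := by
  have h : ∑ S, coef f S * ch S x =
      ((2:ℝ) ^ Fintype.card I)⁻¹ * ∑ y, f y * ∑ S : Finset I, ch S y * ch S x := by
    unfold coef mean
    rw [mul_sum]
    simp only [mul_sum, sum_mul]
    rw [sum_comm]
    refine sum_congr rfl fun y _ => sum_congr rfl fun S _ => by ring
  rw [h]
  simp only [sum_ch_mul]
  rw [sum_eq_single x]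
  · rw [if_pos rfl]
    field_simp
  · intro y _ hy
    rw [if_neg hy, mul_zero]
  · intro h; exact absurd (mem_univ x) h

theorem parseval (f g : (I → Bool) → ℝ) :
    (mean fun x => f x * g x) = ∑ S, coef f S * coef g S := by
  have h : (fun x => f x * g x) = fun x => ∑ S, coef g S * (f x * ch S x) := by
    funext x
    rw [inversion g x, mul_sum]
    exact sum_congr rfl fun S _ => by ring
  rw [h, mean_sum]
  refine sum_congr rfl fun S _ => ?_
  rw [mean_smul]
  unfold coef
  ring

theorem coef_empty (f : (I → Bool) → ℝ) : coef f ∅ = mean f := by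
  unfold coef ch
  simp

/-- negate a coordinate -/
def flipI (e : I) (x : I → Bool) : I → Bool := Function.update x e (!x e)

theorem flipI_flipI (e : I) (x : I → Bool) : flipI e (flipI e x) = x := by
  unfold flipI
  funext i
  by_cases h : i = e
  · subst h; simp
  · simp [h]

/-- negating a coordinate as a permutation -/
def flipIEquiv (e : I) : (I → Bool) ≃ (I → Bool) := ⟨flipI e, flipI e, flipI_flipI e, flipI_flipI e⟩

theorem mean_equiv (φ : (I → Bool) ≃ (I → Bool)) (f : (I → Bool) → ℝ) :
    mean (fun x => f (φ x)) = mean f := by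
  unfold mean
  rw [Equiv.sum_comp φ f]

theorem ch_flipI (S : Finset I) (e : I) (x : I → Bool) :
    ch S (flipI e x) = (if e ∈ S then -1 else 1) * ch S x := by
  unfold ch
  split_ifs with h
  · rw [← mul_prod_erase S _ h, ← mul_prod_erase S _ h]
    have h1 : ∏ i ∈ S.erase e, (-1:ℝ) ^ (flipI e x i).toNat =
        ∏ i ∈ S.erase e, (-1:ℝ) ^ (x i).toNat := by
      refine prod_congr rfl fun i hi => ?_
      unfold flipI
      rw [Function.update_of_ne (mem_erase.1 hi).1]
    rw [h1]
    unfold flipI
    rw [Function.update_self]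
    cases x e <;> simp
  · rw [one_mul]
    refine prod_congr rfl fun i hi => ?_
    have hie : i ≠ e := fun h' => h (by rw [← h']; exact hi)
    unfold flipI
    rw [Function.update_of_ne hie]

theorem coef_eq_zero_of_indep (f : (I → Bool) → ℝ) (S : Finset I) (e : I) (he : e ∈ S)
    (h : ∀ x, f (flipI e x) = f x) : coef f S = 0 := by
  have h1 : coef f S = mean fun x => f (flipI e x) * ch S (flipI e x) :=
    (mean_equiv (flipIEquiv e) fun x => f x * ch S x).symm
  have h2 : (mean fun x => f (flipI e x) * ch S (flipI e x)) = - coef f S := by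
    have : (fun x => f (flipI e x) * ch S (flipI e x)) = fun x => (-1) * (f x * ch S x) := by
      funext x
      rw [h, ch_flipI, if_pos he]
      ring
    rw [this, mean_smul]
    unfold coef
    ring
  linarith

/-- the discrete derivative -/
noncomputable def Dv (e : I) (f : (I → Bool) → ℝ) (x : I → Bool) : ℝ := (f x - f (flipI e x)) / 2

theorem coef_Dv (e : I) (f : (I → Bool) → ℝ) (S : Finset I) :
    coef (Dv e f) S = if e ∈ S then coef f S else 0 := by
  have h1 : coef (Dv e f) S = (1/2) * (coef f S - mean fun x => f (flipI e x) * ch S x) := by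
    unfold coef
    rw [← mean_sub, ← mean_smul]
    congr 1
    funext x
    unfold Dv
    ring
  have h2 : (mean fun x => f (flipI e x) * ch S x) =
      (if e ∈ S then -1 else 1) * coef f S := by
    have h3 : (mean fun x => f (flipI e x) * ch S x) =
        mean fun x => f (flipI e (flipI e x)) * ch S (flipI e x) :=
      (mean_equiv (flipIEquiv e) fun x => f (flipI e x) * ch S x).symm
    rw [h3]
    have : (fun x => f (flipI e (flipI e x)) * ch S (flipI e x)) =
        fun x => (if e ∈ S then -1 else 1) * (f x * ch S x) := by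
      funext x
      rw [flipI_flipI, ch_flipI]
      ring
    rw [this, mean_smul]
    rfl
  rw [h1, h2]
  split_ifs <;> ring

theorem inf_eq (e : I) (f : (I → Bool) → ℝ) :
    (mean fun x => Dv e f x ^ 2) = ∑ S ∈ univ.filter (fun S => e ∈ S), coef f S ^ 2 := by
  have h := parseval (Dv e f) (Dv e f)
  have h0 : (mean fun x => Dv e f x ^ 2) = mean fun x => Dv e f x * Dv e f x := by
    congr 1; funext x; ring
  rw [h0, h, sum_filter]
  refine sum_congr rfl fun S _ => ?_
  rw [coef_Dv]
  split_ifs <;> ring

theorem var_eq (f : (I → Bool) → ℝ) :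
    (mean fun x => f x ^ 2) - (mean f) ^ 2 = ∑ S ∈ univ.erase (∅ : Finset I), coef f S ^ 2 := by
  have h0 : (mean fun x => f x ^ 2) = mean fun x => f x * f x := by
    congr 1; funext x; ring
  rw [h0, parseval, ← add_sum_erase univ _ (mem_univ (∅ : Finset I)), coef_empty]
  have : ∑ S ∈ univ.erase (∅ : Finset I), coef f S * coef f S =
      ∑ S ∈ univ.erase (∅ : Finset I), coef f S ^ 2 := sum_congr rfl fun S _ => by ring
  rw [this]
  ring

end Pool.Agent.L0h23.AA.Sym
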