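import Pool.Agent.L0h23.AA.Fourier
import Pool.Agent.L0h23.AA.Markov

/-!
# Families of sets with bounded codegree: fourth moments; the gradient of a bounded polynomial
-/

set_option autoImplicit false
set_option linter.unusedSectionVars false

open Finset Polynomial

namespace Pool.Agent.L0h23.AA.Sym

variable {I : Type} [Fintype I] [DecidableEq I]

/-- the function with coefficients `c` on the family `𝓢` -/
noncomputable def poly (𝓢 : Finset (Finset I)) (c : Finset I → ℝ) (x : I → Bool) : ℝ :=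
  ∑ S ∈ 𝓢, c S * ch S x

theorem mean_ch_mul (S T : Finset I) : mean (fun x => ch S x * ch T x) = if S = T then 1 else 0 := by
  split_ifs with h
  · subst h
    simp only [ch_sq]
    exact mean_const 1
  · have h1 : ∃ e, ¬ (e ∈ S ↔ e ∈ T) := by
      by_contra hcon
      push Not at hcon
      exact h (Finset.ext hcon)
    obtain ⟨e, he⟩ := h1
    have h2 : mean (fun x => ch S x * ch T x) = mean fun x => ch S (flipI e x) * ch T (flipI e x) :=
      (mean_equiv (flipIEquiv e) fun x => ch S x * ch T x).symm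
    have h3 : (mean fun x => ch S (flipI e x) * ch T (flipI e x)) =
        - mean (fun x => ch S x * ch T x) := by
      have : (fun x => ch S (flipI e x) * ch T (flipI e x)) =
          fun x : I → Bool => (-1) * (ch S x * ch T x) := by
        funext x
        rw [ch_flipI, ch_flipI]
        by_cases hS : e ∈ S
        · have hT : e ∉ T := fun hT => he ⟨fun _ => hT, fun _ => hS⟩
          rw [if_pos hS, if_neg hT]
          ring
        · have hT : e ∈ T := by
            by_contra hT
            exact he ⟨fun h => absurd h hS, fun h => absurd h hT⟩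
          rw [if_neg hS, if_pos hT]
          ring
      rw [this, mean_smul]
      ring
    linarith

theorem coef_poly (𝓢 : Finset (Finset I)) (c : Finset I → ℝ) (T : Finset I) :
    coef (poly 𝓢 c) T = if T ∈ 𝓢 then c T else 0 := by
  have h : coef (poly 𝓢 c) T = ∑ S ∈ 𝓢, c S * mean fun x => ch S x * ch T x := by
    unfold coef poly
    simp only [← mean_smul]
    rw [← mean_sum]
    congr 1
    funext x
    rw [sum_mul]
    exact sum_congr rfl fun S _ => by ring
  rw [h]
  simp only [mean_ch_mul]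
  simp

theorem mean_poly_sq (𝓢 : Finset (Finset I)) (c : Finset I → ℝ) :
    (mean fun x => poly 𝓢 c x ^ 2) = ∑ S ∈ 𝓢, c S ^ 2 := by
  have h : (mean fun x => poly 𝓢 c x ^ 2) = mean fun x => poly 𝓢 c x * poly 𝓢 c x := by
    congr 1; funext x; ring
  rw [h, parseval]
  simp only [coef_poly]
  have : ∀ S : Finset I, ((if S ∈ 𝓢 then c S else 0) * if S ∈ 𝓢 then c S else 0) =
      if S ∈ 𝓢 then c S ^ 2 else 0 := by
    intro S
    split_ifs <;> ring
  rw [sum_congr rfl fun S _ => this S, ← sum_filter]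
  congr 1
  ext S
  simp

theorem poly_flip {𝓢 : Finset (Finset I)} {c : Finset I → ℝ} {a : I} (h : ∀ S ∈ 𝓢, a ∉ S)
    (x : I → Bool) : poly 𝓢 c (flipI a x) = poly 𝓢 c x := by
  unfold poly
  refine sum_congr rfl fun S hS => ?_
  rw [ch_flipI, if_neg (h S hS), one_mul]

theorem mean_odd {a : I} (g : (I → Bool) → ℝ) (h : ∀ x, g (flipI a x) = - g x) : mean g = 0 := by
  have h1 : mean (fun x => g (flipI a x)) = mean g := mean_equiv (flipIEquiv a) g
  have h2 : mean (fun x => g (flipI a x)) = - mean g := by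
    have : (fun x => g (flipI a x)) = fun x => (-1) * g x := by
      funext x; rw [h]; ring
    rw [this, mean_smul]; ring
  linarith

/-- the character of one coordinate -/
theorem ch_single_flip (a : I) (x : I → Bool) : ch {a} (flipI a x) = - ch {a} x := by
  rw [ch_flipI, if_pos (mem_singleton_self a)]
  ring

theorem mean_four (a : I) (g₀ g₁ : (I → Bool) → ℝ) (h₀ : ∀ x, g₀ (flipI a x) = g₀ x)
    (h₁ : ∀ x, g₁ (flipI a x) = g₁ x) :
    (mean fun x => (g₀ x + ch {a} x * g₁ x) ^ 4) =
      (mean fun x => g₀ x ^ 4) + 6 * (mean fun x => g₀ x ^ 2 * g₁ x ^ 2) +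
        mean fun x => g₁ x ^ 4 := by
  have hsq : ∀ x : I → Bool, ch {a} x ^ 2 = 1 := fun x => by rw [sq]; exact ch_sq _ _
  have e : (fun x => (g₀ x + ch {a} x * g₁ x) ^ 4) = fun x =>
      (g₀ x ^ 4 + 6 * (g₀ x ^ 2 * g₁ x ^ 2) + g₁ x ^ 4) +
        ch {a} x * (4 * g₀ x ^ 3 * g₁ x + 4 * g₀ x * g₁ x ^ 3) := by
    funext x
    have h2 := hsq x
    have h4 : ch {a} x ^ 4 = 1 := by
      calc ch {a} x ^ 4 = (ch {a} x ^ 2) ^ 2 := by ring
        _ = 1 := by rw [h2]; norm_num
    have h3 : ch {a} x ^ 3 = ch {a} x := by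
      calc ch {a} x ^ 3 = ch {a} x ^ 2 * ch {a} x := by ring
        _ = _ := by rw [h2, one_mul]
    calc (g₀ x + ch {a} x * g₁ x) ^ 4 = g₀ x ^ 4 + 6 * (g₀ x ^ 2 * g₁ x ^ 2) * ch {a} x ^ 2 +
          g₁ x ^ 4 * ch {a} x ^ 4 + (ch {a} x * (4 * g₀ x ^ 3 * g₁ x) +
            ch {a} x ^ 3 * (4 * g₀ x * g₁ x ^ 3)) := by ring
      _ = _ := by rw [h2, h3, h4]; ring
  rw [e, mean_add, mean_add, mean_add, mean_smul]
  have hodd : (mean fun x => ch {a} x * (4 * g₀ x ^ 3 * g₁ x + 4 * g₀ x * g₁ x ^ 3)) = 0 := by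
    apply mean_odd (a := a)
    intro x
    rw [ch_single_flip, h₀, h₁]
    ring
  rw [hodd, add_zero]

/-- **Fourth moments for families with codegree at most `t`.** -/
theorem four_le (A : Finset I) : ∀ (k t : ℕ), 1 ≤ t → ∀ (𝓢 : Finset (Finset I)) (c : Finset I → ℝ),
    (∀ S ∈ 𝓢, S ⊆ A) → (∀ K : Finset I, K.card = k → (𝓢.filter fun S => K ⊆ S).card ≤ t) →
    (mean fun x => poly 𝓢 c x ^ 4) ≤ t * 9 ^ k * (∑ S ∈ 𝓢, c S ^ 2) ^ 2 := by
  induction A using Finset.induction_on with
  | empty =>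
    intro k t ht 𝓢 c hA _
    have h1 : ∀ x, poly 𝓢 c x ^ 2 = ∑ S ∈ 𝓢, c S ^ 2 := by
      intro x
      unfold poly
      have h2 : 𝓢 ⊆ {∅} := by
        intro S hS
        rw [mem_singleton]
        exact subset_empty.1 (hA S hS)
      rcases subset_singleton_iff.1 h2 with h | h
      · rw [h]; simp
      · rw [h]; simp [ch]
    have h2 : (mean fun x => poly 𝓢 c x ^ 4) = (∑ S ∈ 𝓢, c S ^ 2) ^ 2 := by
      have : (fun x => poly 𝓢 c x ^ 4) = fun _ => (∑ S ∈ 𝓢, c S ^ 2) ^ 2 := by
        funext x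
        rw [← h1 x]
        ring
      rw [this, mean_const]
    rw [h2]
    have h3 : (1:ℝ) ≤ t := by exact_mod_cast ht
    have h4 : (1:ℝ) ≤ 9 ^ k := one_le_pow₀ (by norm_num)
    have h5 : (1:ℝ) ≤ t * 9 ^ k := by nlinarith
    nlinarith [sq_nonneg (∑ S ∈ 𝓢, c S ^ 2)]
  | insert a A ha ih =>
    intro k t ht 𝓢 c hA hK
    have ht1 : (1:ℝ) ≤ t := by exact_mod_cast ht
    cases k with
    | zero =>
      have h1 : 𝓢.card ≤ t := by
        have := hK ∅ rfl
        simpa using this
      have h2 : ∀ x, poly 𝓢 c x ^ 2 ≤ t * ∑ S ∈ 𝓢, c S ^ 2 := by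
        intro x
        unfold poly
        have h3 := sq_sum_le_card_mul_sum_sq (s := 𝓢) (f := fun S => c S * ch S x)
        have h4 : ∑ S ∈ 𝓢, (c S * ch S x) ^ 2 = ∑ S ∈ 𝓢, c S ^ 2 := by
          refine sum_congr rfl fun S _ => ?_
          rw [mul_pow, sq (ch S x), ch_sq, mul_one]
        rw [h4] at h3
        refine h3.trans ?_
        exact mul_le_mul_of_nonneg_right (by exact_mod_cast h1)
          (sum_nonneg fun _ _ => sq_nonneg _)
      have h5 := mean_mono (f := fun x => poly 𝓢 c x ^ 4)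
        (g := fun x => (t * ∑ S ∈ 𝓢, c S ^ 2) * poly 𝓢 c x ^ 2) (fun x => by
          have h6 := h2 x
          have h7 := sq_nonneg (poly 𝓢 c x)
          calc poly 𝓢 c x ^ 4 = poly 𝓢 c x ^ 2 * poly 𝓢 c x ^ 2 := by ring
            _ ≤ _ := mul_le_mul_of_nonneg_right h6 h7)
      rw [mean_smul, mean_poly_sq] at h5
      refine h5.trans (le_of_eq ?_)
      rw [pow_zero]
      ring
    | succ k =>
      set 𝓢₀ := 𝓢.filter fun S => a ∉ S with h𝓢₀
      set 𝓢₁ := (𝓢.filter fun S => a ∈ S).image fun S => S.erase a with h𝓢₁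
      set c₁ : Finset I → ℝ := fun S => c (insert a S) with hc₁
      have hinj : Set.InjOn (fun S : Finset I => S.erase a)
          ((𝓢.filter fun S => a ∈ S : Finset (Finset I)) : Set (Finset I)) := by
        intro S hS T hT h
        have hS' := (mem_filter.1 hS).2
        have hT' := (mem_filter.1 hT).2
        have h' : S.erase a = T.erase a := h
        rw [← insert_erase hS', ← insert_erase hT', h']
      have hsplit : ∀ x, poly 𝓢 c x = poly 𝓢₀ c x + ch {a} x * poly 𝓢₁ c₁ x := by
        intro x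
        unfold poly
        rw [← sum_filter_add_sum_filter_not 𝓢 (fun S => a ∈ S), add_comm]
        congr 1
        rw [h𝓢₁, sum_image hinj, mul_sum]
        refine sum_congr rfl fun S hS => ?_
        have hS' := (mem_filter.1 hS).2
        rw [hc₁]
        dsimp only
        rw [insert_erase hS']
        have : ch S x = ch {a} x * ch (S.erase a) x := by
          unfold ch
          rw [prod_singleton, mul_prod_erase S (fun e => (-1:ℝ) ^ (x e).toNat) hS']
        rw [this]
        ring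
      have hsum : ∑ S ∈ 𝓢, c S ^ 2 = ∑ S ∈ 𝓢₀, c S ^ 2 + ∑ S ∈ 𝓢₁, c₁ S ^ 2 := by
        rw [← sum_filter_add_sum_filter_not 𝓢 (fun S => a ∈ S), add_comm]
        congr 1
        rw [h𝓢₁, sum_image hinj]
        refine sum_congr rfl fun S hS => ?_
        have hS' := (mem_filter.1 hS).2
        rw [hc₁]
        dsimp only
        rw [insert_erase hS']
      have h0 := ih (k + 1) t ht 𝓢₀ c (fun S hS => by
        have h1 := hA S (mem_filter.1 hS).1
        have h2 := (mem_filter.1 hS).2
        exact (subset_insert_iff_of_notMem h2).1 h1) (fun K hKc => by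
          refine le_trans (card_le_card ?_) (hK K hKc)
          intro S hS
          have h1 := mem_filter.1 hS
          exact mem_filter.2 ⟨(mem_filter.1 h1.1).1, h1.2⟩)
      have h1 := ih k t ht 𝓢₁ c₁ (fun S hS => by
        obtain ⟨T, hT, rfl⟩ := mem_image.1 hS
        have h1 := hA T (mem_filter.1 hT).1
        exact subset_insert_iff.1 h1) (fun K hKc => by
          by_cases haK : a ∈ K
          · have : (𝓢₁.filter fun S => K ⊆ S) = ∅ := by
              rw [eq_empty_iff_forall_notMem]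
              intro S hS
              obtain ⟨hS1, hS2⟩ := mem_filter.1 hS
              obtain ⟨T, hT, rfl⟩ := mem_image.1 hS1
              exact notMem_erase a T (hS2 haK)
            rw [this, card_empty]
            exact Nat.zero_le _
          · have hcard : (insert a K).card = k + 1 := by rw [card_insert_of_notMem haK, hKc]
            refine le_trans ?_ (hK (insert a K) hcard)
            refine card_le_card_of_injOn (fun S => insert a S) ?_ ?_
            · intro S hS
              obtain ⟨hS1, hS2⟩ := mem_filter.1 hS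
              obtain ⟨T, hT, rfl⟩ := mem_image.1 hS1
              obtain ⟨hT1, hT2⟩ := mem_filter.1 hT
              refine mem_filter.2 ⟨?_, insert_subset_insert a hS2⟩
              show insert a (T.erase a) ∈ 𝓢
              rw [insert_erase hT2]
              exact hT1
            · intro S hS S' hS' h
              obtain ⟨T, hT, rfl⟩ := mem_image.1 (mem_filter.1 hS).1
              obtain ⟨T', hT', rfl⟩ := mem_image.1 (mem_filter.1 hS').1
              have h' : insert a (T.erase a) = insert a (T'.erase a) := h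
              rw [insert_erase (mem_filter.1 hT).2, insert_erase (mem_filter.1 hT').2] at h'
              rw [h'])
      have hf0 : ∀ x, poly 𝓢₀ c (flipI a x) = poly 𝓢₀ c x :=
        poly_flip fun S hS => (mem_filter.1 hS).2
      have hf1 : ∀ x, poly 𝓢₁ c₁ (flipI a x) = poly 𝓢₁ c₁ x :=
        poly_flip fun S hS => by
          obtain ⟨T, _, rfl⟩ := mem_image.1 hS
          exact notMem_erase a T
      have hm := mean_four a (poly 𝓢₀ c) (poly 𝓢₁ c₁) hf0 hf1
      have e : (fun x => poly 𝓢 c x ^ 4) =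
          fun x => (poly 𝓢₀ c x + ch {a} x * poly 𝓢₁ c₁ x) ^ 4 := by
        funext x; rw [hsplit]
      rw [e, hm, hsum]
      set α := ∑ S ∈ 𝓢₀, c S ^ 2 with hα
      set β := ∑ S ∈ 𝓢₁, c₁ S ^ 2 with hβ
      have hα0 : 0 ≤ α := sum_nonneg fun _ _ => sq_nonneg _
      have hβ0 : 0 ≤ β := sum_nonneg fun _ _ => sq_nonneg _
      have hcs := mean_mul_sq_le (fun x => poly 𝓢₀ c x ^ 2) (fun x => poly 𝓢₁ c₁ x ^ 2)
      have e1 : (mean fun x => (poly 𝓢₀ c x ^ 2) ^ 2) = mean fun x => poly 𝓢₀ c x ^ 4 := by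
        congr 1; funext x; ring
      have e2 : (mean fun x => (poly 𝓢₁ c₁ x ^ 2) ^ 2) = mean fun x => poly 𝓢₁ c₁ x ^ 4 := by
        congr 1; funext x; ring
      rw [e1, e2] at hcs
      set m := mean fun x => poly 𝓢₀ c x ^ 2 * poly 𝓢₁ c₁ x ^ 2 with hmd
      have hk9 : (0:ℝ) < 9 ^ k := by positivity
      have hmle : m ≤ t * 3 * 9 ^ k * (α * β) := by
        refine le_of_abs_le (abs_le_of_sq_le_sq ?_ ?_)
        · refine hcs.trans ?_
          have hz0 : 0 ≤ mean fun x => poly 𝓢₀ c x ^ 4 := mean_nonneg fun x => by positivity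
          have hz1 : 0 ≤ mean fun x => poly 𝓢₁ c₁ x ^ 4 := mean_nonneg fun x => by positivity
          refine (mul_le_mul h0 h1 hz1 (by positivity)).trans (le_of_eq ?_)
          rw [pow_succ]
          ring
        · positivity
      rw [pow_succ] at h0 ⊢
      nlinarith [mul_nonneg hα0 hβ0, mul_nonneg (mul_nonneg (by positivity : (0:ℝ) ≤ t) hk9.le)
        (mul_nonneg hβ0 hβ0)]

/-- flipping the coordinates in a set -/
def flipS (T : Finset I) (x : I → Bool) : I → Bool := fun e => if e ∈ T then !x e else x e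

theorem ch_flipS (S T : Finset I) (x : I → Bool) :
    ch S (flipS T x) = (∏ e ∈ S, if e ∈ T then (-1:ℝ) else 1) * ch S x := by
  unfold ch flipS
  rw [← prod_mul_distrib]
  refine prod_congr rfl fun e _ => ?_
  split_ifs
  · cases x e <;> simp
  · simp

/-- the mean of `f` if the coordinates in `J` are flipped independently with probability `t` -/
theorem noise_eq (f : (I → Bool) → ℝ) (J : Finset I) (x : I → Bool) (t : ℝ) :
    ∑ T ∈ J.powerset, t ^ T.card * (1 - t) ^ (J \ T).card * f (flipS T x) =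
      ∑ S, coef f S * ch S x * (1 - 2 * t) ^ (S ∩ J).card := by
  have h1 : ∀ T ∈ J.powerset, t ^ T.card * (1 - t) ^ (J \ T).card * f (flipS T x) =
      ∑ S, coef f S * ch S x * (t ^ T.card * (1 - t) ^ (J \ T).card *
        ∏ e ∈ S, if e ∈ T then (-1:ℝ) else 1) := by
    intro T _
    rw [inversion f (flipS T x), mul_sum]
    refine sum_congr rfl fun S _ => ?_
    rw [ch_flipS]
    ring
  rw [sum_congr rfl h1, sum_comm]
  refine sum_congr rfl fun S _ => ?_
  rw [← mul_sum]
  congr 1
  have h2 : ∀ T ∈ J.powerset, t ^ T.card * (1 - t) ^ (J \ T).card *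
      (∏ e ∈ S, if e ∈ T then (-1:ℝ) else 1) =
      (∏ e ∈ T, (if e ∈ S then -t else t)) * ∏ e ∈ J \ T, (1 - t) := by
    intro T _
    rw [prod_const]
    have h3 : (∏ e ∈ S, if e ∈ T then (-1:ℝ) else 1) = ∏ e ∈ T, if e ∈ S then (-1:ℝ) else 1 := by
      rw [← prod_filter, ← prod_filter, filter_mem_eq_inter, filter_mem_eq_inter, inter_comm]
    have h4 : (∏ e ∈ T, (if e ∈ S then -t else t)) =
        t ^ T.card * ∏ e ∈ T, if e ∈ S then (-1:ℝ) else 1 := by
      rw [← prod_const, ← prod_mul_distrib]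
      refine prod_congr rfl fun e _ => ?_
      split_ifs <;> ring
    rw [h3, h4]
    ring
  rw [sum_congr rfl h2, ← prod_add]
  have h5 : ∀ e ∈ J, ((if e ∈ S then -t else t) + (1 - t)) = if e ∈ S then 1 - 2 * t else 1 := by
    intro e _
    split_ifs <;> ring
  rw [prod_congr rfl h5, ← prod_filter, filter_mem_eq_inter, prod_const, inter_comm]

theorem abs_noise_le (f : (I → Bool) → ℝ) (hb : ∀ x, |f x| ≤ 1) (J : Finset I) (x : I → Bool)
    (t : ℝ) (ht0 : 0 ≤ t) (ht1 : t ≤ 1) :
    |∑ S, coef f S * ch S x * (1 - 2 * t) ^ (S ∩ J).card| ≤ 1 := by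
  rw [← noise_eq]
  refine (abs_sum_le_sum_abs _ _).trans ?_
  have h1 : ∀ T ∈ J.powerset, |t ^ T.card * (1 - t) ^ (J \ T).card * f (flipS T x)| ≤
      (∏ e ∈ T, t) * ∏ e ∈ J \ T, (1 - t) := by
    intro T _
    rw [abs_mul, prod_const, prod_const]
    have h2 : 0 ≤ t ^ T.card * (1 - t) ^ (J \ T).card :=
      mul_nonneg (by positivity) (pow_nonneg (by linarith) _)
    rw [abs_of_nonneg h2]
    exact mul_le_of_le_one_right h2 (hb _)
  refine (sum_le_sum h1).trans ?_
  rw [← prod_add]
  simp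

theorem Dv_eq_sum (e : I) (f : (I → Bool) → ℝ) (x : I → Bool) :
    Dv e f x = ∑ S, (if e ∈ S then 1 else 0) * (coef f S * ch S x) := by
  rw [inversion (Dv e f) x]
  refine sum_congr rfl fun S _ => ?_
  rw [coef_Dv]
  split_ifs <;> ring

theorem sum_Dv_le {f : (I → Bool) → ℝ} (hb : ∀ x, |f x| ≤ 1) {d : ℕ}
    (hdeg : ∀ S : Finset I, d < S.card → coef f S = 0) (J : Finset I) (x : I → Bool) :
    |∑ e ∈ J, Dv e f x| ≤ (d:ℝ) ^ 2 := by
  set Q : ℝ[X] := ∑ S : Finset I, C (coef f S * ch S x) * (1 - 2 * X) ^ (S ∩ J).card with hQ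
  have hlin : (1 - 2 * X : ℝ[X]).natDegree ≤ 1 := by
    have : (1 - 2 * X : ℝ[X]) = C (-2) * X + C 1 := by
      simp only [map_neg, map_ofNat, map_one]
      ring
    rw [this]
    exact natDegree_linear_le
  have hQd : Q.natDegree ≤ d := by
    rw [hQ]
    refine natDegree_sum_le_of_forall_le _ _ fun S _ => ?_
    by_cases hS : d < S.card
    · rw [hdeg S hS]; simp
    · push Not at hS
      refine (natDegree_C_mul_le _ _).trans ((natDegree_pow_le).trans ?_)
      calc (S ∩ J).card * (1 - 2 * X : ℝ[X]).natDegree ≤ (S ∩ J).card * 1 :=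
            Nat.mul_le_mul_left _ hlin
        _ ≤ d := by
            rw [mul_one]
            exact (card_le_card inter_subset_left).trans hS
  have hQe : ∀ t, Q.eval t = ∑ S, coef f S * ch S x * (1 - 2 * t) ^ (S ∩ J).card := by
    intro t
    rw [hQ, eval_finsetSum]
    refine sum_congr rfl fun S _ => ?_
    simp
  have h1 := markov_end hQd (a := 1) (b := 0) (M := 1) (by norm_num) one_pos (fun t ht => by
    rw [Set.uIcc_of_ge (by norm_num : (0:ℝ) ≤ 1)] at ht
    rw [hQe]
    exact abs_noise_le f hb J x t ht.1 ht.2)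
  have h2 : (derivative Q).eval 0 = -2 * ∑ e ∈ J, Dv e f x := by
    rw [hQ, derivative_sum, eval_finsetSum]
    have h3 : ∀ S : Finset I, (derivative (C (coef f S * ch S x) * (1 - 2 * X) ^ (S ∩ J).card)).eval 0 =
        -2 * ((S ∩ J).card * (coef f S * ch S x)) := by
      intro S
      rw [derivative_C_mul, derivative_pow]
      simp
      ring
    rw [sum_congr rfl fun S _ => h3 S, ← mul_sum]
    congr 1
    simp only [Dv_eq_sum]
    rw [sum_comm]
    refine sum_congr rfl fun S _ => ?_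
    rw [← sum_mul]
    congr 1
    rw [← sum_filter, sum_const, nsmul_eq_mul, mul_one, filter_mem_eq_inter, inter_comm]
  rw [h2, abs_mul] at h1
  norm_num at h1
  linarith

/-- **The gradient of a bounded function of degree at most `d`.** -/
theorem sum_abs_Dv_le {f : (I → Bool) → ℝ} (hb : ∀ x, |f x| ≤ 1) {d : ℕ}
    (hdeg : ∀ S : Finset I, d < S.card → coef f S = 0) (x : I → Bool) :
    ∑ e, |Dv e f x| ≤ 2 * (d:ℝ) ^ 2 := by
  rw [← sum_filter_add_sum_filter_not univ (fun e => 0 ≤ Dv e f x)]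
  have h1 : ∑ e ∈ univ.filter (fun e => 0 ≤ Dv e f x), |Dv e f x| ≤ (d:ℝ) ^ 2 := by
    have e1 : ∑ e ∈ univ.filter (fun e => 0 ≤ Dv e f x), |Dv e f x| =
        ∑ e ∈ univ.filter (fun e => 0 ≤ Dv e f x), Dv e f x :=
      sum_congr rfl fun e he => abs_of_nonneg (mem_filter.1 he).2
    rw [e1]
    exact (le_abs_self _).trans (sum_Dv_le hb hdeg _ x)
  have h2 : ∑ e ∈ univ.filter (fun e => ¬ 0 ≤ Dv e f x), |Dv e f x| ≤ (d:ℝ) ^ 2 := by
    have e1 : ∑ e ∈ univ.filter (fun e => ¬ 0 ≤ Dv e f x), |Dv e f x| =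
        - ∑ e ∈ univ.filter (fun e => ¬ 0 ≤ Dv e f x), Dv e f x := by
      rw [← sum_neg_distrib]
      refine sum_congr rfl fun e he => abs_of_neg ?_
      have := (mem_filter.1 he).2
      push Not at this
      exact this
    rw [e1]
    exact (neg_le_abs _).trans (sum_Dv_le hb hdeg _ x)
  linarith

/-- **The Fourier weight on a family with codegree at most `t`.** -/
theorem weight_le {f : (I → Bool) → ℝ} (hb : ∀ x, |f x| ≤ 1) {d : ℕ}
    (hdeg : ∀ S : Finset I, d < S.card → coef f S = 0) {k t : ℕ} (ht : 1 ≤ t)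
    (𝓢 : Finset (Finset I)) (hne : ∀ S ∈ 𝓢, S.Nonempty)
    (hK : ∀ K : Finset I, K.card = k → (𝓢.filter fun S => K ⊆ S).card ≤ t)
    (ε : ℝ) (hε : 0 ≤ ε) (hinf : ∀ e, (mean fun x => Dv e f x ^ 2) ≤ ε ^ 2) :
    ∑ S ∈ 𝓢, coef f S ^ 2 ≤ 2 * d ^ 2 * (√(t:ℝ) * 3 ^ k) * ε := by
  -- one coordinate
  have hone : ∀ e : I, ∑ S ∈ 𝓢.filter (fun S => e ∈ S), coef f S ^ 2 ≤
      √(t:ℝ) * 3 ^ k * ε * mean fun x => |Dv e f x| := by
    intro e
    set 𝓢e := 𝓢.filter fun S => e ∈ S with h𝓢e
    set W := ∑ S ∈ 𝓢e, coef f S ^ 2 with hW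
    have hW0 : 0 ≤ W := sum_nonneg fun _ _ => sq_nonneg _
    set h := poly 𝓢e (coef f) with hh
    have h4 : (mean fun x => h x ^ 4) ≤ t * 9 ^ k * W ^ 2 :=
      four_le univ k t ht 𝓢e (coef f) (fun S _ => subset_univ S) (fun K hKc => by
        refine le_trans (card_le_card ?_) (hK K hKc)
        intro S hS
        have h1 := mem_filter.1 hS
        exact mem_filter.2 ⟨(mem_filter.1 h1.1).1, h1.2⟩)
    have hD1 : W = mean fun x => Dv e f x * h x := by
      rw [parseval, hW]
      simp only [hh, coef_poly, coef_Dv]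
      have : ∀ S : Finset I, ((if e ∈ S then coef f S else 0) *
          if S ∈ 𝓢e then coef f S else 0) = if S ∈ 𝓢e then coef f S ^ 2 else 0 := by
        intro S
        by_cases h1 : S ∈ 𝓢e
        · rw [if_pos h1, if_pos (mem_filter.1 h1).2, if_pos h1]
          ring
        · rw [if_neg h1, if_neg h1, mul_zero]
      rw [sum_congr rfl fun S _ => this S, ← sum_filter]
      congr 1
      ext S
      simp
    have hA0 : 0 ≤ mean fun x => |Dv e f x| := mean_nonneg fun _ => abs_nonneg _
    -- two applications of Cauchy-Schwarz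
    have hc1 : W ^ 2 ≤ (mean fun x => |Dv e f x|) * mean fun x => |Dv e f x| * h x ^ 2 := by
      have h1 := mean_mul_sq_le (fun x => √|Dv e f x|) (fun x => √|Dv e f x| * |h x|)
      have e1 : (mean fun x => √|Dv e f x| ^ 2) = mean fun x => |Dv e f x| := by
        congr 1; funext x; exact Real.sq_sqrt (abs_nonneg _)
      have e2 : (mean fun x => (√|Dv e f x| * |h x|) ^ 2) = mean fun x => |Dv e f x| * h x ^ 2 := by
        congr 1; funext x
        rw [mul_pow, Real.sq_sqrt (abs_nonneg _), sq_abs]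
      rw [e1, e2] at h1
      refine le_trans ?_ h1
      have e3 : (mean fun x => √|Dv e f x| * (√|Dv e f x| * |h x|)) =
          mean fun x => |Dv e f x * h x| := by
        congr 1; funext x
        rw [← mul_assoc, Real.mul_self_sqrt (abs_nonneg _), abs_mul]
      rw [e3]
      refine pow_le_pow_left₀ hW0 ?_ 2
      rw [hD1]
      exact mean_mono fun x => le_abs_self _
    have hc2 : (mean fun x => |Dv e f x| * h x ^ 2) ≤ ε * (√(t:ℝ) * 3 ^ k * W) := by
      refine le_of_abs_le (abs_le_of_sq_le_sq ?_ ?_)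
      · refine (mean_mul_sq_le (fun x => |Dv e f x|) (fun x => h x ^ 2)).trans ?_
        have e1 : (mean fun x => |Dv e f x| ^ 2) = mean fun x => Dv e f x ^ 2 := by
          congr 1; funext x; exact sq_abs _
        have e2 : (mean fun x => (h x ^ 2) ^ 2) = mean fun x => h x ^ 4 := by
          congr 1; funext x; ring
        rw [e1, e2, mul_pow, mul_pow, mul_pow, Real.sq_sqrt (by positivity), ← pow_mul, mul_comm k 2,
          pow_mul]
        norm_num
        exact mul_le_mul (hinf e) h4 (mean_nonneg fun x => by positivity) (sq_nonneg _)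
      · positivity
    have hc3 : W ^ 2 ≤ (mean fun x => |Dv e f x|) * (ε * (√(t:ℝ) * 3 ^ k * W)) :=
      hc1.trans (mul_le_mul_of_nonneg_left hc2 hA0)
    rcases hW0.eq_or_lt with h0 | h0
    · rw [← h0]; positivity
    · have : W * W ≤ (√(t:ℝ) * 3 ^ k * ε * mean fun x => |Dv e f x|) * W := by
        calc W * W = W ^ 2 := (sq W).symm
          _ ≤ _ := hc3
          _ = _ := by ring
      exact le_of_mul_le_mul_right this h0
  have hsum : ∑ S ∈ 𝓢, coef f S ^ 2 ≤ ∑ e, ∑ S ∈ 𝓢.filter (fun S => e ∈ S), coef f S ^ 2 := by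
    have e1 : ∑ e, ∑ S ∈ 𝓢.filter (fun S => e ∈ S), coef f S ^ 2 =
        ∑ S ∈ 𝓢, (S.card : ℝ) * coef f S ^ 2 := by
      simp only [sum_filter]
      rw [sum_comm]
      refine sum_congr rfl fun S _ => ?_
      rw [← sum_filter, sum_const, nsmul_eq_mul]
      congr 2
      congr 1
      ext e
      simp
    rw [e1]
    refine sum_le_sum fun S hS => ?_
    have h1 : (1:ℝ) ≤ S.card := by exact_mod_cast card_pos.2 (hne S hS)
    have h2 := sq_nonneg (coef f S)
    nlinarith
  refine hsum.trans ((sum_le_sum fun e _ => hone e).trans ?_)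
  rw [← mul_sum, ← mean_sum]
  have h3 := mean_mono (f := fun x => ∑ e, |Dv e f x|) (g := fun _ => 2 * (d:ℝ) ^ 2)
    (sum_abs_Dv_le hb hdeg)
  rw [mean_const] at h3
  calc √(t:ℝ) * 3 ^ k * ε * (mean fun x => ∑ e, |Dv e f x|)
      ≤ √(t:ℝ) * 3 ^ k * ε * (2 * (d:ℝ) ^ 2) := mul_le_mul_of_nonneg_left h3 (by positivity)
    _ = _ := by ring

end Pool.Agent.L0h23.AA.Sym
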