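import Mathlib

/-!
# Quantum query algorithms with parallel queries: definitions

A point of the cube `{-1,1}^n` is coded by a function `Fin n → Bool`, with `true` for `-1`.
-/

set_option autoImplicit false

open Finset

namespace Pool.Agent.L0h23.AA

/-- The character `χ_S(x) = ∏_{i ∈ S} x_i`. -/
noncomputable def character {n : ℕ} (S : Finset (Fin n)) (x : Fin n → Bool) : ℝ :=
  ∏ i ∈ S, (-1 : ℝ) ^ (x i).toNat

/-- The variance of `f` for the uniform probability measure of the cube. -/
noncomputable def variance {n : ℕ} (f : (Fin n → Bool) → ℝ) : ℝ :=
  ((2:ℝ) ^ n)⁻¹ * ∑ x, f x ^ 2 - (((2:ℝ) ^ n)⁻¹ * ∑ x, f x) ^ 2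

/-- The influence of the coordinate `j` on `f`: the mean of `((f(x) - f(x^{(j)})) / 2)^2`. -/
noncomputable def influence {n : ℕ} (j : Fin n) (f : (Fin n → Bool) → ℝ) : ℝ :=
  ((2:ℝ) ^ n)⁻¹ * ∑ x, ((f x - f (Function.update x j (!x j))) / 2) ^ 2

/-- A quantum query algorithm on `n` input bits which makes at most `p` queries in parallel in every
round.  It works on the Hilbert space with orthonormal basis `State` (query registers and workspace).
The basis state `a` asks for the input bits in the set `query a`, of at most `p` elements. -/
structure QueryAlgorithm (n p : ℕ) where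
  /-- the basis states -/
  State : Type
  /-- there are finitely many basis states -/
  [fintype : Fintype State]
  /-- the set of the input bits asked for by a basis state -/
  query : State → Finset (Fin n)
  /-- at most `p` bits are asked for in one round -/
  card_query_le : ∀ a, (query a).card ≤ p
  /-- the unitary operators applied between the rounds of queries -/
  U : ℕ → (EuclideanSpace ℂ State ≃ₗᵢ[ℂ] EuclideanSpace ℂ State)
  /-- the initial state -/
  start : EuclideanSpace ℂ State
  /-- the initial state is a unit vector -/
  norm_start : ‖start‖ = 1
  /-- the accepting basis states -/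
  accept : Finset State

attribute [instance] QueryAlgorithm.fintype

namespace QueryAlgorithm

variable {n p : ℕ} (A : QueryAlgorithm n p)

/-- One round of parallel queries: the basis state `a` is multiplied by `∏_{i ∈ query a} x_i`. -/
noncomputable def oracle (x : Fin n → Bool) (v : EuclideanSpace ℂ A.State) :
    EuclideanSpace ℂ A.State :=
  WithLp.toLp 2 fun a => (character (A.query a) x : ℂ) * v a

/-- The state after `t` rounds of queries: `U_t O_x U_{t-1} O_x ... U_1 O_x U_0 start`. -/
noncomputable def state (x : Fin n → Bool) : ℕ → EuclideanSpace ℂ A.State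
  | 0 => A.U 0 A.start
  | t + 1 => A.U (t + 1) (A.oracle x (state x t))

/-- The probability that the algorithm accepts the input `x` after `r` rounds of queries. -/
noncomputable def acceptance (r : ℕ) (x : Fin n → Bool) : ℝ :=
  ∑ a ∈ A.accept, ‖A.state x r a‖ ^ 2

end QueryAlgorithm

end Pool.Agent.L0h23.AA
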