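import Mathlib

/-!
# Perturbation of a query algorithm: the effect of flipping one input bit
-/

set_option autoImplicit false
set_option linter.unusedSectionVars false

open Finset
open scoped InnerProductSpace

namespace Pool.Agent.L0h23.AA

variable {ι : Type} [Fintype ι]

/-- diagonal operators -/
noncomputable def dgL (d : ι → ℂ) : EuclideanSpace ℂ ι →ₗ[ℂ] EuclideanSpace ℂ ι where
  toFun v := WithLp.toLp 2 (fun a => d a * v a)
  map_add' v w := by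
    ext a
    simp [mul_add]
  map_smul' c v := by
    ext a
    simp [mul_left_comm]

/-- diagonal operators -/
noncomputable def dg (d : ι → ℂ) : EuclideanSpace ℂ ι →L[ℂ] EuclideanSpace ℂ ι :=
  LinearMap.toContinuousLinearMap (dgL d)

theorem dg_apply (d : ι → ℂ) (v : EuclideanSpace ℂ ι) (a : ι) : dg d v a = d a * v a := rfl

theorem norm_sq_eq (v : EuclideanSpace ℂ ι) : ‖v‖ ^ 2 = ∑ a, ‖v a‖ ^ 2 :=
  EuclideanSpace.norm_sq_eq v

theorem norm_dg_le (d : ι → ℂ) (hd : ∀ a, ‖d a‖ ≤ 1) (v : EuclideanSpace ℂ ι) :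
    ‖dg d v‖ ≤ ‖v‖ := by
  have h : ‖dg d v‖ ^ 2 ≤ ‖v‖ ^ 2 := by
    rw [norm_sq_eq, norm_sq_eq]
    refine sum_le_sum fun a _ => ?_
    rw [dg_apply, norm_mul, mul_pow]
    have h1 : ‖d a‖ ^ 2 ≤ 1 := pow_le_one₀ (norm_nonneg _) (hd a)
    have h2 : 0 ≤ ‖v a‖ ^ 2 := by positivity
    nlinarith
  exact (pow_le_pow_iff_left₀ (norm_nonneg _) (norm_nonneg _) two_ne_zero).1 h

/-- the weight of `v` on the basis states in `B` -/
noncomputable def wt (B : Finset ι) (v : EuclideanSpace ℂ ι) : ℝ := ∑ a ∈ B, ‖v a‖ ^ 2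

open Classical in
/-- the projection to the basis states in `B` -/
noncomputable def PB (B : Finset ι) : EuclideanSpace ℂ ι →L[ℂ] EuclideanSpace ℂ ι :=
  dg (fun a => if a ∈ B then 1 else 0)

open Classical in
theorem PB_apply (B : Finset ι) (v : EuclideanSpace ℂ ι) (a : ι) :
    PB B v a = if a ∈ B then v a else 0 := by
  unfold PB
  rw [dg_apply]
  split_ifs <;> simp

theorem norm_PB_sq (B : Finset ι) (v : EuclideanSpace ℂ ι) : ‖PB B v‖ ^ 2 = wt B v := by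
  classical
  rw [norm_sq_eq, wt, ← sum_filter_add_sum_filter_not univ (fun a => a ∈ B)]
  have h1 : ∑ a ∈ univ.filter (fun a => ¬ a ∈ B), ‖PB B v a‖ ^ 2 = 0 := by
    refine sum_eq_zero fun a ha => ?_
    rw [PB_apply, if_neg (mem_filter.1 ha).2]
    simp
  rw [h1, add_zero]
  have h2 : univ.filter (fun a => a ∈ B) = B := by ext a; simp
  rw [h2]
  refine sum_congr rfl fun a ha => ?_
  rw [PB_apply, if_pos ha]

theorem norm_PB_le (B : Finset ι) (v : EuclideanSpace ℂ ι) : ‖PB B v‖ ≤ ‖v‖ := by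
  classical
  refine norm_dg_le _ (fun a => ?_) v
  split_ifs <;> simp

theorem norm_refl_le (B : Finset ι) (v : EuclideanSpace ℂ ι) :
    ‖v - (2:ℂ) • PB B v‖ ≤ ‖v‖ := by
  classical
  have h : v - (2:ℂ) • PB B v = dg (fun a => if a ∈ B then -1 else 1) v := by
    ext a
    rw [dg_apply]
    simp only [PiLp.sub_apply, PiLp.smul_apply, smul_eq_mul]
    rw [PB_apply]
    split_ifs
    · ring
    · ring
  rw [h]
  refine norm_dg_le _ (fun a => ?_) v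
  split_ifs <;> simp

theorem inner_eq_sum (v w : EuclideanSpace ℂ ι) :
    ⟪v, w⟫_ℂ = ∑ a, w a * (starRingEnd ℂ) (v a) := by
  rw [EuclideanSpace.inner_eq_star_dotProduct]
  rfl

theorem inner_PB (B : Finset ι) (v w : EuclideanSpace ℂ ι) :
    ⟪v, PB B w⟫_ℂ = ⟪PB B v, PB B w⟫_ℂ := by
  classical
  rw [inner_eq_sum, inner_eq_sum]
  refine sum_congr rfl fun a _ => ?_
  rw [PB_apply, PB_apply]
  split_ifs <;> simp

theorem wt_nonneg (B : Finset ι) (v : EuclideanSpace ℂ ι) : 0 ≤ wt B v :=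
  sum_nonneg fun _ _ => by positivity

theorem wt_le (B : Finset ι) (v : EuclideanSpace ℂ ι) : wt B v ≤ ‖v‖ ^ 2 := by
  rw [norm_sq_eq]
  exact sum_le_sum_of_subset_of_nonneg (subset_univ B) (fun _ _ _ => by positivity)

theorem sum_wt_le [DecidableEq ι] {κ : Type} (J : Finset κ) (C : κ → Finset ι) (L : ℕ) (hC : ∀ a, (J.filter
    (fun j => a ∈ C j)).card ≤ L) (v : EuclideanSpace ℂ ι) :
    ∑ j ∈ J, wt (C j) v ≤ L * ‖v‖ ^ 2 := by
  have h : ∑ j ∈ J, wt (C j) v = ∑ a, ((J.filter (fun j => a ∈ C j)).card : ℝ) * ‖v a‖ ^ 2 := by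
    unfold wt
    have h1 : ∀ j ∈ J, ∑ a ∈ C j, ‖v a‖ ^ 2 = ∑ a, if a ∈ C j then ‖v a‖ ^ 2 else 0 := by
      intro j _
      rw [← sum_filter]
      congr 1
      ext a; simp
    rw [sum_congr rfl h1, sum_comm]
    refine sum_congr rfl fun a _ => ?_
    rw [← sum_filter, sum_const, nsmul_eq_mul]
  rw [h, norm_sq_eq, mul_sum]
  refine sum_le_sum fun a _ => ?_
  have : ((J.filter (fun j => a ∈ C j)).card : ℝ) ≤ L := by exact_mod_cast hC a
  exact mul_le_mul_of_nonneg_right this (by positivity)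

theorem wt_sub (B : Finset ι) (u Δ : EuclideanSpace ℂ ι) :
    wt B u - wt B (u - Δ) = 2 * (⟪PB B u, Δ⟫_ℂ).re - wt B Δ := by
  classical
  have h : (⟪PB B u, Δ⟫_ℂ).re = ∑ a ∈ B, (Δ a * (starRingEnd ℂ) (u a)).re := by
    rw [inner_eq_sum, Complex.re_sum, ← sum_filter_add_sum_filter_not univ (fun a => a ∈ B)]
    have h1 : ∑ a ∈ univ.filter (fun a => ¬ a ∈ B),
        (Δ a * (starRingEnd ℂ) (PB B u a)).re = 0 := by
      refine sum_eq_zero fun a ha => ?_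
      rw [PB_apply, if_neg (mem_filter.1 ha).2]
      simp
    rw [h1, add_zero]
    have h2 : univ.filter (fun a => a ∈ B) = B := by ext a; simp
    rw [h2]
    refine sum_congr rfl fun a ha => ?_
    rw [PB_apply, if_pos ha]
  rw [h]
  unfold wt
  rw [mul_sum, ← sum_sub_distrib, ← sum_sub_distrib]
  refine sum_congr rfl fun a _ => ?_
  have e1 : (u - Δ) a = u a - Δ a := rfl
  rw [e1, ← Complex.normSq_eq_norm_sq, ← Complex.normSq_eq_norm_sq, ← Complex.normSq_eq_norm_sq,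
    Complex.normSq_apply, Complex.normSq_apply, Complex.normSq_apply]
  simp only [Complex.sub_re, Complex.sub_im, Complex.mul_re, Complex.conj_re, Complex.conj_im]
  ring

section Pert

variable [DecidableEq ι] {κ : Type} (J : Finset κ) (B : κ → Finset ι) (p : ℕ)
  (hB : ∀ a, (J.filter (fun j => a ∈ B j)).card ≤ p)
  (V : ℕ → EuclideanSpace ℂ ι →L[ℂ] EuclideanSpace ℂ ι) (hV : ∀ t v, ‖V t v‖ ≤ ‖v‖)
  (u : ℕ → EuclideanSpace ℂ ι) (u' : κ → ℕ → EuclideanSpace ℂ ι)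
  (hu : ∀ t, u (t + 1) = V t (u t))
  (hu' : ∀ j t, u' j (t + 1) = V t (u' j t - (2:ℂ) • PB (B j) (u' j t)))
  (h0 : ∀ j, u' j 0 = u 0) (hn : ‖u 0‖ ≤ 1)

include hV hu hn in
theorem norm_u_le (t : ℕ) : ‖u t‖ ≤ 1 := by
  induction t with
  | zero => exact hn
  | succ t ih => rw [hu]; exact (hV t _).trans ih

include hV hu hu' h0 in
theorem norm_diff_le (j : κ) (t : ℕ) :
    ‖u t - u' j t‖ ≤ 2 * ∑ s ∈ range t, ‖PB (B j) (u s)‖ := by
  induction t with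
  | zero => simp [h0]
  | succ t ih =>
    have h : u (t + 1) - u' j (t + 1) =
        V t (((u t - u' j t) - (2:ℂ) • PB (B j) (u t - u' j t)) + (2:ℂ) • PB (B j) (u t)) := by
      rw [hu, hu', ← map_sub]
      congr 1
      rw [map_sub, smul_sub]
      abel
    rw [h, sum_range_succ, mul_add]
    refine (hV t _).trans ((norm_add_le _ _).trans ?_)
    refine add_le_add ((norm_refl_le _ _).trans ih) ?_
    rw [norm_smul]
    simp

include hV hu hu' h0 in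
theorem exists_back (T : ℕ) : ∀ w : EuclideanSpace ℂ ι, ∃ ω : ℕ → EuclideanSpace ℂ ι,
    (∀ t, ‖ω t‖ ≤ ‖w‖) ∧ ∀ j, ‖⟪w, u T - u' j T⟫_ℂ‖ ≤
      2 * ∑ t ∈ range T, ‖PB (B j) (u' j t)‖ * ‖PB (B j) (ω t)‖ := by
  induction T with
  | zero =>
    intro w
    refine ⟨fun _ => w, fun _ => le_rfl, fun j => ?_⟩
    simp [h0]
  | succ T ih =>
    intro w
    have hadj : ‖ContinuousLinearMap.adjoint (V T) w‖ ≤ ‖w‖ := by
      have h1 : ‖V T‖ ≤ 1 := ContinuousLinearMap.opNorm_le_bound _ zero_le_one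
        (fun v => by rw [one_mul]; exact hV T v)
      have h2 : ‖ContinuousLinearMap.adjoint (V T)‖ ≤ 1 := by
        rw [LinearIsometryEquiv.norm_map]; exact h1
      calc ‖ContinuousLinearMap.adjoint (V T) w‖
          ≤ ‖ContinuousLinearMap.adjoint (V T)‖ * ‖w‖ := ContinuousLinearMap.le_opNorm _ _
        _ ≤ 1 * ‖w‖ := mul_le_mul_of_nonneg_right h2 (norm_nonneg _)
        _ = ‖w‖ := one_mul _
    obtain ⟨ω, hω1, hω2⟩ := ih (ContinuousLinearMap.adjoint (V T) w)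
    refine ⟨fun t => if t = T then ContinuousLinearMap.adjoint (V T) w else ω t, fun t => ?_,
      fun j => ?_⟩
    · dsimp only
      split_ifs
      · exact hadj
      · exact (hω1 t).trans hadj
    · have h : u (T + 1) - u' j (T + 1) =
          V T ((u T - u' j T) + (2:ℂ) • PB (B j) (u' j T)) := by
        rw [hu, hu', ← map_sub]
        congr 1
        abel
      rw [h, ← ContinuousLinearMap.adjoint_inner_left, inner_add_right, inner_smul_right,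
        sum_range_succ, mul_add]
      refine (norm_add_le _ _).trans (add_le_add ?_ ?_)
      · refine (hω2 j).trans (le_of_eq ?_)
        congr 1
        refine sum_congr rfl fun t ht => ?_
        dsimp only
        rw [if_neg (mem_range.1 ht).ne]
      · dsimp only
        rw [if_pos rfl, norm_mul, inner_PB]
        have h3 : ‖(2:ℂ)‖ = 2 := by simp
        rw [h3]
        refine mul_le_mul_of_nonneg_left ?_ (by norm_num)
        refine (norm_inner_le_norm _ _).trans (le_of_eq (mul_comm _ _))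

variable {T : ℕ} {β : ℝ} (hβ0 : 0 ≤ β) (hβ : ∀ t, t < T → ∀ j ∈ J, wt (B j) (u t) ≤ β)

include hV hu hu' h0 hβ hβ0 in
theorem norm_Qu'_sq_le (j : κ) (hj : j ∈ J) (t : ℕ) (ht : t < T) :
    ‖PB (B j) (u' j t)‖ ^ 2 ≤ (2 * T) ^ 2 * β := by
  have h1 : ∀ s, s < T → ‖PB (B j) (u s)‖ ≤ √β := by
    intro s hs
    apply Real.le_sqrt_of_sq_le
    rw [norm_PB_sq]
    exact hβ s hs j hj
  have h2 := norm_diff_le B V hV u u' hu hu' h0 j t
  have h3 : ∑ s ∈ range t, ‖PB (B j) (u s)‖ ≤ t * √β := by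
    calc ∑ s ∈ range t, ‖PB (B j) (u s)‖ ≤ ∑ s ∈ range t, √β :=
          sum_le_sum fun s hs => h1 s ((mem_range.1 hs).trans ht)
      _ = t * √β := by rw [sum_const, card_range, nsmul_eq_mul]
  have h4 : ‖PB (B j) (u' j t)‖ ≤ 2 * T * √β := by
    have h5 : PB (B j) (u' j t) = PB (B j) (u t) - PB (B j) (u t - u' j t) := by
      rw [map_sub]; abel
    rw [h5]
    refine (norm_sub_le _ _).trans ?_
    have h6 := norm_PB_le (B j) (u t - u' j t)
    have h7 := h1 t ht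
    have h8 : (t:ℝ) + 1 ≤ T := by exact_mod_cast ht
    have h9 : 0 ≤ √β := Real.sqrt_nonneg _
    nlinarith
  calc ‖PB (B j) (u' j t)‖ ^ 2 ≤ (2 * T * √β) ^ 2 :=
        pow_le_pow_left₀ (norm_nonneg _) h4 2
    _ = (2 * T) ^ 2 * β := by rw [mul_pow, Real.sq_sqrt hβ0]

include hB in
theorem sum_PB_sq_le (v : EuclideanSpace ℂ ι) : ∑ j ∈ J, ‖PB (B j) v‖ ^ 2 ≤ p * ‖v‖ ^ 2 := by
  simp only [norm_PB_sq]
  exact sum_wt_le J B p hB v

include hB hV hu hu' h0 hβ hβ0 in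
theorem sum_inner_sq_le (w : EuclideanSpace ℂ ι) :
    ∑ j ∈ J, ‖⟪w, u T - u' j T⟫_ℂ‖ ^ 2 ≤ 16 * T ^ 4 * p * β * ‖w‖ ^ 2 := by
  obtain ⟨ω, hω1, hω2⟩ := exists_back B V hV u u' hu hu' h0 T w
  have h1 : ∀ j ∈ J, ‖⟪w, u T - u' j T⟫_ℂ‖ ^ 2 ≤
      4 * (T * ∑ t ∈ range T, (2 * T) ^ 2 * β * ‖PB (B j) (ω t)‖ ^ 2) := by
    intro j hj
    calc ‖⟪w, u T - u' j T⟫_ℂ‖ ^ 2
        ≤ (2 * ∑ t ∈ range T, ‖PB (B j) (u' j t)‖ * ‖PB (B j) (ω t)‖) ^ 2 :=
          pow_le_pow_left₀ (norm_nonneg _) (hω2 j) 2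
      _ = 4 * (∑ t ∈ range T, ‖PB (B j) (u' j t)‖ * ‖PB (B j) (ω t)‖) ^ 2 := by ring
      _ ≤ 4 * (T * ∑ t ∈ range T, (‖PB (B j) (u' j t)‖ * ‖PB (B j) (ω t)‖) ^ 2) := by
          refine mul_le_mul_of_nonneg_left ?_ (by norm_num)
          have := sq_sum_le_card_mul_sum_sq (s := range T)
            (f := fun t => ‖PB (B j) (u' j t)‖ * ‖PB (B j) (ω t)‖)
          rwa [card_range] at this
      _ ≤ 4 * (T * ∑ t ∈ range T, (2 * T) ^ 2 * β * ‖PB (B j) (ω t)‖ ^ 2) := by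
          refine mul_le_mul_of_nonneg_left (mul_le_mul_of_nonneg_left
            (sum_le_sum fun t ht => ?_) (by positivity)) (by norm_num)
          rw [mul_pow]
          exact mul_le_mul_of_nonneg_right (norm_Qu'_sq_le J B V hV u u' hu hu' h0 hβ0 hβ j hj t
            (mem_range.1 ht)) (by positivity)
  refine (sum_le_sum h1).trans ?_
  rw [← mul_sum, ← mul_sum, sum_comm]
  have h2 : ∀ t ∈ range T, ∑ j ∈ J, (2 * (T:ℝ)) ^ 2 * β * ‖PB (B j) (ω t)‖ ^ 2 ≤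
      (2 * (T:ℝ)) ^ 2 * β * (p * ‖w‖ ^ 2) := by
    intro t _
    rw [← mul_sum]
    refine mul_le_mul_of_nonneg_left ?_ (by positivity)
    refine (sum_PB_sq_le J B p hB (ω t)).trans ?_
    exact mul_le_mul_of_nonneg_left (pow_le_pow_left₀ (norm_nonneg _) (hω1 t) 2) (by positivity)
  have h3 := sum_le_sum h2
  rw [sum_const, card_range, nsmul_eq_mul] at h3
  calc 4 * ((T:ℝ) * ∑ t ∈ range T, ∑ j ∈ J, (2 * (T:ℝ)) ^ 2 * β * ‖PB (B j) (ω t)‖ ^ 2)
      ≤ 4 * ((T:ℝ) * ((T:ℝ) * ((2 * (T:ℝ)) ^ 2 * β * (p * ‖w‖ ^ 2)))) := by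
        refine mul_le_mul_of_nonneg_left (mul_le_mul_of_nonneg_left h3 (by positivity))
          (by norm_num)
    _ = _ := by ring

include hB hV hu hu' h0 hβ hβ0 hn in
theorem sum_norm_pow_le :
    ∑ j ∈ J, (‖u T - u' j T‖ ^ 2) ^ 2 ≤ 16 * T ^ 4 * p * β := by
  have hun := norm_u_le V hV u hu hn
  have h1 : ∀ j ∈ J, ‖u T - u' j T‖ ^ 2 ≤ 4 * (T * ∑ s ∈ range T, ‖PB (B j) (u s)‖ ^ 2) := by
    intro j _
    calc ‖u T - u' j T‖ ^ 2 ≤ (2 * ∑ s ∈ range T, ‖PB (B j) (u s)‖) ^ 2 :=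
          pow_le_pow_left₀ (norm_nonneg _) (norm_diff_le B V hV u u' hu hu' h0 j T) 2
      _ = 4 * (∑ s ∈ range T, ‖PB (B j) (u s)‖) ^ 2 := by ring
      _ ≤ _ := by
          refine mul_le_mul_of_nonneg_left ?_ (by norm_num)
          have := sq_sum_le_card_mul_sum_sq (s := range T)
            (f := fun s => ‖PB (B j) (u s)‖)
          rwa [card_range] at this
  have h2 : ∀ j ∈ J, ‖u T - u' j T‖ ^ 2 ≤ 4 * (T * (T * β)) := by
    intro j hj
    refine (h1 j hj).trans ?_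
    refine mul_le_mul_of_nonneg_left (mul_le_mul_of_nonneg_left ?_ (by positivity)) (by norm_num)
    calc ∑ s ∈ range T, ‖PB (B j) (u s)‖ ^ 2 ≤ ∑ s ∈ range T, β := by
          refine sum_le_sum fun s hs => ?_
          rw [norm_PB_sq]
          exact hβ s (mem_range.1 hs) j hj
      _ = T * β := by rw [sum_const, card_range, nsmul_eq_mul]
  have h3 : ∀ j ∈ J, (‖u T - u' j T‖ ^ 2) ^ 2 ≤
      4 * (T * (T * β)) * (4 * (T * ∑ s ∈ range T, ‖PB (B j) (u s)‖ ^ 2)) := by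
    intro j hj
    rw [sq]
    exact mul_le_mul (h2 j hj) (h1 j hj) (by positivity) (by positivity)
  refine (sum_le_sum h3).trans ?_
  rw [← mul_sum, ← mul_sum, ← mul_sum, sum_comm]
  have h4 : ∑ s ∈ range T, ∑ j ∈ J, ‖PB (B j) (u s)‖ ^ 2 ≤ T * p := by
    calc ∑ s ∈ range T, ∑ j ∈ J, ‖PB (B j) (u s)‖ ^ 2 ≤ ∑ s ∈ range T, (p:ℝ) := by
          refine sum_le_sum fun s _ => (sum_PB_sq_le J B p hB (u s)).trans ?_
          have := pow_le_one₀ (n := 2) (norm_nonneg _) (hun s)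
          have hp : (0:ℝ) ≤ p := by positivity
          nlinarith
      _ = T * p := by rw [sum_const, card_range, nsmul_eq_mul]
  calc 4 * ((T:ℝ) * (T * β)) * (4 * (T * ∑ s ∈ range T, ∑ j ∈ J, ‖PB (B j) (u s)‖ ^ 2))
      ≤ 4 * ((T:ℝ) * (T * β)) * (4 * (T * (T * p))) := by
        refine mul_le_mul_of_nonneg_left (mul_le_mul_of_nonneg_left
          (mul_le_mul_of_nonneg_left h4 (by positivity)) (by norm_num)) (by positivity)
    _ = _ := by ring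

include hB hV hu hu' h0 hβ hβ0 hn in
/-- **Main perturbation bound.** -/
theorem pert {μ : Type} (I : Finset μ) (C : μ → Finset ι) (L : ℕ)
    (hC : ∀ a, (I.filter (fun i => a ∈ C i)).card ≤ L) :
    ∑ i ∈ I, ∑ j ∈ J, (wt (C i) (u T) - wt (C i) (u' j T)) ^ 2 ≤ 160 * T ^ 4 * p * L * β := by
  have hun := norm_u_le V hV u hu hn
  have h1 : ∀ i ∈ I, ∀ j ∈ J, (wt (C i) (u T) - wt (C i) (u' j T)) ^ 2 ≤
      8 * ‖⟪PB (C i) (u T), u T - u' j T⟫_ℂ‖ ^ 2 +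
        2 * (‖u T - u' j T‖ ^ 2 * wt (C i) (u T - u' j T)) := by
    intro i _ j _
    have e : u' j T = u T - (u T - u' j T) := by abel
    have e2 : wt (C i) (u T) - wt (C i) (u' j T) =
        2 * (⟪PB (C i) (u T), u T - u' j T⟫_ℂ).re - wt (C i) (u T - u' j T) := by
      conv_lhs => rw [e]
      exact wt_sub _ _ _
    rw [e2]
    have h2 : |(⟪PB (C i) (u T), u T - u' j T⟫_ℂ).re| ≤ ‖⟪PB (C i) (u T), u T - u' j T⟫_ℂ‖ :=
      Complex.abs_re_le_norm _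
    have h3 : (⟪PB (C i) (u T), u T - u' j T⟫_ℂ).re ^ 2 ≤
        ‖⟪PB (C i) (u T), u T - u' j T⟫_ℂ‖ ^ 2 := by
      rw [← sq_abs]
      exact pow_le_pow_left₀ (abs_nonneg _) h2 2
    have h4 : wt (C i) (u T - u' j T) ^ 2 ≤ ‖u T - u' j T‖ ^ 2 * wt (C i) (u T - u' j T) := by
      rw [sq (wt _ _)]
      exact mul_le_mul_of_nonneg_right (wt_le _ _) (wt_nonneg _ _)
    nlinarith [sq_nonneg (2 * (⟪PB (C i) (u T), u T - u' j T⟫_ℂ).re + wt (C i) (u T - u' j T))]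
  have h5 : ∑ i ∈ I, ∑ j ∈ J, (wt (C i) (u T) - wt (C i) (u' j T)) ^ 2 ≤
      8 * ∑ i ∈ I, ∑ j ∈ J, ‖⟪PB (C i) (u T), u T - u' j T⟫_ℂ‖ ^ 2 +
        2 * ∑ j ∈ J, ‖u T - u' j T‖ ^ 2 * ∑ i ∈ I, wt (C i) (u T - u' j T) := by
    calc ∑ i ∈ I, ∑ j ∈ J, (wt (C i) (u T) - wt (C i) (u' j T)) ^ 2
        ≤ ∑ i ∈ I, ∑ j ∈ J, (8 * ‖⟪PB (C i) (u T), u T - u' j T⟫_ℂ‖ ^ 2 +
        2 * (‖u T - u' j T‖ ^ 2 * wt (C i) (u T - u' j T))) :=
          sum_le_sum fun i hi => sum_le_sum fun j hj => h1 i hi j hj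
      _ = _ := by
        have e3 : ∀ i ∈ I, ∑ j ∈ J, (8 * ‖⟪PB (C i) (u T), u T - u' j T⟫_ℂ‖ ^ 2 +
            2 * (‖u T - u' j T‖ ^ 2 * wt (C i) (u T - u' j T))) =
            8 * ∑ j ∈ J, ‖⟪PB (C i) (u T), u T - u' j T⟫_ℂ‖ ^ 2 +
            2 * ∑ j ∈ J, ‖u T - u' j T‖ ^ 2 * wt (C i) (u T - u' j T) := by
          intro i _
          rw [sum_add_distrib, ← mul_sum, ← mul_sum]
        rw [sum_congr rfl e3, sum_add_distrib, ← mul_sum, ← mul_sum]
        congr 2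
        rw [sum_comm]
        refine sum_congr rfl fun j _ => ?_
        rw [mul_sum]
  refine h5.trans ?_
  have h6 : ∑ i ∈ I, ∑ j ∈ J, ‖⟪PB (C i) (u T), u T - u' j T⟫_ℂ‖ ^ 2 ≤
      16 * T ^ 4 * p * β * L := by
    calc ∑ i ∈ I, ∑ j ∈ J, ‖⟪PB (C i) (u T), u T - u' j T⟫_ℂ‖ ^ 2
        ≤ ∑ i ∈ I, 16 * T ^ 4 * p * β * ‖PB (C i) (u T)‖ ^ 2 :=
          sum_le_sum fun i _ => sum_inner_sq_le J B p hB V hV u u' hu hu' h0 hβ0 hβ _
      _ = 16 * T ^ 4 * p * β * ∑ i ∈ I, wt (C i) (u T) := by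
          rw [← mul_sum]
          simp only [norm_PB_sq]
      _ ≤ 16 * T ^ 4 * p * β * (L * ‖u T‖ ^ 2) :=
          mul_le_mul_of_nonneg_left (sum_wt_le I C L hC _) (by positivity)
      _ ≤ 16 * T ^ 4 * p * β * (L * 1) := by
          refine mul_le_mul_of_nonneg_left (mul_le_mul_of_nonneg_left
            (pow_le_one₀ (norm_nonneg _) (hun T)) (by positivity)) (by positivity)
      _ = _ := by ring
  have h7 : ∑ j ∈ J, ‖u T - u' j T‖ ^ 2 * ∑ i ∈ I, wt (C i) (u T - u' j T) ≤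
      L * (16 * T ^ 4 * p * β) := by
    calc ∑ j ∈ J, ‖u T - u' j T‖ ^ 2 * ∑ i ∈ I, wt (C i) (u T - u' j T)
        ≤ ∑ j ∈ J, ‖u T - u' j T‖ ^ 2 * (L * ‖u T - u' j T‖ ^ 2) :=
          sum_le_sum fun j _ => mul_le_mul_of_nonneg_left (sum_wt_le I C L hC _) (by positivity)
      _ = L * ∑ j ∈ J, (‖u T - u' j T‖ ^ 2) ^ 2 := by
          rw [mul_sum]
          refine sum_congr rfl fun j _ => ?_
          ring
      _ ≤ _ := mul_le_mul_of_nonneg_left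
          (sum_norm_pow_le J B p hB V hV u u' hu hu' h0 hn hβ0 hβ) (by positivity)
  calc 8 * ∑ i ∈ I, ∑ j ∈ J, ‖⟪PB (C i) (u T), u T - u' j T⟫_ℂ‖ ^ 2 +
        2 * ∑ j ∈ J, ‖u T - u' j T‖ ^ 2 * ∑ i ∈ I, wt (C i) (u T - u' j T)
      ≤ 8 * (16 * T ^ 4 * p * β * L) + 2 * (L * (16 * T ^ 4 * p * β)) := by linarith
    _ = _ := by ring

end Pert

end Pool.Agent.L0h23.AA
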