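import Pool.Agent.L0h23.AA.Basic

/-!
# Greedy adaptive queries, without trees

`Tree.main`: from a family of nonnegative functions `P t j` one gets the conditional expectation `g` of `f`
at the leaves of the greedy decision tree which queries a coordinate `j` as long as some `P t j` has conditional
mean at least `δ`, together with the OSSS inequality for `g`.
-/

set_option autoImplicit false

open Finset

namespace Pool.Agent.L0h23.AA

variable {n : ℕ}

theorem Av_eq_update (j : Fin n) (h : X n → ℝ) (x : X n) :
    Av j h x = (h (Function.update x j false) + h (Function.update x j true)) / 2 := by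
  unfold Av flip
  cases hx : x j with
  | false =>
    have : Function.update x j false = x := by
      rw [← hx]; exact Function.update_eq_self j x
    rw [this]
    simp only [Bool.not_false]
  | true =>
    have : Function.update x j true = x := by
      rw [← hx]; exact Function.update_eq_self j x
    rw [this]
    simp only [Bool.not_true]
    ring

theorem abs_D_eq_update (j : Fin n) (h : X n → ℝ) (x : X n) :
    |D j h x| = |(h (Function.update x j false) - h (Function.update x j true)) / 2| := by
  unfold D flip
  cases hx : x j with
  | false =>
    have : Function.update x j false = x := by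
      rw [← hx]; exact Function.update_eq_self j x
    rw [this]
    simp only [Bool.not_false]
  | true =>
    have : Function.update x j true = x := by
      rw [← hx]; exact Function.update_eq_self j x
    rw [this]
    simp only [Bool.not_true]
    rw [← abs_neg]
    congr 1
    ring

/-- the potential -/
noncomputable def N (r : ℕ) (P : ℕ → Fin n → X n → ℝ) (A : Finset (Fin n)) (y : X n) : ℝ :=
  ∑ t ∈ range r, ∑ j ∈ Aᶜ, E fun x => P t j (ov A y x)

theorem N_nonneg (r : ℕ) (P : ℕ → Fin n → X n → ℝ) (hP : ∀ t j x, 0 ≤ P t j x)
    (A : Finset (Fin n)) (y : X n) : 0 ≤ N r P A y :=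
  sum_nonneg fun _ _ => sum_nonneg fun _ _ => E_nonneg fun _ => hP _ _ _

theorem N_step (r : ℕ) (P : ℕ → Fin n → X n → ℝ) (hP : ∀ t j x, 0 ≤ P t j x)
    (A : Finset (Fin n)) (y : X n) (j : Fin n) (hj : j ∉ A) (t : ℕ) (ht : t < r) (δ : ℝ)
    (hδ : δ ≤ E fun x => P t j (ov A y x)) :
    (N r P (insert j A) (Function.update y j false) + N r P (insert j A) (Function.update y j true)) / 2
      ≤ N r P A y - δ := by
  have h1 : Aᶜ = insert j (insert j A)ᶜ := by
    ext i
    simp only [mem_compl, mem_insert]
    by_cases h : i = j
    · subst h; simp [hj]
    · simp [h]
  have h2 : j ∉ (insert j A)ᶜ := by simp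
  have h3 : N r P A y = (∑ t ∈ range r, E fun x => P t j (ov A y x)) +
      (N r P (insert j A) (Function.update y j false) +
        N r P (insert j A) (Function.update y j true)) / 2 := by
    unfold N
    rw [h1]
    have e1 : ∀ t ∈ range r, (∑ i ∈ insert j (insert j A)ᶜ, E fun x => P t i (ov A y x)) =
        (E fun x => P t j (ov A y x)) + ∑ i ∈ (insert j A)ᶜ,
          ((E fun x => P t i (ov (insert j A) (Function.update y j false) x)) +
          (E fun x => P t i (ov (insert j A) (Function.update y j true) x))) / 2 := by
      intro t _
      rw [sum_insert h2]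
      congr 1
      refine sum_congr rfl fun i _ => ?_
      exact E_ov_insert hj y (P t i)
    rw [sum_congr rfl e1, sum_add_distrib]
    congr 1
    rw [← sum_add_distrib, sum_div]
    refine sum_congr rfl fun t _ => ?_
    rw [← sum_add_distrib, sum_div]
  have h4 : (E fun x => P t j (ov A y x)) ≤ ∑ t ∈ range r, E fun x => P t j (ov A y x) :=
    single_le_sum (f := fun t => E fun x => P t j (ov A y x))
      (fun t _ => E_nonneg fun _ => hP _ _ _) (mem_range.2 ht)
  linarith

theorem Tree.main (r : ℕ) (P : ℕ → Fin n → X n → ℝ) (hP : ∀ t j x, 0 ≤ P t j x)
    (δ : ℝ) (hδ : 0 < δ) (f : X n → ℝ) (hf : ∀ x, |f x| ≤ 1) (w : ℝ)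
    (hleaf : ∀ (A : Finset (Fin n)) (y : X n),
      (∀ t, t < r → ∀ j, j ∉ A → (E fun x => P t j (ov A y x)) < δ) →
      (E fun x => f (ov A y x) ^ 2) - (E fun x => f (ov A y x)) ^ 2 ≤ w) :
    ∀ (k : ℕ) (A : Finset (Fin n)), (Aᶜ).card = k → ∀ y : X n, ∃ g : X n → ℝ,
      (∀ x, |g x| ≤ 1) ∧
      (∀ x x' : X n, (∀ i, i ∉ A → x i = x' i) → g x = g x') ∧
      (E g = E fun x => f (ov A y x)) ∧
      ((E fun x => g x * f (ov A y x)) = E fun x => g x ^ 2) ∧
      ((E fun x => f (ov A y x) ^ 2) - (E fun x => g x ^ 2) ≤ w) ∧
      ∀ (h : X n → ℝ) (ε : ℝ), 0 ≤ ε → (∀ j, j ∉ A → (E fun x => |D j h x|) ≤ ε) →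
        (E fun x => g x * h x) - E g * E h ≤ ε * (N r P A y / δ) := by
  intro k
  induction k with
  | zero =>
    intro A hA y
    have hA' : ∀ j, j ∈ A := by
      intro j
      by_contra hj
      have : j ∈ Aᶜ := mem_compl.2 hj
      rw [card_eq_zero.1 hA] at this
      simp at this
    refine ⟨fun _ => E fun x => f (ov A y x), ?_, ?_, ?_, ?_, ?_, ?_⟩
    · intro _
      refine (abs_E_le _).trans ?_
      have := E_mono (f := fun x : X n => |f (ov A y x)|) (g := fun _ => 1) (fun x => hf _)
      rwa [E_const] at this
    · intro _ _ _; rfl
    · rw [E_const]
    · rw [E_smul, E_const]; ring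
    · rw [E_const]
      exact hleaf A y fun t _ j hj => absurd (hA' j) hj
    · intro h ε hε _
      rw [E_smul, E_const, sub_self]
      exact mul_nonneg hε (div_nonneg (N_nonneg r P hP A y) hδ.le)
  | succ k ih =>
    intro A hA y
    by_cases hl : ∀ t, t < r → ∀ j, j ∉ A → (E fun x => P t j (ov A y x)) < δ
    · refine ⟨fun _ => E fun x => f (ov A y x), ?_, ?_, ?_, ?_, ?_, ?_⟩
      · intro _
        refine (abs_E_le _).trans ?_
        have := E_mono (f := fun x : X n => |f (ov A y x)|) (g := fun _ => 1) (fun x => hf _)
        rwa [E_const] at this
      · intro _ _ _; rfl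
      · rw [E_const]
      · rw [E_smul, E_const]; ring
      · rw [E_const]
        exact hleaf A y hl
      · intro h ε hε _
        rw [E_smul, E_const, sub_self]
        exact mul_nonneg hε (div_nonneg (N_nonneg r P hP A y) hδ.le)
    · push Not at hl
      obtain ⟨t, ht, j, hj, hPj⟩ := hl
      have hcard : ((insert j A)ᶜ).card = k := by
        have h1 : Aᶜ = insert j (insert j A)ᶜ := by
          ext i
          simp only [mem_compl, mem_insert]
          by_cases h : i = j
          · subst h; simp [hj]
          · simp [h]
        have h2 : j ∉ (insert j A)ᶜ := by simp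
        rw [h1, card_insert_of_notMem h2] at hA
        omega
      obtain ⟨g₀, a1, a2, a3, a4, a5, a6⟩ := ih (insert j A) hcard (Function.update y j false)
      obtain ⟨g₁, b1, b2, b3, b4, b5, b6⟩ := ih (insert j A) hcard (Function.update y j true)
      have u0 : ∀ x, g₀ (Function.update x j false) = g₀ x := by
        intro x
        apply a2
        intro i hi
        have : i ≠ j := fun h => hi (by rw [h]; exact mem_insert_self _ _)
        simp [this]
      have u1 : ∀ x, g₁ (Function.update x j true) = g₁ x := by
        intro x
        apply b2
        intro i hi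
        have : i ≠ j := fun h => hi (by rw [h]; exact mem_insert_self _ _)
        simp [this]
      -- averaging over the coordinate `j`
      have key : ∀ φ : ℝ → X n → ℝ, (E fun x => φ (if x j then g₁ x else g₀ x) x) =
          ((E fun x => φ (g₀ x) (Function.update x j false)) +
            (E fun x => φ (g₁ x) (Function.update x j true))) / 2 := by
        intro φ
        rw [E_update j]
        congr 2
        · congr 1
          funext x
          simp [u0]
        · congr 1
          funext x
          simp [u1]
      refine ⟨fun x => if x j then g₁ x else g₀ x, ?_, ?_, ?_, ?_, ?_, ?_⟩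
      · intro x
        dsimp only
        split_ifs
        · exact b1 x
        · exact a1 x
      · intro x x' hxx
        dsimp only
        rw [hxx j hj, a2 x x' fun i hi => hxx i fun h => hi (mem_insert_of_mem h),
          b2 x x' fun i hi => hxx i fun h => hi (mem_insert_of_mem h)]
      · have := key (fun a _ => a)
        rw [this, E_ov_insert hj y f, ← a3, ← b3]
      · have h1 := key (fun a x => a * f (ov A y x))
        have h2 := key (fun a _ => a ^ 2)
        rw [h1, h2, ← a4, ← b4]
        simp only [ov_insert_update hj]
      · have h2 := key (fun a _ => a ^ 2)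
        rw [h2, E_ov_insert hj y (fun x => f x ^ 2)]
        linarith
      · intro h ε hε hD
        have h1 := key (fun a x => a * h x)
        have h2 := key (fun a _ => a)
        rw [h1, h2]
        have hAv : ∀ i, i ∉ insert j A → (E fun x => |D i (Av j h) x|) ≤ ε := by
          intro i hi
          have hi' : i ∉ A := fun h' => hi (mem_insert_of_mem h')
          refine le_trans ?_ (hD i hi')
          have e1 : (E fun x => |D i (Av j h) x|) ≤ E (Av j fun x => |D i h x|) := by
            refine E_mono fun x => ?_
            rw [D_Av_comm]
            unfold Av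
            rw [abs_div, abs_two]
            have := abs_add_le (D i h x) (D i h (flip j x))
            linarith
          rwa [E_Av] at e1
        have i0 := a6 (Av j h) ε hε hAv
        have i1 := b6 (Av j h) ε hε hAv
        rw [E_Av] at i0 i1
        have hN := N_step r P hP A y j hj t ht δ hPj
        have e2 : ((E fun x => g₀ x * h (Function.update x j false)) +
            (E fun x => g₁ x * h (Function.update x j true))) / 2 =
            ((E fun x => g₀ x * Av j h x) + (E fun x => g₁ x * Av j h x)) / 2 +
            E fun x => ((g₀ x - g₁ x) / 2) *
              ((h (Function.update x j false) - h (Function.update x j true)) / 2) := by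
          have e3 : (E fun x => ((g₀ x - g₁ x) / 2) *
              ((h (Function.update x j false) - h (Function.update x j true)) / 2)) =
              (1/2) * (((E fun x => g₀ x * h (Function.update x j false)) +
            (E fun x => g₁ x * h (Function.update x j true))) -
            ((E fun x => g₀ x * Av j h x) + (E fun x => g₁ x * Av j h x))) := by
            rw [← E_add, ← E_add, ← E_sub, ← E_smul]
            congr 1
            funext x
            rw [Av_eq_update]
            ring
          rw [e3]
          ring
        have e4 : (E fun x => ((g₀ x - g₁ x) / 2) *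
              ((h (Function.update x j false) - h (Function.update x j true)) / 2)) ≤ ε := by
          refine le_trans ?_ (hD j hj)
          refine E_mono fun x => ?_
          rw [abs_D_eq_update]
          refine (le_abs_self _).trans ?_
          rw [abs_mul]
          have e5 : |(g₀ x - g₁ x) / 2| ≤ 1 := by
            rw [abs_le]
            have q0 := abs_le.1 (a1 x)
            have q1 := abs_le.1 (b1 x)
            constructor <;> linarith
          exact mul_le_of_le_one_left (abs_nonneg _) e5
        rw [e2]
        have e6 : ε * (N r P (insert j A) (Function.update y j false) / δ) +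
            ε * (N r P (insert j A) (Function.update y j true) / δ) ≤
            2 * (ε * (N r P A y / δ)) - 2 * ε := by
          have e7 : ε * (N r P (insert j A) (Function.update y j false) / δ) +
            ε * (N r P (insert j A) (Function.update y j true) / δ) =
            2 * ε * (((N r P (insert j A) (Function.update y j false) +
              N r P (insert j A) (Function.update y j true)) / 2) / δ) := by ring
          rw [e7]
          have e8 : ((N r P (insert j A) (Function.update y j false) +
              N r P (insert j A) (Function.update y j true)) / 2) / δ ≤ N r P A y / δ - 1 := by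
            rw [div_le_iff₀ hδ, sub_mul, div_mul_cancel₀ _ hδ.ne', one_mul]
            exact hN
          calc _ ≤ 2 * ε * (N r P A y / δ - 1) := mul_le_mul_of_nonneg_left e8 (by positivity)
            _ = _ := by ring
        nlinarith

end Pool.Agent.L0h23.AA
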