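import Pool.Agent.L0h23.AA.QDefs
import Pool.Agent.L0h23.AA.QPert
import Pool.Agent.L0h23.AA.Tree

/-!
# Quantum query algorithms with boundedly many rounds have influential variables
-/

set_option autoImplicit false
set_option linter.unusedSectionVars false

open Finset

namespace Pool.Agent.L0h23.AA

variable {n p : ℕ}

theorem character_flip (S : Finset (Fin n)) (j : Fin n) (x : X n) :
    character S (flip j x) = (if j ∈ S then -1 else 1) * character S x := by
  unfold character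
  split_ifs with h
  · rw [← mul_prod_erase S _ h, ← mul_prod_erase S _ h, flip_apply_same]
    have h1 : ∏ i ∈ S.erase j, (-1:ℝ) ^ (flip j x i).toNat =
        ∏ i ∈ S.erase j, (-1:ℝ) ^ (x i).toNat := by
      refine prod_congr rfl fun i hi => ?_
      rw [flip_apply_ne (mem_erase.1 hi).1]
    rw [h1]
    cases x j <;> simp
  · rw [one_mul]
    refine prod_congr rfl fun i hi => ?_
    have hij : i ≠ j := fun h' => h (by rw [← h']; exact hi)
    rw [flip_apply_ne hij]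

theorem abs_character (S : Finset (Fin n)) (x : X n) : |character S x| = 1 := by
  unfold character
  rw [abs_prod]
  refine prod_eq_one fun i _ => ?_
  rw [abs_pow, abs_neg, abs_one, one_pow]

namespace QueryAlgorithm

variable (A : QueryAlgorithm n p)

theorem oracle_eq (x : X n) (v : EuclideanSpace ℂ A.State) :
    A.oracle x v = dg (fun a => (character (A.query a) x : ℂ)) v := rfl

open Classical in
/-- the basis states which ask for the bit `j` -/
noncomputable def Bq (j : Fin n) : Finset A.State := univ.filter fun a => j ∈ A.query a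

theorem mem_Bq (j : Fin n) (a : A.State) : a ∈ A.Bq j ↔ j ∈ A.query a := by
  unfold Bq; simp

/-- one step -/
noncomputable def V (x : X n) (t : ℕ) : EuclideanSpace ℂ A.State →L[ℂ] EuclideanSpace ℂ A.State :=
  ((A.U (t + 1)).toContinuousLinearEquiv : EuclideanSpace ℂ A.State →L[ℂ] EuclideanSpace ℂ A.State).comp
    (dg (fun a => (character (A.query a) x : ℂ)))

theorem V_apply (x : X n) (t : ℕ) (v : EuclideanSpace ℂ A.State) :
    A.V x t v = A.U (t + 1) (A.oracle x v) := rfl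

theorem norm_V_le (x : X n) (t : ℕ) (v : EuclideanSpace ℂ A.State) : ‖A.V x t v‖ ≤ ‖v‖ := by
  rw [V_apply, LinearIsometryEquiv.norm_map, oracle_eq]
  refine norm_dg_le _ (fun a => ?_) v
  rw [Complex.norm_real, Real.norm_eq_abs, abs_character]

theorem oracle_flip (x : X n) (j : Fin n) (v : EuclideanSpace ℂ A.State) :
    A.oracle (flip j x) v = A.oracle x (v - (2:ℂ) • PB (A.Bq j) v) := by
  classical
  ext a
  rw [oracle_eq, oracle_eq, dg_apply, dg_apply, character_flip]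
  simp only [PiLp.sub_apply, PiLp.smul_apply, smul_eq_mul]
  rw [PB_apply]
  by_cases h : j ∈ A.query a
  · rw [if_pos h, if_pos ((A.mem_Bq j a).2 h)]
    push_cast
    ring
  · rw [if_neg h, if_neg (fun h' => h ((A.mem_Bq j a).1 h'))]
    push_cast
    ring

/-- the weight of the queries to the bit `j` in round `t + 1` -/
noncomputable def P (t : ℕ) (j : Fin n) (x : X n) : ℝ := wt (A.Bq j) (A.state x t)

theorem P_nonneg (t : ℕ) (j : Fin n) (x : X n) : 0 ≤ A.P t j x := wt_nonneg _ _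

theorem norm_state (x : X n) (t : ℕ) : ‖A.state x t‖ ≤ 1 := by
  induction t with
  | zero => rw [state, LinearIsometryEquiv.norm_map, A.norm_start]
  | succ t ih => exact (A.norm_V_le x t _).trans ih

theorem count_le [DecidableEq A.State] (J : Finset (Fin n)) (a : A.State) :
    (J.filter (fun j => a ∈ A.Bq j)).card ≤ p := by
  refine (card_le_card ?_).trans (A.card_query_le a)
  intro j hj
  exact (A.mem_Bq j a).1 (mem_filter.1 hj).2

/-- the perturbation bound for the derivatives -/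
theorem deriv_bound {μ : Type} (J : Finset (Fin n)) (x : X n) (T : ℕ) (β : ℝ) (hβ0 : 0 ≤ β)
    (hβ : ∀ t, t < T → ∀ j ∈ J, A.P t j x ≤ β) (I : Finset μ) (C : μ → Finset A.State) (L : ℕ)
    [DecidableEq A.State] (hC : ∀ a, (I.filter (fun i => a ∈ C i)).card ≤ L) :
    ∑ i ∈ I, ∑ j ∈ J, D j (fun x => wt (C i) (A.state x T)) x ^ 2 ≤ 40 * T ^ 4 * p * L * β := by
  have h := pert J A.Bq p (A.count_le J) (A.V x) (A.norm_V_le x) (fun t => A.state x t)
    (fun j t => A.state (flip j x) t) (fun t => rfl)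
    (fun j t => by
      rw [V_apply, ← oracle_flip]
      rfl) (fun j => rfl) (A.norm_state x 0) hβ0 hβ I C L hC
  have e : ∑ i ∈ I, ∑ j ∈ J, D j (fun x => wt (C i) (A.state x T)) x ^ 2 =
      (1/4) * ∑ i ∈ I, ∑ j ∈ J, (wt (C i) (A.state x T) - wt (C i) (A.state (flip j x) T)) ^ 2 := by
    rw [mul_sum]
    refine sum_congr rfl fun i _ => ?_
    rw [mul_sum]
    refine sum_congr rfl fun j _ => ?_
    unfold D
    ring
  rw [e]
  linarith

theorem sum_P_le (J : Finset (Fin n)) (t : ℕ) (x : X n) : ∑ j ∈ J, A.P t j x ≤ p := by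
  classical
  have h := sum_wt_le J A.Bq p (A.count_le J) (A.state x t)
  have h2 := A.norm_state x t
  have h3 : ‖A.state x t‖ ^ 2 ≤ 1 := pow_le_one₀ (norm_nonneg _) h2
  have hp : (0:ℝ) ≤ p := by positivity
  unfold P
  nlinarith

section Leaf

variable (Q : Finset (Fin n)) (y : X n) (δ : ℝ)

/-- the bound for the query weights -/
noncomputable def bet (x : X n) : ℕ → ℝ
  | 0 => 0
  | t + 1 => bet x t + δ +
      √(∑ j ∈ Qᶜ, (A.P t j (ov Q y x) - E fun x => A.P t j (ov Q y x)) ^ 2)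

theorem bet_nonneg (hδ : 0 ≤ δ) (x : X n) (T : ℕ) : 0 ≤ A.bet Q y δ x T := by
  induction T with
  | zero => exact le_rfl
  | succ T ih =>
    rw [bet]
    have := Real.sqrt_nonneg
      (∑ j ∈ Qᶜ, (A.P T j (ov Q y x) - E fun x => A.P T j (ov Q y x)) ^ 2)
    linarith

theorem le_bet (hδ : 0 ≤ δ) (x : X n) (r : ℕ)
    (hl : ∀ t, t < r → ∀ j, j ∉ Q → (E fun x => A.P t j (ov Q y x)) < δ) (T : ℕ) (hT : T ≤ r) :
    ∀ t, t < T → ∀ j ∈ Qᶜ, A.P t j (ov Q y x) ≤ A.bet Q y δ x T := by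
  induction T with
  | zero => intro t ht; omega
  | succ T ih =>
    intro t ht j hj
    have hs := Real.sqrt_nonneg
        (∑ j ∈ Qᶜ, (A.P T j (ov Q y x) - E fun x => A.P T j (ov Q y x)) ^ 2)
    rw [bet]
    rcases Nat.lt_succ_iff_lt_or_eq.1 ht with h | h
    · have := ih (by omega) t h j hj
      linarith
    · subst h
      have h1 := hl t (by omega) j (mem_compl.1 hj)
      have h2 := A.bet_nonneg Q y δ hδ x t
      have h3 : A.P t j (ov Q y x) - (E fun x => A.P t j (ov Q y x)) ≤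
          √(∑ j ∈ Qᶜ, (A.P t j (ov Q y x) - E fun x => A.P t j (ov Q y x)) ^ 2) := by
        apply Real.le_sqrt_of_sq_le
        exact single_le_sum (f := fun j => (A.P t j (ov Q y x) - E fun x => A.P t j (ov Q y x)) ^ 2)
          (fun _ _ => sq_nonneg _) hj
      linarith

theorem var_le (f : X n → ℝ) : (E fun x => (f x - E f) ^ 2) ≤ ∑ j, E fun x => D j f x ^ 2 := by
  refine le_trans (le_of_eq ?_) (poincare f)
  have h : (fun x => (f x - E f) ^ 2) = fun x => (f x ^ 2 + (-2 * E f) * f x) + (E f) ^ 2 := by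
    funext x; ring
  rw [h, E_add, E_add, E_smul, E_const]
  ring

theorem sum_E_D_ov (f : X n → ℝ) : (∑ j, E fun x => D j (fun x => f (ov Q y x)) x ^ 2) =
    E fun x => ∑ j ∈ Qᶜ, D j f (ov Q y x) ^ 2 := by
  rw [E_sum, ← sum_add_sum_compl Q]
  have h1 : ∑ j ∈ Q, (E fun x => D j (fun x => f (ov Q y x)) x ^ 2) = 0 := by
    refine sum_eq_zero fun j hj => ?_
    simp only [D_ov_mem hj]
    rw [E_const]
    norm_num
  rw [h1, zero_add]
  refine sum_congr rfl fun j hj => ?_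
  simp only [D_ov_not_mem (mem_compl.1 hj)]

theorem E_bet_succ (hδ : 0 ≤ δ) (r : ℕ)
    (hl : ∀ t, t < r → ∀ j, j ∉ Q → (E fun x => A.P t j (ov Q y x)) < δ) (T : ℕ) (hT : T < r) :
    (E fun x => A.bet Q y δ x (T + 1)) ≤ (E fun x => A.bet Q y δ x T) + δ +
      √(40 * T ^ 4 * p * p * E fun x => A.bet Q y δ x T) := by
  classical
  have h1 : (E fun x => A.bet Q y δ x (T + 1)) = (E fun x => A.bet Q y δ x T) + δ +
      E fun x => √(∑ j ∈ Qᶜ, (A.P T j (ov Q y x) - E fun x => A.P T j (ov Q y x)) ^ 2) := by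
    simp only [bet]
    rw [E_add, E_add, E_const]
  rw [h1]
  refine add_le_add_right ?_ _
  refine (E_sqrt_le fun x => sum_nonneg fun _ _ => sq_nonneg _).trans ?_
  apply Real.sqrt_le_sqrt
  rw [E_sum]
  calc ∑ j ∈ Qᶜ, (E fun x => (A.P T j (ov Q y x) - E fun x => A.P T j (ov Q y x)) ^ 2)
      ≤ ∑ j ∈ Qᶜ, ∑ i, E fun x => D i (fun x => A.P T j (ov Q y x)) x ^ 2 :=
        sum_le_sum fun j _ => var_le fun x => A.P T j (ov Q y x)
    _ = ∑ j ∈ Qᶜ, E fun x => ∑ i ∈ Qᶜ, D i (A.P T j) (ov Q y x) ^ 2 :=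
        sum_congr rfl fun j _ => sum_E_D_ov Q y (A.P T j)
    _ = E fun x => ∑ j ∈ Qᶜ, ∑ i ∈ Qᶜ, D i (A.P T j) (ov Q y x) ^ 2 := (E_sum _ _).symm
    _ ≤ E fun x => 40 * T ^ 4 * p * p * A.bet Q y δ x T := by
        refine E_mono fun x => ?_
        exact A.deriv_bound Qᶜ (ov Q y x) T (A.bet Q y δ x T) (A.bet_nonneg Q y δ hδ x T)
          (A.le_bet Q y δ hδ x r hl T hT.le) Qᶜ A.Bq p (A.count_le Qᶜ)
    _ = _ := E_smul _ _

theorem leaf_var (hδ : 0 ≤ δ) (r : ℕ)
    (hl : ∀ t, t < r → ∀ j, j ∉ Q → (E fun x => A.P t j (ov Q y x)) < δ) :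
    (E fun x => A.acceptance r (ov Q y x) ^ 2) - (E fun x => A.acceptance r (ov Q y x)) ^ 2 ≤
      40 * r ^ 4 * p * E fun x => A.bet Q y δ x r := by
  classical
  refine (poincare fun x => A.acceptance r (ov Q y x)).trans ?_
  rw [sum_E_D_ov Q y (A.acceptance r), ← E_smul]
  refine E_mono fun x => ?_
  have h := A.deriv_bound Qᶜ (ov Q y x) r (A.bet Q y δ x r) (A.bet_nonneg Q y δ hδ x r)
    (A.le_bet Q y δ hδ x r hl r le_rfl) (univ : Finset Unit) (fun _ => A.accept) 1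
    (fun a => (card_filter_le _ _).trans (by simp))
  simp only [univ_unique, sum_singleton] at h
  refine le_trans (le_of_eq ?_) (h.trans (le_of_eq ?_))
  · rfl
  · push_cast; ring

end Leaf

/-- the numbers `s k` -/
noncomputable def sk (K s₀ : ℝ) (k : ℕ) : ℝ := K ^ 2 * (s₀ / K ^ 2) ^ (2 ^ k)

theorem sk_zero (K s₀ : ℝ) (hK : 1 ≤ K) : sk K s₀ 0 = s₀ := by
  unfold sk
  have : K ^ 2 ≠ 0 := by positivity
  rw [pow_zero, pow_one]
  field_simp

theorem sk_succ (K s₀ : ℝ) (hK : 1 ≤ K) (k : ℕ) : sk K s₀ (k + 1) = (sk K s₀ k / K) ^ 2 := by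
  unfold sk
  have : K ≠ 0 := by positivity
  rw [pow_succ 2 k, pow_mul]
  field_simp

theorem sk_nonneg (K s₀ : ℝ) (hs : 0 ≤ s₀) (k : ℕ) : 0 ≤ sk K s₀ k := by
  unfold sk; positivity

theorem sk_le_one (K s₀ : ℝ) (hK : 1 ≤ K) (hs : 0 ≤ s₀) (hs1 : s₀ ≤ 1) (k : ℕ) :
    sk K s₀ k ≤ 1 := by
  induction k with
  | zero => rw [sk_zero K s₀ hK]; exact hs1
  | succ k ih =>
    rw [sk_succ K s₀ hK]
    have h1 := sk_nonneg K s₀ hs k
    have h2 : sk K s₀ k / K ≤ 1 := by
      rw [div_le_one (by positivity)]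
      linarith
    exact pow_le_one₀ (by positivity) h2

theorem sk_succ_le (K s₀ : ℝ) (hK : 1 ≤ K) (hs : 0 ≤ s₀) (hs1 : s₀ ≤ 1) (k : ℕ) :
    sk K s₀ (k + 1) ≤ sk K s₀ k / K := by
  rw [sk_succ K s₀ hK]
  have h1 := sk_nonneg K s₀ hs k
  have h2 : sk K s₀ k / K ≤ 1 := by
    rw [div_le_one (by positivity)]
    have := sk_le_one K s₀ hK hs hs1 k
    linarith
  have h3 : 0 ≤ sk K s₀ k / K := by positivity
  nlinarith

theorem sk_anti (K s₀ : ℝ) (hK : 1 ≤ K) (hs : 0 ≤ s₀) (hs1 : s₀ ≤ 1) : Antitone (sk K s₀) := by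
  refine antitone_nat_of_succ_le fun k => (sk_succ_le K s₀ hK hs hs1 k).trans ?_
  exact div_le_self (sk_nonneg K s₀ hs k) hK

theorem E_bet_le (Q : Finset (Fin n)) (y : X n) (s₀ : ℝ) (hs : 0 ≤ s₀) (hs1 : s₀ ≤ 1) (r : ℕ)
    (hp : 1 ≤ p)
    (hl : ∀ t, t < r → ∀ j, j ∉ Q → (E fun x => A.P t j (ov Q y x)) <
      sk (9 * r ^ 2 * p) s₀ (r - 1)) (T : ℕ) (hT1 : 1 ≤ T) (hT : T ≤ r) :
    (E fun x => A.bet Q y (sk (9 * r ^ 2 * p) s₀ (r - 1)) x T) ≤ sk (9 * r ^ 2 * p) s₀ (r - T) := by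
  have hr1 : (1:ℝ) ≤ r := by exact_mod_cast hT1.trans hT
  have hp1 : (1:ℝ) ≤ p := by exact_mod_cast hp
  have hr2 : (1:ℝ) ≤ (r:ℝ) ^ 2 := one_le_pow₀ hr1
  have hrp : (1:ℝ) ≤ (r:ℝ) ^ 2 * p := by nlinarith
  set K : ℝ := 9 * r ^ 2 * p with hK
  have hK9 : (9:ℝ) ≤ K := by rw [hK]; nlinarith
  have hK1 : (1:ℝ) ≤ K := by linarith
  set δ := sk K s₀ (r - 1) with hδd
  have hδ : 0 ≤ δ := sk_nonneg K s₀ hs _
  induction T, hT1 using Nat.le_induction with
  | base =>
    have h := A.E_bet_succ Q y δ hδ r hl 0 (by omega)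
    have h0 : (E fun x => A.bet Q y δ x 0) = 0 := by
      simp only [bet]
      exact E_const 0
    rw [h0] at h
    simpa using h
  | succ T hT1 ih =>
    have h := A.E_bet_succ Q y δ hδ r hl T (by omega)
    have ih' := ih (by omega)
    have e1 : r - T = (r - (T + 1)) + 1 := by omega
    set σ := sk K s₀ (r - (T + 1)) with hσ
    have hσ0 : 0 ≤ σ := sk_nonneg K s₀ hs _
    have hsT : sk K s₀ (r - T) = (σ / K) ^ 2 := by
      rw [e1, sk_succ K s₀ hK1]
    have h2 : sk K s₀ (r - T) ≤ σ / K := by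
      rw [e1]
      exact sk_succ_le K s₀ hK1 hs hs1 _
    have h3 : δ ≤ σ / K := (sk_anti K s₀ hK1 hs hs1 (by omega)).trans h2
    have h4 : √(40 * T ^ 4 * p * p * E fun x => A.bet Q y δ x T) ≤ 7 * T ^ 2 * p * (σ / K) := by
      apply Real.sqrt_le_iff.2
      constructor
      · positivity
      · have h5 : (40 * T ^ 4 * p * p * E fun x => A.bet Q y δ x T) ≤
            40 * T ^ 4 * p * p * (σ / K) ^ 2 := by
          rw [← hsT]
          exact mul_le_mul_of_nonneg_left ih' (by positivity)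
        have h6 : (7 * (T:ℝ) ^ 2 * p * (σ / K)) ^ 2 = 49 * T ^ 4 * p * p * (σ / K) ^ 2 := by ring
        rw [h6]
        refine h5.trans ?_
        have h7 : 0 ≤ (T:ℝ) ^ 4 * p * p * (σ / K) ^ 2 := by positivity
        nlinarith
    have hTr : (T:ℝ) ^ 2 ≤ (r:ℝ) ^ 2 := by
      have : (T:ℝ) ≤ r := by exact_mod_cast (by omega : T ≤ r)
      exact pow_le_pow_left₀ (by positivity) this 2
    have h8 : 2 + 7 * (T:ℝ) ^ 2 * p ≤ K := by
      rw [hK]
      have : (T:ℝ) ^ 2 * p ≤ (r:ℝ) ^ 2 * p := mul_le_mul_of_nonneg_right hTr (by positivity)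
      nlinarith
    have h9 : 0 ≤ σ / K := by positivity
    have h10 : (2 + 7 * (T:ℝ) ^ 2 * p) * (σ / K) ≤ K * (σ / K) :=
      mul_le_mul_of_nonneg_right h8 h9
    have h11 : K * (σ / K) = σ := by
      field_simp
    nlinarith

/-- **Main theorem.** -/
theorem main (r : ℕ) (hr : 1 ≤ r) (hp : 1 ≤ p) (v : ℝ) (hv : 0 < v) (hv1 : v ≤ 1)
    (hvar : v ≤ (E fun x => A.acceptance r x ^ 2) - (E fun x => A.acceptance r x) ^ 2) :
    ∃ j : Fin n, (v / (6480 * r ^ 8 * p ^ 3)) ^ (2 ^ r + 2) ≤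
      E fun x => D j (A.acceptance r) x ^ 2 := by
  have hr1 : (1:ℝ) ≤ r := by exact_mod_cast hr
  have hp1 : (1:ℝ) ≤ p := by exact_mod_cast hp
  set f : X n → ℝ := fun x => A.acceptance r x with hf
  set K : ℝ := 9 * r ^ 2 * p with hK
  set s₀ : ℝ := v / (80 * r ^ 4 * p) with hs₀
  have hr2 : (1:ℝ) ≤ (r:ℝ) ^ 2 := one_le_pow₀ hr1
  have hr4 : (1:ℝ) ≤ (r:ℝ) ^ 4 := one_le_pow₀ hr1
  have hrp : (1:ℝ) ≤ (r:ℝ) ^ 2 * p := by nlinarith
  have hrp4 : (1:ℝ) ≤ (r:ℝ) ^ 4 * p := by nlinarith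
  have hK9 : (9:ℝ) ≤ K := by rw [hK]; nlinarith
  have hK1 : (1:ℝ) ≤ K := by linarith
  have hs0 : 0 < s₀ := by positivity
  have hs1 : s₀ ≤ 1 := by
    rw [hs₀, div_le_one (by positivity)]
    nlinarith
  set δ := sk K s₀ (r - 1) with hδd
  have hδ : 0 < δ := by rw [hδd]; unfold sk; positivity
  have hfb : ∀ x, |f x| ≤ 1 := by
    intro x
    have h0 : 0 ≤ f x := wt_nonneg A.accept (A.state x r)
    rw [abs_of_nonneg h0]
    exact (wt_le A.accept (A.state x r)).trans (pow_le_one₀ (norm_nonneg _) (A.norm_state x r))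
  have hleaf : ∀ (Q : Finset (Fin n)) (y : X n),
      (∀ t, t < r → ∀ j, j ∉ Q → (E fun x => A.P t j (ov Q y x)) < δ) →
      (E fun x => f (ov Q y x) ^ 2) - (E fun x => f (ov Q y x)) ^ 2 ≤ v / 2 := by
    intro Q y hl
    refine (A.leaf_var Q y δ hδ.le r hl).trans ?_
    have h := A.E_bet_le Q y s₀ hs0.le hs1 r hp hl r hr le_rfl
    rw [Nat.sub_self, sk_zero _ _ hK1] at h
    calc 40 * r ^ 4 * p * (E fun x => A.bet Q y δ x r) ≤ 40 * r ^ 4 * p * s₀ :=
          mul_le_mul_of_nonneg_left h (by positivity)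
      _ = v / 2 := by
          rw [hs₀]
          field_simp
          ring
  obtain ⟨g, g1, _, g3, g4, g5, g6⟩ := Tree.main r A.P A.P_nonneg δ hδ f hfb (v / 2) hleaf _ ∅ rfl
    (fun _ => false)
  simp only [ov_empty] at g3 g4 g5
  -- the greatest derivative
  have hne : (univ : Finset (Fin n)).Nonempty := by
    by_contra hne
    rw [not_nonempty_iff_eq_empty] at hne
    have hp0 := poincare f
    rw [hne, sum_empty] at hp0
    linarith
  obtain ⟨j, _, hj⟩ := exists_max_image univ (fun j : Fin n => E fun x => |D j f x|) hne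
  have hε0 : 0 ≤ E fun x => |D j f x| := E_nonneg fun _ => abs_nonneg _
  have g7 := g6 f _ hε0 (fun i _ => hj i (mem_univ i))
  have hN : N r A.P ∅ (fun _ => false) ≤ r * p := by
    unfold N
    calc ∑ t ∈ range r, ∑ j ∈ (∅:Finset (Fin n))ᶜ, (E fun x => A.P t j (ov ∅ (fun _ => false) x))
        ≤ ∑ t ∈ range r, (p:ℝ) := by
          refine sum_le_sum fun t _ => ?_
          rw [← E_sum]
          simp only [ov_empty]
          have := E_mono (f := fun x => ∑ j ∈ (∅:Finset (Fin n))ᶜ, A.P t j x) (g := fun _ => (p:ℝ))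
            (fun x => A.sum_P_le _ t x)
          rwa [E_const] at this
      _ = r * p := by rw [sum_const, card_range, nsmul_eq_mul]
  have h1 : v / 2 ≤ (E fun x => |D j f x|) * (r * p / δ) := by
    have h2 : (E fun x => |D j f x|) * (N r A.P ∅ (fun _ => false) / δ) ≤
        (E fun x => |D j f x|) * (r * p / δ) :=
      mul_le_mul_of_nonneg_left (div_le_div_of_nonneg_right hN hδ.le) hε0
    rw [g3, g4] at g7
    have e1 : E f ^ 2 = (E fun x => f x) * (E f) := sq _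
    have : v ≤ (E fun x => f x ^ 2) - (E fun x => f x) ^ 2 := hvar
    nlinarith
  have h3 : v * δ / (2 * r * p) ≤ E fun x => |D j f x| := by
    rw [div_le_iff₀ (by positivity)]
    have h4 : (E fun x => |D j f x|) * (r * p / δ) * δ = (E fun x => |D j f x|) * (r * p) := by
      field_simp
    nlinarith
  refine ⟨j, ?_⟩
  set z : ℝ := v / (6480 * r ^ 8 * p ^ 3) with hz
  have hz0 : 0 ≤ z := by positivity
  have hz1 : s₀ / K ^ 2 = z := by
    rw [hs₀, hK, hz]
    field_simp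
    ring
  have h5 : z ^ (2 ^ (r - 1)) ≤ δ := by
    rw [hδd]
    unfold sk
    rw [hz1]
    have : (1:ℝ) ≤ K ^ 2 := one_le_pow₀ hK1
    have h6 : 0 ≤ z ^ (2 ^ (r - 1)) := by positivity
    nlinarith
  have h6 : z ≤ v / (2 * r * p) := by
    rw [hz]
    apply div_le_div_of_nonneg_left hv.le (by positivity)
    have h7 : (r:ℝ) ≤ r ^ 8 := le_self_pow₀ hr1 (by norm_num)
    have h8 : (p:ℝ) ≤ p ^ 3 := le_self_pow₀ hp1 (by norm_num)
    have h9 : (r:ℝ) * p ≤ r ^ 8 * p ^ 3 := mul_le_mul h7 h8 (by positivity) (by positivity)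
    have h10 : 0 ≤ (r:ℝ) ^ 8 * p ^ 3 := by positivity
    nlinarith
  have h7 : z * z ^ (2 ^ (r - 1)) ≤ E fun x => |D j f x| := by
    refine le_trans ?_ h3
    have : v * δ / (2 * r * p) = v / (2 * r * p) * δ := by ring
    rw [this]
    exact mul_le_mul h6 h5 (by positivity) (by positivity)
  have h8 : (2:ℕ) ^ r + 2 = (1 + 2 ^ (r - 1)) * 2 := by
    obtain ⟨k, rfl⟩ : ∃ k, r = k + 1 := ⟨r - 1, by omega⟩
    simp only [Nat.add_sub_cancel]
    rw [pow_succ]
    ring
  calc z ^ (2 ^ r + 2) = (z * z ^ (2 ^ (r - 1))) ^ 2 := by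
        rw [h8, pow_mul, pow_add, pow_one]
    _ ≤ (E fun x => |D j f x|) ^ 2 := pow_le_pow_left₀ (by positivity) h7 2
    _ ≤ E fun x => |D j f x| ^ 2 := sq_E_le _
    _ = E fun x => D j (A.acceptance r) x ^ 2 := by
        congr 1
        funext x
        exact sq_abs _

end QueryAlgorithm

end Pool.Agent.L0h23.AA
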