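import Pool.Agent.L0h23.AA.Level

/-!
# Restrictions: Fourier coefficients, random restrictions
-/

set_option autoImplicit false
set_option linter.unusedSectionVars false

open Finset

namespace Pool.Agent.L0h23.AA.Sym

variable {I : Type} [Fintype I] [DecidableEq I]

/-- the point with coordinates `x e` for `e` in `J` and `y e` for `e` outside `J` -/
def mix (J : Finset I) (x y : I → Bool) : I → Bool := fun e => if e ∈ J then x e else y e

/-- the restriction of `f`: the coordinates outside `J` are fixed to those of `y` -/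
def rst (f : (I → Bool) → ℝ) (J : Finset I) (y : I → Bool) (x : I → Bool) : ℝ := f (mix J x y)

theorem ch_mix (J S : Finset I) (x y : I → Bool) :
    ch S (mix J x y) = ch (S ∩ J) x * ch (S \ J) y := by
  unfold ch
  rw [← prod_inter_mul_prod_sdiff S J]
  congr 1
  · refine prod_congr rfl fun e he => ?_
    unfold mix
    rw [if_pos (mem_inter.1 he).2]
  · refine prod_congr rfl fun e he => ?_
    unfold mix
    rw [if_neg (mem_sdiff.1 he).2]

theorem rst_eq (f : (I → Bool) → ℝ) (J : Finset I) (y x : I → Bool) :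
    rst f J y x = ∑ S, coef f S * (ch (S ∩ J) x * ch (S \ J) y) := by
  unfold rst
  rw [inversion f]
  exact sum_congr rfl fun S _ => by rw [ch_mix]

theorem coef_rst (f : (I → Bool) → ℝ) (J : Finset I) (y : I → Bool) (T : Finset I) :
    coef (rst f J y) T = ∑ S, if S ∩ J = T then coef f S * ch (S \ J) y else 0 := by
  have h : coef (rst f J y) T = ∑ S, (coef f S * ch (S \ J) y) * mean fun x => ch (S ∩ J) x * ch T x := by
    unfold coef
    simp only [← mean_smul]
    rw [← mean_sum]
    congr 1
    funext x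
    rw [rst_eq, sum_mul]
    exact sum_congr rfl fun S _ => by unfold coef; ring
  rw [h]
  refine sum_congr rfl fun S _ => ?_
  rw [mean_ch_mul]
  split_ifs <;> ring

theorem mean_coef_rst (f : (I → Bool) → ℝ) (J T : Finset I) :
    (mean fun y => coef (rst f J y) T ^ 2) = ∑ S, if S ∩ J = T then coef f S ^ 2 else 0 := by
  have h : (fun y => coef (rst f J y) T ^ 2) = fun y => ∑ S, ∑ S',
      (if S ∩ J = T then coef f S else 0) * (if S' ∩ J = T then coef f S' else 0) *
        (ch (S \ J) y * ch (S' \ J) y) := by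
    funext y
    rw [coef_rst, sq, sum_mul_sum]
    refine sum_congr rfl fun S _ => sum_congr rfl fun S' _ => ?_
    split_ifs <;> ring
  rw [h, mean_sum]
  refine sum_congr rfl fun S _ => ?_
  rw [mean_sum]
  have h2 : ∀ S' : Finset I, (mean fun y => (if S ∩ J = T then coef f S else 0) *
      (if S' ∩ J = T then coef f S' else 0) * (ch (S \ J) y * ch (S' \ J) y)) =
      if S' = S then (if S ∩ J = T then coef f S ^ 2 else 0) else 0 := by
    intro S'
    rw [mean_smul, mean_ch_mul]
    by_cases h1 : S' = S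
    · subst h1
      rw [if_pos rfl, if_pos rfl]
      split_ifs <;> ring
    · rw [if_neg h1]
      by_cases h3 : S ∩ J = T
      · by_cases h4 : S' ∩ J = T
        · have h5 : ¬ (S \ J = S' \ J) := by
            intro h6
            apply h1
            rw [← sdiff_union_inter S' J, ← sdiff_union_inter S J, h3, h4, h6]
          rw [if_neg h5, mul_zero]
        · rw [if_neg h4]; ring
      · rw [if_neg h3]; ring
  rw [sum_congr rfl fun S' _ => h2 S']
  simp

/-- weights of a restriction -/
theorem mean_weight_rst (f : (I → Bool) → ℝ) (J : Finset I) (ω : Finset I → ℝ) :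
    (mean fun y => ∑ T, ω T * coef (rst f J y) T ^ 2) = ∑ S, ω (S ∩ J) * coef f S ^ 2 := by
  rw [mean_sum]
  simp only [mean_smul, mean_coef_rst, mul_sum]
  rw [sum_comm]
  refine sum_congr rfl fun S _ => ?_
  have : ∀ T : Finset I, ω T * (if S ∩ J = T then coef f S ^ 2 else 0) =
      if S ∩ J = T then ω (S ∩ J) * coef f S ^ 2 else 0 := by
    intro T
    split_ifs with h
    · rw [h]
    · ring
  rw [sum_congr rfl fun T _ => this T]
  simp

theorem coef_rst_deg {f : (I → Bool) → ℝ} {d : ℕ} (hdeg : ∀ S : Finset I, d < S.card → coef f S = 0)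
    (J : Finset I) (y : I → Bool) (T : Finset I) (hT : d < T.card) : coef (rst f J y) T = 0 := by
  rw [coef_rst]
  refine sum_eq_zero fun S _ => ?_
  split_ifs with h
  · rw [hdeg S, zero_mul]
    refine hT.trans_le ?_
    rw [← h]
    exact card_le_card inter_subset_left
  · rfl

theorem mean_ch (S : Finset I) : (mean fun x => ch S x) = if S = ∅ then 1 else 0 := by
  have h := mean_ch_mul S ∅
  have e : (fun x : I → Bool => ch S x * ch ∅ x) = fun x => ch S x := by
    funext x; simp [ch]
  rwa [e] at h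

/-- mixing two independent uniform points gives a uniform point -/
theorem mean_mix (F : (I → Bool) → ℝ) (J : Finset I) :
    (mean fun y => mean fun x => F (mix J x y)) = mean F := by
  have h1 : (fun y => mean fun x => F (mix J x y)) =
      fun y => ∑ S, (coef F S * if S ∩ J = ∅ then 1 else 0) * ch (S \ J) y := by
    funext y
    have : (fun x => F (mix J x y)) = fun x => ∑ S, (coef F S * ch (S \ J) y) * ch (S ∩ J) x := by
      funext x
      rw [inversion F (mix J x y)]
      refine sum_congr rfl fun S _ => ?_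
      rw [ch_mix]; ring
    rw [this, mean_sum]
    refine sum_congr rfl fun S _ => ?_
    rw [mean_smul, mean_ch]
    ring
  rw [h1, mean_sum, ← coef_empty]
  simp only [mean_smul, mean_ch]
  rw [sum_eq_single ∅]
  · simp
  · intro S _ hS
    by_cases h2 : S ∩ J = ∅
    · by_cases h3 : S \ J = ∅
      · exfalso
        apply hS
        rw [← sdiff_union_inter S J, h2, h3]
        simp
      · rw [if_neg h3, mul_zero]
    · rw [if_neg h2, mul_zero, zero_mul]
  · intro h; exact absurd (mem_univ _) h

/-- the probability of `J` if the coordinates survive independently with probability `ρ` -/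
noncomputable def wJ (ρ : ℝ) (J : Finset I) : ℝ := ρ ^ J.card * (1 - ρ) ^ (univ \ J).card

theorem wJ_nonneg {ρ : ℝ} (h0 : 0 ≤ ρ) (h1 : ρ ≤ 1) (J : Finset I) : 0 ≤ wJ ρ J :=
  mul_nonneg (pow_nonneg h0 _) (pow_nonneg (by linarith) _)

theorem sum_wJ_mul (ρ : ℝ) (u v : I → ℝ) :
    ∑ J : Finset I, wJ ρ J * ((∏ e ∈ J, u e) * ∏ e ∈ univ \ J, v e) =
      ∏ e, (ρ * u e + (1 - ρ) * v e) := by
  rw [prod_add, powerset_univ]
  refine sum_congr rfl fun J _ => ?_
  unfold wJ
  rw [prod_mul_distrib, prod_mul_distrib, prod_const, prod_const]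
  ring

theorem sum_wJ (ρ : ℝ) : ∑ J : Finset I, wJ ρ J = 1 := by
  have h := sum_wJ_mul (I := I) ρ (fun _ => 1) fun _ => 1
  simpa using h

theorem prod_split (S : Finset I) (e : I) (he : e ∈ S) (a b : ℝ) :
    ∏ i : I, (if i = e then a else if i ∈ S then b else 1) = a * b ^ (S.card - 1) := by
  rw [← mul_prod_erase univ _ (mem_univ e), if_pos rfl]
  congr 1
  have h1 : ∏ i ∈ univ.erase e, (if i = e then a else if i ∈ S then b else 1) =
      ∏ i ∈ univ.erase e, (if i ∈ S then b else 1) := by
    refine prod_congr rfl fun i hi => ?_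
    rw [if_neg (mem_erase.1 hi).1]
  rw [h1, ← prod_filter, prod_const]
  congr 1
  rw [← card_erase_of_mem he]
  congr 1
  ext i
  simp

/-- tails of the number of survivors of `S` -/
theorem tail_le {ρ : ℝ} (h0 : 0 < ρ) (h1 : ρ ≤ 1 / 2) (d k : ℕ) (S : Finset I) (hS : S.card ≤ d) :
    ∑ J : Finset I, wJ ρ J * (if k < (S ∩ J).card then 1 else 0) ≤
      (2:ℝ)⁻¹ ^ k * Real.exp (3 * ρ * d) *
        ∑ J : Finset I, wJ ρ J * (if S ∩ J = ∅ then 0 else 1) := by
  have hw : ∀ J : Finset I, 0 ≤ wJ ρ J := wJ_nonneg h0.le (by linarith)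
  -- upper bound
  have hup : ∑ J : Finset I, wJ ρ J * (if k < (S ∩ J).card then 1 else 0) ≤
      (2:ℝ)⁻¹ ^ k * (S.card * (ρ * (1 + ρ) ^ (S.card - 1))) := by
    have h2 : ∀ e ∈ S, ∑ J : Finset I, wJ ρ J * (if e ∈ J then 2 ^ ((S.erase e) ∩ J).card else 0) =
        ρ * (1 + ρ) ^ (S.card - 1) := by
      intro e he
      have h3 := sum_wJ_mul (I := I) ρ (fun i => if i = e then 1 else if i ∈ S then 2 else 1)
        fun i => if i = e then 0 else 1
      have h4 : ∀ i : I, ρ * (if i = e then (1:ℝ) else if i ∈ S then 2 else 1) +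
          (1 - ρ) * (if i = e then 0 else 1) = if i = e then ρ else if i ∈ S then 1 + ρ else 1 := by
        intro i
        split_ifs <;> ring
      rw [prod_congr rfl fun i _ => h4 i, prod_split S e he] at h3
      rw [← h3]
      refine sum_congr rfl fun J _ => ?_
      congr 1
      by_cases heJ : e ∈ J
      · rw [if_pos heJ]
        have h5 : ∏ i ∈ univ \ J, (if i = e then (0:ℝ) else 1) = 1 := by
          refine prod_eq_one fun i hi => ?_
          rw [if_neg]
          rintro rfl
          exact (mem_sdiff.1 hi).2 heJ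
        rw [h5, mul_one, ← mul_prod_erase J _ heJ, if_pos rfl, one_mul]
        have h6 : ∏ i ∈ J.erase e, (if i = e then (1:ℝ) else if i ∈ S then 2 else 1) =
            ∏ i ∈ J.erase e, (if i ∈ S then 2 else 1) :=
          prod_congr rfl fun i hi => by rw [if_neg (mem_erase.1 hi).1]
        rw [h6, ← prod_filter, prod_const]
        congr 2
        ext i
        simp only [mem_inter, mem_erase, mem_filter]
        tauto
      · rw [if_neg heJ]
        have : ∏ i ∈ univ \ J, (if i = e then (0:ℝ) else 1) = 0 :=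
          prod_eq_zero (mem_sdiff.2 ⟨mem_univ e, heJ⟩) (if_pos rfl)
        rw [this, mul_zero]
    have h3 : ∀ J : Finset I, (if k < (S ∩ J).card then (1:ℝ) else 0) ≤
        (2:ℝ)⁻¹ ^ k * ∑ e ∈ S, if e ∈ J then (2:ℝ) ^ ((S.erase e) ∩ J).card else 0 := by
      intro J
      split_ifs with h
      · have h4 : ∑ e ∈ S, (if e ∈ J then (2:ℝ) ^ ((S.erase e) ∩ J).card else 0) =
            ∑ e ∈ S ∩ J, (2:ℝ) ^ ((S ∩ J).card - 1) := by
          rw [← sum_filter, filter_mem_eq_inter]
          refine sum_congr rfl fun e he => ?_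
          rw [← card_erase_of_mem he, erase_inter]
        rw [h4, sum_const, nsmul_eq_mul]
        have h5 : (1:ℝ) ≤ (S ∩ J).card := by exact_mod_cast (Nat.zero_le k).trans_lt h
        have h6 : (2:ℝ) ^ k ≤ 2 ^ ((S ∩ J).card - 1) :=
          pow_le_pow_right₀ (by norm_num) (by omega)
        have h7 : (2:ℝ)⁻¹ ^ k * 2 ^ k = 1 := by rw [← mul_pow]; norm_num
        have h8 : (0:ℝ) < 2⁻¹ ^ k := by positivity
        calc (1:ℝ) = (2:ℝ)⁻¹ ^ k * 2 ^ k := h7.symm
          _ ≤ (2:ℝ)⁻¹ ^ k * ((S ∩ J).card * 2 ^ ((S ∩ J).card - 1)) := by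
              refine mul_le_mul_of_nonneg_left ?_ h8.le
              have h9 : (0:ℝ) < 2 ^ ((S ∩ J).card - 1) := by positivity
              nlinarith
      · refine mul_nonneg (by positivity) (sum_nonneg fun e _ => ?_)
        split_ifs
        · positivity
        · exact le_refl _
    refine (sum_le_sum fun J _ => mul_le_mul_of_nonneg_left (h3 J) (hw J)).trans (le_of_eq ?_)
    have h4 : ∀ J : Finset I, wJ ρ J * ((2:ℝ)⁻¹ ^ k *
        ∑ e ∈ S, if e ∈ J then (2:ℝ) ^ ((S.erase e) ∩ J).card else 0) =
        ∑ e ∈ S, (2:ℝ)⁻¹ ^ k * (wJ ρ J * if e ∈ J then (2:ℝ) ^ ((S.erase e) ∩ J).card else 0) := by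
      intro J
      rw [mul_sum, mul_sum]
      exact sum_congr rfl fun e _ => by ring
    rw [sum_congr rfl fun J _ => h4 J, sum_comm]
    simp only [← mul_sum]
    rw [sum_congr rfl h2, sum_const, nsmul_eq_mul]
  -- lower bound
  have hlow : S.card * (ρ * (1 - ρ) ^ (S.card - 1)) ≤
      ∑ J : Finset I, wJ ρ J * (if S ∩ J = ∅ then 0 else 1) := by
    have h2 : ∀ e ∈ S, ∑ J : Finset I, wJ ρ J * (if S ∩ J = {e} then 1 else 0) =
        ρ * (1 - ρ) ^ (S.card - 1) := by
      intro e he
      have h3 := sum_wJ_mul (I := I) ρ (fun i => if i = e then 1 else if i ∈ S then 0 else 1)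
        fun i => if i = e then 0 else 1
      have h4 : ∀ i : I, ρ * (if i = e then (1:ℝ) else if i ∈ S then 0 else 1) +
          (1 - ρ) * (if i = e then 0 else 1) = if i = e then ρ else if i ∈ S then 1 - ρ else 1 := by
        intro i
        split_ifs <;> ring
      rw [prod_congr rfl fun i _ => h4 i, prod_split S e he] at h3
      rw [← h3]
      refine sum_congr rfl fun J _ => ?_
      congr 1
      by_cases heJ : S ∩ J = {e}
      · rw [if_pos heJ]
        have he' : e ∈ J := (mem_inter.1 (heJ ▸ mem_singleton_self e)).2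
        have h5 : ∏ i ∈ univ \ J, (if i = e then (0:ℝ) else 1) = 1 := by
          refine prod_eq_one fun i hi => ?_
          rw [if_neg]
          rintro rfl
          exact (mem_sdiff.1 hi).2 he'
        have h6 : ∏ i ∈ J, (if i = e then (1:ℝ) else if i ∈ S then 0 else 1) = 1 := by
          refine prod_eq_one fun i hi => ?_
          split_ifs with h7 h8
          · rfl
          · exfalso
            apply h7
            have : i ∈ S ∩ J := mem_inter.2 ⟨h8, hi⟩
            rw [heJ, mem_singleton] at this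
            exact this
          · rfl
        rw [h5, h6, one_mul]
      · rw [if_neg heJ]
        by_cases he' : e ∈ J
        · have : ∃ i ∈ S ∩ J, i ≠ e := by
            by_contra hcon
            push Not at hcon
            apply heJ
            ext i
            rw [mem_singleton]
            exact ⟨hcon i, fun h => h ▸ mem_inter.2 ⟨he, he'⟩⟩
          obtain ⟨i, hi, hie⟩ := this
          have : ∏ i ∈ J, (if i = e then (1:ℝ) else if i ∈ S then 0 else 1) = 0 :=
            prod_eq_zero (mem_inter.1 hi).2 (by rw [if_neg hie, if_pos (mem_inter.1 hi).1])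
          rw [this, zero_mul]
        · have : ∏ i ∈ univ \ J, (if i = e then (0:ℝ) else 1) = 0 :=
            prod_eq_zero (mem_sdiff.2 ⟨mem_univ e, he'⟩) (if_pos rfl)
          rw [this, mul_zero]
    have h3 : ∀ J : Finset I, ∑ e ∈ S, (if S ∩ J = {e} then (1:ℝ) else 0) ≤
        if S ∩ J = ∅ then 0 else 1 := by
      intro J
      by_cases hJ : ∃ e, S ∩ J = {e}
      · obtain ⟨e, he⟩ := hJ
        have hne : S ∩ J ≠ ∅ := by rw [he]; exact singleton_ne_empty e
        rw [if_neg hne]
        have : ∀ e' ∈ S, (if S ∩ J = {e'} then (1:ℝ) else 0) = if e' = e then 1 else 0 := by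
          intro e' _
          rw [he]
          congr 1
          rw [eq_iff_iff, singleton_inj]
          exact eq_comm
        rw [sum_congr rfl this, sum_ite_eq']
        split_ifs <;> norm_num
      · have h4 : ∑ e ∈ S, (if S ∩ J = {e} then (1:ℝ) else 0) = 0 :=
          sum_eq_zero fun e _ => if_neg fun h => hJ ⟨e, h⟩
        rw [h4]
        split_ifs <;> norm_num
    calc S.card * (ρ * (1 - ρ) ^ (S.card - 1))
        = ∑ J : Finset I, wJ ρ J * ∑ e ∈ S, (if S ∩ J = {e} then (1:ℝ) else 0) := by
          simp only [mul_sum]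
          rw [sum_comm, sum_congr rfl h2, sum_const, nsmul_eq_mul]
      _ ≤ _ := sum_le_sum fun J _ => mul_le_mul_of_nonneg_left (h3 J) (hw J)
  -- the ratio
  have hr : (1 + ρ) ^ (S.card - 1) ≤ Real.exp (3 * ρ * d) * (1 - ρ) ^ (S.card - 1) := by
    have h2 : 1 + ρ ≤ Real.exp (3 * ρ) * (1 - ρ) := by
      have h3 : 1 + ρ ≤ Real.exp ρ := by have := Real.add_one_le_exp ρ; linarith
      have h4 : 1 ≤ Real.exp (2 * ρ) * (1 - ρ) := by
        have := Real.add_one_le_exp (2 * ρ)
        nlinarith
      have h5 : Real.exp (3 * ρ) = Real.exp ρ * Real.exp (2 * ρ) := by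
        rw [← Real.exp_add]; ring_nf
      rw [h5]
      have h6 := Real.exp_pos ρ
      nlinarith
    have h3 : (1 + ρ) ^ (S.card - 1) ≤ (Real.exp (3 * ρ) * (1 - ρ)) ^ (S.card - 1) :=
      pow_le_pow_left₀ (by linarith) h2 _
    rw [mul_pow, ← Real.exp_nat_mul] at h3
    refine h3.trans (mul_le_mul_of_nonneg_right ?_ (pow_nonneg (by linarith) _))
    rw [Real.exp_le_exp]
    have h4 : ((S.card - 1 : ℕ) : ℝ) ≤ d := by exact_mod_cast (Nat.sub_le _ _).trans hS
    nlinarith
  have h8 : (0:ℝ) < 2⁻¹ ^ k := by positivity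
  calc _ ≤ (2:ℝ)⁻¹ ^ k * (S.card * (ρ * (1 + ρ) ^ (S.card - 1))) := hup
    _ ≤ (2:ℝ)⁻¹ ^ k * (S.card * (ρ * (Real.exp (3 * ρ * d) * (1 - ρ) ^ (S.card - 1)))) := by
        gcongr
    _ = (2:ℝ)⁻¹ ^ k * Real.exp (3 * ρ * d) * (S.card * (ρ * (1 - ρ) ^ (S.card - 1))) := by ring
    _ ≤ _ := mul_le_mul_of_nonneg_left hlow (by positivity)

end Pool.Agent.L0h23.AA.Sym
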