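import Mathlib

/-!
# Random restrictions and decision trees: definitions
-/

set_option autoImplicit false

open Finset

namespace Pool.Agent.L0h23.AA.Sym

/-- The restriction of `f` to the subcube in which the coordinates outside `J` are fixed to those of `y`
(as a function on the whole cube, which depends only on the coordinates in `J`). -/
def restriction {I : Type} [DecidableEq I] (f : (I → Bool) → ℝ) (J : Finset I) (y : I → Bool) :
    (I → Bool) → ℝ :=
  fun x => f fun e => if e ∈ J then x e else y e

/-- The mean of `F J y` for a random restriction with survival probability `ρ`: every coordinate belongs to `J`
with probability `ρ`, independently, and `y` is a uniform point of the cube. -/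
noncomputable def restrictionMean {I : Type} [Fintype I] [DecidableEq I] (ρ : ℝ)
    (F : Finset I → (I → Bool) → ℝ) : ℝ :=
  ∑ J : Finset I, ρ ^ J.card * (1 - ρ) ^ (univ \ J).card *
    (((2:ℝ) ^ Fintype.card I)⁻¹ * ∑ y, F J y)

/-- A deterministic decision tree: a leaf with a real output, or a node which queries a coordinate and
continues with one of two trees. -/
inductive DecisionTree (I : Type) : Type where
  /-- a leaf with output `c` -/
  | leaf (c : ℝ) : DecisionTree I
  /-- query the coordinate `e` and continue with `s` if the answer is `false`, with `t` if it is `true` -/
  | node (e : I) (s t : DecisionTree I) : DecisionTree I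

/-- The output of the tree on the input `x`. -/
noncomputable def DecisionTree.output {I : Type} : DecisionTree I → (I → Bool) → ℝ
  | .leaf c, _ => c
  | .node e s t, x => if x e then t.output x else s.output x

/-- The depth of the tree: the maximal number of queries. -/
def DecisionTree.depth {I : Type} : DecisionTree I → ℕ
  | .leaf _ => 0
  | .node _ s t => max s.depth t.depth + 1

end Pool.Agent.L0h23.AA.Sym
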