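import Pool.Agent.L0h23.AA.RestrTree

/-!
# Random restrictions: the main estimates
-/

set_option autoImplicit false
set_option linter.unusedSectionVars false

open Finset

namespace Pool.Agent.L0h23.AA.Sym

variable {I : Type} [Fintype I] [DecidableEq I]

/-- mean over random restrictions -/
noncomputable def rm (ρ : ℝ) (F : Finset I → (I → Bool) → ℝ) : ℝ :=
  ∑ J : Finset I, wJ ρ J * mean (F J)

theorem rm_mono {ρ : ℝ} (h0 : 0 ≤ ρ) (h1 : ρ ≤ 1) {F G : Finset I → (I → Bool) → ℝ}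
    (h : ∀ J y, F J y ≤ G J y) : rm ρ F ≤ rm ρ G :=
  sum_le_sum fun J _ => mul_le_mul_of_nonneg_left (mean_mono (h J)) (wJ_nonneg h0 h1 J)

theorem rm_smul (ρ c : ℝ) (F : Finset I → (I → Bool) → ℝ) :
    rm ρ (fun J y => c * F J y) = c * rm ρ F := by
  unfold rm
  rw [mul_sum]
  refine sum_congr rfl fun J _ => ?_
  rw [mean_smul]
  ring

theorem rm_add (ρ : ℝ) (F G : Finset I → (I → Bool) → ℝ) :
    rm ρ (fun J y => F J y + G J y) = rm ρ F + rm ρ G := by
  unfold rm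
  rw [← sum_add_distrib]
  refine sum_congr rfl fun J _ => ?_
  rw [mean_add]
  ring

theorem rm_const (ρ c : ℝ) : rm (I := I) ρ (fun _ _ => c) = c := by
  unfold rm
  simp only [mean_const]
  rw [← sum_mul, sum_wJ, one_mul]

theorem rm_weight (ρ : ℝ) (f : (I → Bool) → ℝ) (ω : Finset I → ℝ) :
    rm ρ (fun J y => ∑ T, ω T * coef (rst f J y) T ^ 2) =
      ∑ S, (∑ J, wJ ρ J * ω (S ∩ J)) * coef f S ^ 2 := by
  unfold rm
  simp only [mean_weight_rst, mul_sum, sum_mul]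
  rw [sum_comm]
  exact sum_congr rfl fun S _ => sum_congr rfl fun J _ => by ring

theorem Vr_eq (f : (I → Bool) → ℝ) : Vr f = ∑ T, (if T = ∅ then 0 else 1) * coef f T ^ 2 := by
  unfold Vr
  have h : (univ.erase (∅ : Finset I)) = univ.filter fun T => ¬ T = ∅ := by
    ext S; simp
  rw [h, sum_filter]
  refine sum_congr rfl fun T _ => ?_
  split_ifs with h1
  · simp
  · simp

/-- **The expected tail of a random restriction.** -/
theorem rm_Tl {f : (I → Bool) → ℝ} {d : ℕ} (hdeg : ∀ S : Finset I, d < S.card → coef f S = 0)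
    {ρ : ℝ} (h0 : 0 < ρ) (h1 : ρ ≤ 1 / 2) (k : ℕ) :
    rm ρ (fun J y => Tl k (rst f J y)) ≤
      (2:ℝ)⁻¹ ^ k * Real.exp (3 * ρ * d) * rm ρ fun J y => Vr (rst f J y) := by
  simp only [Vr_eq]
  unfold Tl
  rw [rm_weight ρ f fun T => if k < T.card then 1 else 0, rm_weight ρ f fun T => if T = ∅ then 0 else 1,
    mul_sum]
  refine sum_le_sum fun S _ => ?_
  by_cases hS : d < S.card
  · rw [hdeg S hS]
    simp
  · have h := tail_le h0 h1 d k S (not_lt.1 hS)
    have h2 := mul_le_mul_of_nonneg_right h (sq_nonneg (coef f S))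
    linarith

theorem rm_Vr_le {f : (I → Bool) → ℝ} (hb : ∀ x, |f x| ≤ 1) {ρ : ℝ} (h0 : 0 ≤ ρ) (h1 : ρ ≤ 1) :
    rm ρ (fun J y => Vr (rst f J y)) ≤ 1 := by
  have h := rm_mono h0 h1 (F := fun J y => Vr (rst f J y)) (G := fun _ _ => 1)
    fun J y => Vr_le_one fun x => hb _
  rwa [rm_const] at h

theorem rm_Vr_nonneg (f : (I → Bool) → ℝ) {ρ : ℝ} (h0 : 0 ≤ ρ) (h1 : ρ ≤ 1) :
    0 ≤ rm ρ (fun J y => Vr (rst f J y)) := by
  have h := rm_mono h0 h1 (F := fun _ _ => 0) (G := fun J y => Vr (rst f J y))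
    fun J y => Vr_nonneg _
  rwa [rm_const] at h

/-- functions which do not depend on the coordinates outside `J` -/
theorem mix_indep (h : (I → Bool) → ℝ) (J : Finset I) (hJ : ∀ i, i ∉ J → ∀ x, h (flipI i x) = h x)
    (x y : I → Bool) : h (mix J x y) = h x := by
  rw [inversion h (mix J x y), inversion h x]
  refine sum_congr rfl fun S _ => ?_
  by_cases hS : S ⊆ J
  · rw [ch_mix, inter_eq_left.2 hS, sdiff_eq_empty_iff_subset.2 hS]
    simp [ch]
  · obtain ⟨i, hi, hiJ⟩ := not_subset.1 hS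
    rw [coef_eq_zero_of_indep h S i hi (hJ i hiJ)]
    simp

/-- **All but an `ε`-fraction of the expected variance.** -/
theorem almost_all {f : (I → Bool) → ℝ} (hb : ∀ x, |f x| ≤ 1) {d : ℕ} (hd : 1 ≤ d)
    (hdeg : ∀ S : Finset I, d < S.card → coef f S = 0) [Nonempty I]
    {ρ : ℝ} (h0 : 0 < ρ) (h1 : ρ ≤ 1 / 2) {ε : ℝ} (hε : 0 < ε) (hε1 : ε ≤ 1)
    (G : Finset I → (I → Bool) → ℝ)
    (hG : ∀ J y, (∃ e, ε ^ 4 / (4096 * Real.exp (12 * ρ * d) * (d:ℝ) ^ 4) * Vr (rst f J y) ^ 2 ≤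
      mean fun x => Dv e (rst f J y) x ^ 2) → G J y = 0)
    (hG' : ∀ J y, G J y ≤ Vr (rst f J y)) :
    rm ρ G ≤ ε * rm ρ fun J y => Vr (rst f J y) := by
  set E := Real.exp (3 * ρ * d) with hE
  have hE0 : 0 < E := Real.exp_pos _
  have hE1 : 1 ≤ E := by rw [hE, ← Real.exp_zero, Real.exp_le_exp]; positivity
  set X := 2 * E / ε with hX
  have hX1 : 1 ≤ X := by
    rw [hX, le_div_iff₀ hε]
    linarith
  obtain ⟨n, hn1, hn2⟩ := exists_nat_pow_near hX1 (by norm_num : (1:ℝ) < 2)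
  set k := n + 1 with hk
  have hk1 : X ≤ 2 ^ k := hn2.le
  have hk2 : (2:ℝ) ^ k ≤ 2 * X := by rw [hk, pow_succ]; linarith
  have hd0 : (0:ℝ) < d := by exact_mod_cast hd
  have h9 : (9:ℝ) ^ k ≤ 256 * E ^ 4 / ε ^ 4 := by
    have e16 : (16:ℝ) ^ k = ((2:ℝ) ^ k) ^ 4 := by
      rw [← pow_mul, mul_comm, pow_mul]; norm_num
    calc (9:ℝ) ^ k ≤ 16 ^ k := pow_le_pow_left₀ (by norm_num) (by norm_num) k
      _ = ((2:ℝ) ^ k) ^ 4 := e16
      _ ≤ (2 * X) ^ 4 := pow_le_pow_left₀ (by positivity) hk2 4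
      _ = _ := by rw [hX]; field_simp; ring
  have hE12 : Real.exp (12 * ρ * d) = E ^ 4 := by
    rw [hE, ← Real.exp_nat_mul]; congr 1; push_cast; ring
  have hpt : ∀ J y, G J y ≤ 2 * Tl k (rst f J y) := by
    intro J y
    set g := rst f J y with hg
    set V := Vr g with hV
    have hV0 : 0 ≤ V := Vr_nonneg g
    have hT0 : 0 ≤ Tl k g := Tl_nonneg k g
    by_cases hbad : ∃ e, ε ^ 4 / (4096 * Real.exp (12 * ρ * d) * (d:ℝ) ^ 4) * V ^ 2 ≤
      mean fun x => Dv e g x ^ 2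
    · rw [hG J y hbad]
      positivity
    · push Not at hbad
      refine (hG' J y).trans ?_
      by_contra hcon
      push Not at hcon
      set c := ε ^ 4 / (4096 * Real.exp (12 * ρ * d) * (d:ℝ) ^ 4) with hc
      have hc0 : 0 < c := by positivity
      have h2 := Vr_le (f := g) (fun x => hb _) (fun S hS => coef_rst_deg hdeg J y S hS) k
        (c * V ^ 2) (by positivity) fun e => (hbad e).le
      have h3 : 2 * (d:ℝ) ^ 2 * 3 ^ k * √(c * V ^ 2) ≤ V / 2 := by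
        refine le_of_abs_le (abs_le_of_sq_le_sq ?_ (by positivity))
        have e1 : √(c * V ^ 2) ^ 2 = c * V ^ 2 := Real.sq_sqrt (by positivity)
        have e2 : ((3:ℝ) ^ k) ^ 2 = 9 ^ k := by
          rw [← pow_mul, mul_comm k 2, pow_mul]; norm_num
        calc (2 * (d:ℝ) ^ 2 * 3 ^ k * √(c * V ^ 2)) ^ 2
            = 4 * (d:ℝ) ^ 4 * ((3:ℝ) ^ k) ^ 2 * √(c * V ^ 2) ^ 2 := by ring
          _ = 4 * (d:ℝ) ^ 4 * 9 ^ k * (c * V ^ 2) := by rw [e1, e2]
          _ ≤ 4 * (d:ℝ) ^ 4 * (256 * E ^ 4 / ε ^ 4) * (c * V ^ 2) := by gcongr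
          _ = (V / 2) ^ 2 := by rw [hc, hE12]; field_simp; ring
      linarith
  have h2 := rm_mono h0.le (by linarith) hpt
  rw [rm_smul] at h2
  have h3 := rm_Tl hdeg h0 h1 k
  have h4 := rm_Vr_nonneg f h0.le (by linarith : ρ ≤ 1)
  have h5 : (2:ℝ)⁻¹ ^ k * E ≤ ε / 2 := by
    rw [inv_pow, inv_mul_le_iff₀ (by positivity)]
    have : X * (ε / 2) = E := by rw [hX]; field_simp
    nlinarith
  have h6 := mul_le_mul_of_nonneg_right h5 h4
  linarith

/-- **Decision trees for random restrictions.** -/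
theorem trees {f : (I → Bool) → ℝ} (hb : ∀ x, |f x| ≤ 1) {d : ℕ} (hd : 1 ≤ d)
    (hdeg : ∀ S : Finset I, d < S.card → coef f S = 0)
    {ρ : ℝ} (h0 : 0 < ρ) (h1 : ρ ≤ 1 / 2) {ε : ℝ} (hε : 0 < ε) (hε1 : ε ≤ 1) (D : ℕ)
    (hD : 139968 * (d:ℝ) ^ 5 * Real.exp (12 * ρ * d) / ε ^ 7 ≤ D) :
    ∃ T : Finset I → (I → Bool) → DecisionTree I,
      (∀ J a b, (∀ e, e ∉ J → a e = b e) → T J a = T J b) ∧ (∀ J a, (T J a).depth ≤ D) ∧
      rm ρ (fun J a => (f a - (T J a).output a) ^ 2) ≤ ε := by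
  set E := Real.exp (3 * ρ * d) with hE
  have hE0 : 0 < E := Real.exp_pos _
  have hE1 : 1 ≤ E := by rw [hE, ← Real.exp_zero, Real.exp_le_exp]; positivity
  set X := 3 * E / ε with hX
  have hX1 : 1 ≤ X := by
    rw [hX, le_div_iff₀ hε]
    linarith
  obtain ⟨n, hn1, hn2⟩ := exists_nat_pow_near hX1 (by norm_num : (1:ℝ) < 2)
  set k := n + 1 with hk
  have hk1 : X ≤ 2 ^ k := hn2.le
  have hk2 : (2:ℝ) ^ k ≤ 2 * X := by rw [hk, pow_succ]; linarith
  have hd0 : (0:ℝ) < d := by exact_mod_cast hd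
  have h9 : (9:ℝ) ^ k ≤ 1296 * E ^ 4 / ε ^ 4 := by
    have e16 : (16:ℝ) ^ k = ((2:ℝ) ^ k) ^ 4 := by
      rw [← pow_mul, mul_comm, pow_mul]; norm_num
    calc (9:ℝ) ^ k ≤ 16 ^ k := pow_le_pow_left₀ (by norm_num) (by norm_num) k
      _ = ((2:ℝ) ^ k) ^ 4 := e16
      _ ≤ (2 * X) ^ 4 := pow_le_pow_left₀ (by positivity) hk2 4
      _ = _ := by rw [hX]; field_simp; ring
  have hE12 : Real.exp (12 * ρ * d) = E ^ 4 := by
    rw [hE, ← Real.exp_nat_mul]; congr 1; push_cast; ring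
  set η := (ε / (6 * (d:ℝ) ^ 2 * 3 ^ k)) ^ 2 with hη
  have hη0 : 0 < η := by positivity
  have hsη : √η = ε / (6 * (d:ℝ) ^ 2 * 3 ^ k) := Real.sqrt_sq (by positivity)
  have hβ : 2 * (d:ℝ) ^ 2 * 3 ^ k * √η = ε / 3 := by
    rw [hsη]; field_simp; norm_num
  have hDpos : (0:ℝ) < D := lt_of_lt_of_le (by positivity) hD
  have hDη : (d:ℝ) ≤ ε / 3 * (η * D) := by
    have e2 : ((3:ℝ) ^ k) ^ 2 = 9 ^ k := by
      rw [← pow_mul, mul_comm k 2, pow_mul]; norm_num
    have e3 : η = ε ^ 2 / (36 * (d:ℝ) ^ 4 * 9 ^ k) := by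
      rw [hη, div_pow, mul_pow, mul_pow, e2]; ring
    have h2 : (d:ℝ) * (108 * (d:ℝ) ^ 4 * 9 ^ k / ε ^ 3) ≤ D := by
      refine le_trans ?_ hD
      rw [hE12]
      calc (d:ℝ) * (108 * (d:ℝ) ^ 4 * 9 ^ k / ε ^ 3)
          ≤ (d:ℝ) * (108 * (d:ℝ) ^ 4 * (1296 * E ^ 4 / ε ^ 4) / ε ^ 3) := by gcongr
        _ = _ := by field_simp; ring
    rw [e3]
    have h3 : ε / 3 * (ε ^ 2 / (36 * (d:ℝ) ^ 4 * 9 ^ k) * D) = D / (108 * (d:ℝ) ^ 4 * 9 ^ k / ε ^ 3) := by
      field_simp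
      ring
    rw [h3, le_div_iff₀ (by positivity)]
    exact h2
  classical
  -- the tree of a function
  let Tf : ((I → Bool) → ℝ) → DecisionTree I := fun g =>
    if h : (∀ x, |g x| ≤ 1) ∧ (∀ S : Finset I, d < S.card → coef g S = 0) then
      Classical.choose (exists_tree k η hη0 D g h.1 h.2) else .leaf 0
  have hTf : ∀ J y, (Tf (rst f J y)).depth ≤ D ∧
      (∀ i, (∀ x, rst f J y (flipI i x) = rst f J y x) →
        ∀ x, (Tf (rst f J y)).output (flipI i x) = (Tf (rst f J y)).output x) ∧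
      (mean fun x => (rst f J y x - (Tf (rst f J y)).output x) ^ 2) ≤ Tl k (rst f J y) + 2 * (ε / 3) := by
    intro J y
    have hcond : (∀ x, |rst f J y x| ≤ 1) ∧
        (∀ S : Finset I, d < S.card → coef (rst f J y) S = 0) :=
      ⟨fun x => hb _, fun S hS => coef_rst_deg hdeg J y S hS⟩
    have e : Tf (rst f J y) = Classical.choose (exists_tree k η hη0 D (rst f J y) hcond.1 hcond.2) :=
      dif_pos hcond
    obtain ⟨p1, p2, _, p4⟩ := Classical.choose_spec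
      (exists_tree k η hη0 D (rst f J y) hcond.1 hcond.2)
    rw [← e] at p1 p2 p4
    refine ⟨p1, p2, ?_⟩
    have h2 := Ti_le hcond.1 hcond.2
    rw [hβ] at p4
    have h3 : ((mean fun x => (rst f J y x - (Tf (rst f J y)).output x) ^ 2) - Tl k (rst f J y) -
        ε / 3) * (η * D) ≤ ε / 3 * (η * D) := p4.trans (h2.trans hDη)
    have h4 := le_of_mul_le_mul_right h3 (by positivity)
    linarith
  have hrst : ∀ J (a b : I → Bool), (∀ e, e ∉ J → a e = b e) → rst f J a = rst f J b := by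
    intro J a b hab
    funext x
    unfold rst
    congr 1
    funext e
    unfold mix
    split_ifs with h
    · rfl
    · exact hab e h
  refine ⟨fun J a => Tf (rst f J a), fun J a b hab => ?_, fun J a => (hTf J a).1, ?_⟩
  · show Tf (rst f J a) = Tf (rst f J b)
    rw [hrst J a b hab]
  · have h2 : rm ρ (fun J a => (f a - (Tf (rst f J a)).output a) ^ 2) ≤
        rm ρ fun J y => Tl k (rst f J y) + 2 * (ε / 3) := by
      unfold rm
      refine sum_le_sum fun J _ => mul_le_mul_of_nonneg_left ?_ (wJ_nonneg h0.le (by linarith) J)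
      rw [← mean_mix _ J]
      refine mean_mono fun y => ?_
      refine le_trans (le_of_eq ?_) (hTf J y).2.2
      congr 1
      funext x
      have e1 : rst f J (mix J x y) = rst f J y := hrst J _ _ fun e he => by
        unfold mix; rw [if_neg he]
      have e2 : (Tf (rst f J y)).output (mix J x y) = (Tf (rst f J y)).output x := by
        refine mix_indep _ J (fun i hi z => (hTf J y).2.1 i (fun x => ?_) z) x y
        unfold rst
        congr 1
        funext e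
        unfold mix flipI
        split_ifs with he
        · rw [Function.update_of_ne]
          rintro rfl
          exact hi he
        · rfl
      show (f (mix J x y) - (Tf (rst f J (mix J x y))).output (mix J x y)) ^ 2 = _
      rw [e1, e2]
      rfl
    refine h2.trans ?_
    rw [rm_add, rm_const]
    have h3 := rm_Tl hdeg h0 h1 k
    have h4 := rm_Vr_nonneg f h0.le (by linarith : ρ ≤ 1)
    have h4' := rm_Vr_le hb h0.le (by linarith : ρ ≤ 1)
    have h5 : (2:ℝ)⁻¹ ^ k * E ≤ ε / 3 := by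
      rw [inv_pow, inv_mul_le_iff₀ (by positivity)]
      have : X * (ε / 3) = E := by rw [hX]; field_simp
      nlinarith
    have h6 : (2:ℝ)⁻¹ ^ k * E * rm ρ (fun J y => Vr (rst f J y)) ≤ ε / 3 * 1 :=
      mul_le_mul h5 h4' h4 (by positivity)
    linarith

end Pool.Agent.L0h23.AA.Sym
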