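import Pool.Agent.L0h23.AA.Restr
import Pool.Agent.L0h23.AA.RestrDefs

/-!
# Functions with small Fourier tails are approximated by decision trees
-/

set_option autoImplicit false
set_option linter.unusedSectionVars false

open Finset

namespace Pool.Agent.L0h23.AA.Sym

variable {I : Type} [Fintype I] [DecidableEq I]

/-- variance -/
noncomputable def Vr (f : (I → Bool) → ℝ) : ℝ := ∑ S ∈ univ.erase (∅ : Finset I), coef f S ^ 2

/-- tail -/
noncomputable def Tl (k : ℕ) (f : (I → Bool) → ℝ) : ℝ :=
  ∑ S : Finset I, (if k < S.card then 1 else 0) * coef f S ^ 2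

/-- total influence -/
noncomputable def Ti (f : (I → Bool) → ℝ) : ℝ := ∑ S : Finset I, (S.card : ℝ) * coef f S ^ 2

theorem Tl_nonneg (k : ℕ) (f : (I → Bool) → ℝ) : 0 ≤ Tl k f :=
  sum_nonneg fun _ _ => mul_nonneg (by split_ifs <;> norm_num) (sq_nonneg _)

theorem Ti_nonneg (f : (I → Bool) → ℝ) : 0 ≤ Ti f :=
  sum_nonneg fun _ _ => mul_nonneg (Nat.cast_nonneg _) (sq_nonneg _)

theorem Vr_nonneg (f : (I → Bool) → ℝ) : 0 ≤ Vr f := sum_nonneg fun _ _ => sq_nonneg _

theorem mean_sq_le_one {f : (I → Bool) → ℝ} (hb : ∀ x, |f x| ≤ 1) : (mean fun x => f x ^ 2) ≤ 1 := by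
  have h := mean_mono (f := fun x => f x ^ 2) (g := fun _ => 1) fun x => by
    have := hb x
    rw [← sq_abs]
    exact pow_le_one₀ (abs_nonneg _) this
  rwa [mean_const] at h

theorem Vr_le_one {f : (I → Bool) → ℝ} (hb : ∀ x, |f x| ≤ 1) : Vr f ≤ 1 := by
  unfold Vr
  rw [← var_eq]
  have := mean_sq_le_one hb
  nlinarith [sq_nonneg (mean f)]

theorem mean_sub_sq (f : (I → Bool) → ℝ) : (mean fun x => (f x - mean f) ^ 2) = Vr f := by
  unfold Vr
  rw [← var_eq]
  have h : (fun x => (f x - mean f) ^ 2) = fun x => f x ^ 2 + ((-2 * mean f) * f x + (mean f) ^ 2) := by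
    funext x; ring
  rw [h, mean_add, mean_add, mean_smul, mean_const]
  ring

theorem Ti_le {f : (I → Bool) → ℝ} (hb : ∀ x, |f x| ≤ 1) {d : ℕ}
    (hdeg : ∀ S : Finset I, d < S.card → coef f S = 0) : Ti f ≤ d := by
  have h1 : Ti f ≤ ∑ S : Finset I, (d:ℝ) * coef f S ^ 2 := by
    refine sum_le_sum fun S _ => ?_
    by_cases h : d < S.card
    · rw [hdeg S h]; simp
    · push Not at h
      exact mul_le_mul_of_nonneg_right (by exact_mod_cast h) (sq_nonneg _)
  rw [← mul_sum] at h1
  have h2 : ∑ S : Finset I, coef f S ^ 2 ≤ 1 := by
    have h3 := parseval f f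
    have h4 : ∑ S : Finset I, coef f S ^ 2 = mean fun x => f x ^ 2 := by
      have : (fun x => f x ^ 2) = fun x => f x * f x := by funext x; ring
      rw [this, h3]
      exact sum_congr rfl fun S _ => by ring
    rw [h4]
    exact mean_sq_le_one hb
  have h5 : (0:ℝ) ≤ d := Nat.cast_nonneg d
  nlinarith

/-- the variance of a bounded function with small influences lies on high levels -/
theorem Vr_le {f : (I → Bool) → ℝ} (hb : ∀ x, |f x| ≤ 1) {d : ℕ}
    (hdeg : ∀ S : Finset I, d < S.card → coef f S = 0) (k : ℕ) (η : ℝ) (hη : 0 ≤ η)
    (hinf : ∀ e, (mean fun x => Dv e f x ^ 2) ≤ η) :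
    Vr f ≤ Tl k f + 2 * d ^ 2 * 3 ^ k * √η := by
  have h := weight_le hb hdeg (k := k) (t := 1) le_rfl
    (univ.filter fun S : Finset I => S ≠ ∅ ∧ S.card ≤ k)
    (fun S hS => nonempty_iff_ne_empty.2 (mem_filter.1 hS).2.1) (fun K hK => by
      refine le_trans (card_le_card (t := {K}) ?_) (card_singleton K).le
      intro S hS
      obtain ⟨h1, h2⟩ := mem_filter.1 hS
      rw [mem_singleton]
      exact (eq_of_subset_of_card_le h2 (by rw [hK]; exact (mem_filter.1 h1).2.2)).symm)
    (√η) (Real.sqrt_nonneg _) (fun e => by rw [Real.sq_sqrt hη]; exact hinf e)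
  rw [Nat.cast_one, Real.sqrt_one, one_mul] at h
  have h2 : Vr f ≤ Tl k f +
      ∑ S ∈ univ.filter (fun S : Finset I => S ≠ ∅ ∧ S.card ≤ k), coef f S ^ 2 := by
    unfold Vr Tl
    rw [sum_filter, ← sum_add_distrib, ← sum_filter_add_sum_filter_not univ (fun S => S = ∅)]
    have h3 : (univ.filter fun S : Finset I => ¬ S = ∅) = univ.erase ∅ := by
      ext S; simp
    rw [h3]
    refine le_add_of_nonneg_of_le (sum_nonneg fun S _ => ?_) (sum_le_sum fun S hS => ?_)
    · have := sq_nonneg (coef f S)
      split_ifs <;> nlinarith
    · have h4 := (mem_erase.1 hS).1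
      have := sq_nonneg (coef f S)
      by_cases h5 : k < S.card
      · rw [if_pos h5]
        split_ifs <;> nlinarith
      · have h6 : S ≠ ∅ ∧ S.card ≤ k := ⟨h4, not_lt.1 h5⟩
        rw [if_neg h5, if_pos h6]
        linarith
  linarith

/-- fix one coordinate -/
noncomputable def fixc (f : (I → Bool) → ℝ) (i : I) (b : Bool) : (I → Bool) → ℝ :=
  rst f (univ.erase i) fun _ => b

theorem rst_erase (f : (I → Bool) → ℝ) (i : I) (y : I → Bool) :
    rst f (univ.erase i) y = fixc f i (y i) := by
  funext x
  unfold fixc rst
  congr 1
  funext e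
  unfold mix
  by_cases h : e = i
  · subst h; simp
  · simp [h]

theorem fixc_apply (f : (I → Bool) → ℝ) (i : I) (b : Bool) (x : I → Bool) :
    fixc f i b x = f (Function.update x i b) := by
  unfold fixc rst
  congr 1
  funext e
  unfold mix
  by_cases h : e = i
  · subst h; simp
  · simp [h]

theorem mean_coord (i : I) (G : Bool → ℝ) :
    (mean fun y : I → Bool => G (y i)) = (G true + G false) / 2 := by
  have h1 : (mean fun y : I → Bool => G (y i)) = mean fun y : I → Bool => G (!y i) := by
    rw [← mean_equiv (flipIEquiv i) (fun y : I → Bool => G (y i))]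
    congr 1
    funext y
    show G (flipI i y i) = _
    unfold flipI
    rw [Function.update_self]
  have h2 : (mean fun y : I → Bool => G (y i)) + (mean fun y : I → Bool => G (!y i)) =
      G true + G false := by
    rw [← mean_add]
    have : (fun y : I → Bool => G (y i) + G (!y i)) = fun _ => G true + G false := by
      funext y
      cases y i
      · show G false + G true = _
        ring
      · rfl
    rw [this, mean_const]
  linarith

theorem weight_fixc (f : (I → Bool) → ℝ) (i : I) (ω : Finset I → ℝ) :
    ((∑ T, ω T * coef (fixc f i true) T ^ 2) + ∑ T, ω T * coef (fixc f i false) T ^ 2) / 2 =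
      ∑ S, ω (S.erase i) * coef f S ^ 2 := by
  have h := mean_weight_rst f (univ.erase i) ω
  simp only [rst_erase] at h
  rw [mean_coord i fun b => ∑ T, ω T * coef (fixc f i b) T ^ 2] at h
  rw [h]
  refine sum_congr rfl fun S _ => ?_
  congr 2
  ext e
  simp only [mem_inter, mem_erase, mem_univ, and_true]
  tauto

theorem Tl_fixc (f : (I → Bool) → ℝ) (i : I) (k : ℕ) :
    (Tl k (fixc f i true) + Tl k (fixc f i false)) / 2 ≤ Tl k f := by
  unfold Tl
  rw [weight_fixc f i fun S => if k < S.card then 1 else 0]
  refine sum_le_sum fun S _ => mul_le_mul_of_nonneg_right ?_ (sq_nonneg _)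
  have h : (S.erase i).card ≤ S.card := card_le_card (erase_subset _ _)
  by_cases h1 : k < (S.erase i).card
  · rw [if_pos h1, if_pos (h1.trans_le h)]
  · rw [if_neg h1]
    split_ifs <;> norm_num

theorem Ti_fixc (f : (I → Bool) → ℝ) (i : I) :
    (Ti (fixc f i true) + Ti (fixc f i false)) / 2 = Ti f - mean fun x => Dv i f x ^ 2 := by
  unfold Ti
  rw [weight_fixc f i fun S => (S.card : ℝ), inf_eq, sum_filter, ← sum_sub_distrib]
  refine sum_congr rfl fun S _ => ?_
  split_ifs with h
  · rw [card_erase_of_mem h, Nat.cast_sub (card_pos.2 ⟨i, h⟩)]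
    push_cast
    ring
  · rw [erase_eq_of_notMem h]; ring

theorem mean_split (i : I) (h : (I → Bool) → ℝ) :
    mean h = ((mean fun x => h (Function.update x i true)) +
      mean fun x => h (Function.update x i false)) / 2 := by
  have h1 : mean h = mean fun x => h (flipI i x) := (mean_equiv (flipIEquiv i) h).symm
  have h2 : mean h + (mean fun x => h (flipI i x)) = (mean fun x => h (Function.update x i true)) +
      mean fun x => h (Function.update x i false) := by
    rw [← mean_add, ← mean_add]
    congr 1
    funext x
    unfold flipI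
    cases hx : x i
    · have e1 : Function.update x i false = x := by rw [← hx, Function.update_eq_self]
      rw [e1]
      simp only [Bool.not_false]
      ring
    · have e1 : Function.update x i true = x := by rw [← hx, Function.update_eq_self]
      rw [e1]
      simp only [Bool.not_true]
  linarith

/-- **The greedy tree.** -/
theorem exists_tree {d : ℕ} (k : ℕ) (η : ℝ) (hη : 0 < η) (D : ℕ) : ∀ (f : (I → Bool) → ℝ),
    (∀ x, |f x| ≤ 1) → (∀ S : Finset I, d < S.card → coef f S = 0) →
    ∃ T : DecisionTree I, T.depth ≤ D ∧
      (∀ i, (∀ x, f (flipI i x) = f x) → ∀ x, T.output (flipI i x) = T.output x) ∧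
      (mean fun x => (f x - T.output x) ^ 2) ≤ 1 ∧
      ((mean fun x => (f x - T.output x) ^ 2) - Tl k f - 2 * d ^ 2 * 3 ^ k * √η) * (η * D) ≤ Ti f := by
  induction D with
  | zero =>
    intro f hb _
    refine ⟨.leaf (mean f), le_rfl, fun _ _ _ => rfl, ?_, ?_⟩
    · show (mean fun x => (f x - mean f) ^ 2) ≤ 1
      rw [mean_sub_sq]
      exact Vr_le_one hb
    · rw [Nat.cast_zero, mul_zero, mul_zero]
      exact Ti_nonneg f
  | succ D ih =>
    intro f hb hdeg
    by_cases hinf : ∀ e, (mean fun x => Dv e f x ^ 2) ≤ η
    · refine ⟨.leaf (mean f), Nat.zero_le _, fun _ _ _ => rfl, ?_, ?_⟩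
      · show (mean fun x => (f x - mean f) ^ 2) ≤ 1
        rw [mean_sub_sq]
        exact Vr_le_one hb
      · have h1 := Vr_le hb hdeg k η hη.le hinf
        have h2 : (mean fun x => (f x - (DecisionTree.leaf (mean f) : DecisionTree I).output x) ^ 2) = Vr f :=
          mean_sub_sq f
        rw [h2]
        refine le_trans ?_ (Ti_nonneg f)
        refine mul_nonpos_of_nonpos_of_nonneg (by linarith) (by positivity)
    · push Not at hinf
      obtain ⟨i, hi⟩ := hinf
      have hbf : ∀ b x, |fixc f i b x| ≤ 1 := fun b x => by rw [fixc_apply]; exact hb _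
      have hdf : ∀ b, ∀ S : Finset I, d < S.card → coef (fixc f i b) S = 0 :=
        fun b S hS => coef_rst_deg hdeg _ _ S hS
      obtain ⟨T1, hT1d, hT1i, hT1o, hT1⟩ := ih (fixc f i true) (hbf true) (hdf true)
      obtain ⟨T0, hT0d, hT0i, hT0o, hT0⟩ := ih (fixc f i false) (hbf false) (hdf false)
      have hinv : ∀ b, ∀ x, fixc f i b (flipI i x) = fixc f i b x := by
        intro b x
        rw [fixc_apply, fixc_apply]
        congr 1
        unfold flipI
        rw [Function.update_idem]
      have hupd : ∀ (T : DecisionTree I) (x : I → Bool) (b : Bool),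
          (∀ x, T.output (flipI i x) = T.output x) → T.output (Function.update x i b) = T.output x := by
        intro T x b hT
        by_cases h : x i = b
        · rw [← h, Function.update_eq_self]
        · have : Function.update x i b = flipI i x := by
            unfold flipI
            congr 1
            cases hx : x i <;> cases b <;> simp_all
          rw [this, hT]
      have herr : (mean fun x => (f x - (DecisionTree.node i T0 T1).output x) ^ 2) =
          ((mean fun x => (fixc f i true x - T1.output x) ^ 2) +
            mean fun x => (fixc f i false x - T0.output x) ^ 2) / 2 := by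
        rw [mean_split i]
        congr 2
        · congr 1
          funext x
          have : (DecisionTree.node i T0 T1).output (Function.update x i true) =
              T1.output (Function.update x i true) := by
            show (if Function.update x i true i then _ else _) = _
            rw [Function.update_self]
            rfl
          rw [this, hupd T1 x true (hT1i i (hinv true)), fixc_apply]
        · congr 1
          funext x
          have : (DecisionTree.node i T0 T1).output (Function.update x i false) =
              T0.output (Function.update x i false) := by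
            show (if Function.update x i false i then _ else _) = _
            rw [Function.update_self]
            rfl
          rw [this, hupd T0 x false (hT0i i (hinv false)), fixc_apply]
      refine ⟨.node i T0 T1, ?_, ?_, ?_, ?_⟩
      · show max T0.depth T1.depth + 1 ≤ D + 1
        exact Nat.succ_le_succ (max_le hT0d hT1d)
      · intro j hj x
        have hij : i ≠ j := by
          rintro rfl
          have : (mean fun x => Dv i f x ^ 2) = 0 := by
            have h0 : (fun x => Dv i f x ^ 2) = fun _ => 0 := by
              funext x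
              unfold Dv
              rw [hj x, sub_self]
              norm_num
            rw [h0, mean_const]
          linarith
        have hb' : ∀ b, ∀ x, fixc f i b (flipI j x) = fixc f i b x := by
          intro b x
          rw [fixc_apply, fixc_apply]
          have : Function.update (flipI j x) i b = flipI j (Function.update x i b) := by
            unfold flipI
            rw [Function.update_of_ne (Ne.symm hij), Function.update_comm hij.symm]
          rw [this, hj]
        show (if flipI j x i then T1.output (flipI j x) else T0.output (flipI j x)) =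
          if x i then T1.output x else T0.output x
        rw [hT1i j (hb' true), hT0i j (hb' false)]
        have : flipI j x i = x i := by
          unfold flipI
          rw [Function.update_of_ne hij]
        rw [this]
      · rw [herr]
        linarith
      · rw [herr]
        set e1 := mean fun x => (fixc f i true x - T1.output x) ^ 2
        set e0 := mean fun x => (fixc f i false x - T0.output x) ^ 2
        set β := 2 * (d:ℝ) ^ 2 * 3 ^ k * √η
        have hβ : 0 ≤ β := by positivity
        have ht := Tl_fixc f i k
        have hi' := Ti_fixc f i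
        have hT := Tl_nonneg k f
        push_cast
        have hηD : 0 ≤ η * D := by positivity
        have h1 : ((e1 + e0) / 2 - Tl k f - β) * (η * D) ≤ Ti f - η := by
          have h2 : ((e1 + e0) / 2 - Tl k f - β) * (η * D) ≤
              ((e1 - Tl k (fixc f i true) - β) * (η * D) +
                (e0 - Tl k (fixc f i false) - β) * (η * D)) / 2 := by
            have h3 : (e1 + e0) / 2 - Tl k f - β ≤
                ((e1 - Tl k (fixc f i true) - β) + (e0 - Tl k (fixc f i false) - β)) / 2 := by
              linarith
            calc _ ≤ ((e1 - Tl k (fixc f i true) - β) + (e0 - Tl k (fixc f i false) - β)) / 2 *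
                  (η * D) := mul_le_mul_of_nonneg_right h3 hηD
              _ = _ := by ring
          linarith
        have h4 : (e1 + e0) / 2 - Tl k f - β ≤ 1 := by linarith
        nlinarith

end Pool.Agent.L0h23.AA.Sym
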