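import Mathlib

/-!
# Coordinates with local supports: definitions

The coordinates of the cube are the elements of a finite set `I` on which a product `∏_i Sym(V_i)` of finite
symmetric groups acts.
-/

set_option autoImplicit false

open Finset

namespace Pool.Agent.L0h23.AA.Sym

/-- The variance of `f` for the uniform probability measure of the cube `{-1,1}^I`; a point of the cube
is coded by a function `I → Bool`, with `true` for `-1`. -/
noncomputable def variance {I : Type} [Fintype I] [DecidableEq I] (f : (I → Bool) → ℝ) : ℝ :=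
  ((2:ℝ) ^ Fintype.card I)⁻¹ * ∑ x, f x ^ 2 - (((2:ℝ) ^ Fintype.card I)⁻¹ * ∑ x, f x) ^ 2

/-- The influence of the coordinate `e` on `f`. -/
noncomputable def influence {I : Type} [Fintype I] [DecidableEq I] (e : I) (f : (I → Bool) → ℝ) :
    ℝ :=
  ((2:ℝ) ^ Fintype.card I)⁻¹ * ∑ x, ((f x - f (Function.update x e (!x e))) / 2) ^ 2

/-- The degree of `f` is at most `d`: the Fourier coefficients of the sets of more than `d` elements
are zero. -/
def DegreeLE {I : Type} [Fintype I] [DecidableEq I] (f : (I → Bool) → ℝ) (d : ℕ) : Prop :=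
  ∀ S : Finset I, d < S.card → ∑ x : I → Bool, f x * ∏ e ∈ S, (-1 : ℝ) ^ (x e).toNat = 0

/-- Every coordinate `e` involves only the points in a set `supp e` of at most `κ` points of the disjoint
union of the sorts `V i`: the supports are moved by the group as the points are, and a permutation which
fixes all points of `supp e` fixes `e`. -/
structure Supported {ι : Type} [Fintype ι] [DecidableEq ι] {V : ι → Type} [∀ i, Fintype (V i)]
    [∀ i, DecidableEq (V i)] {I : Type} [MulAction (∀ i, Equiv.Perm (V i)) I] (κ : ℕ)
    (supp : I → Finset (Σ i, V i)) : Prop where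
  /-- at most `κ` points -/
  card_le : ∀ e, (supp e).card ≤ κ
  /-- `supp (π e) = π (supp e)` -/
  equivariant : ∀ (π : ∀ i, Equiv.Perm (V i)) (e : I),
    supp (π • e) = (supp e).image fun p => ⟨p.1, π p.1 p.2⟩
  /-- `π e = e` if `π` fixes the points of `supp e` -/
  fixed : ∀ (π : ∀ i, Equiv.Perm (V i)) (e : I), (∀ p ∈ supp e, π p.1 p.2 = p.2) → π • e = e

end Pool.Agent.L0h23.AA.Sym
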