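import Pool.Agent.L0h23.AA.SymDefs

/-!
# The hypotheses hold for uniform hypergraphs
-/

set_option autoImplicit false

open Finset

namespace Pool.Agent.L0h23.AA.Sym

variable {W : Type} [Fintype W] [DecidableEq W] {k : ℕ}

/-- the permutations of the vertices act on the `k`-element sets of vertices -/
@[reducible] def hyperAction (W : Type) [Fintype W] [DecidableEq W] (k : ℕ) :
    MulAction (∀ _ : Unit, Equiv.Perm W) {s : Finset W // s.card = k} where
  smul π s := ⟨s.1.map (π ()).toEmbedding, by rw [card_map]; exact s.2⟩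
  one_smul s := by
    apply Subtype.ext
    show s.1.map (Equiv.toEmbedding 1) = s.1
    ext v
    simp only [mem_map_equiv]
    exact Iff.rfl
  mul_smul π ρ s := by
    apply Subtype.ext
    show s.1.map (π () * ρ ()).toEmbedding = (s.1.map (ρ ()).toEmbedding).map (π ()).toEmbedding
    rw [map_map]
    rfl

/-- the support of a `k`-element set -/
def hyperSupp (s : {s : Finset W // s.card = k}) : Finset (Σ _ : Unit, W) :=
  s.1.map ⟨fun v => ⟨(), v⟩, fun v w h => by simpa using h⟩

theorem hyper_supported :
    let _ := hyperAction W k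
    Supported (V := fun _ : Unit => W) k (hyperSupp (W := W) (k := k)) := by
  let _ := hyperAction W k
  refine ⟨fun s => ?_, fun π s => ?_, fun π s h => ?_⟩
  · unfold hyperSupp
    rw [card_map, s.2]
  · have e : (π • s).1 = s.1.map (π ()).toEmbedding := rfl
    unfold hyperSupp
    rw [e]
    ext ⟨u, v⟩
    simp only [mem_map, mem_image]
    constructor
    · rintro ⟨w, ⟨w', hw', rfl⟩, hw⟩
      exact ⟨⟨(), w'⟩, ⟨w', hw', rfl⟩, hw⟩
    · rintro ⟨p, ⟨w', hw', rfl⟩, hw⟩
      exact ⟨π () w', ⟨w', hw', rfl⟩, hw⟩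
  · apply Subtype.ext
    show s.1.map (π ()).toEmbedding = s.1
    have h1 : ∀ v ∈ s.1, π () v = v := by
      intro v hv
      exact h ⟨(), v⟩ (mem_map.2 ⟨v, hv, rfl⟩)
    ext v
    rw [mem_map]
    constructor
    · rintro ⟨w, hw, e⟩
      have e2 : π () w = v := e
      rw [h1 w hw] at e2
      rwa [← e2]
    · intro hv
      exact ⟨v, hv, h1 v hv⟩

/-- the action on the `k`-element sets is transitive -/
theorem hyper_transitive (s t : {s : Finset W // s.card = k}) :
    let _ := hyperAction W k
    ∃ π : (∀ _ : Unit, Equiv.Perm W), t = π • s := by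
  let _ := hyperAction W k
  have hst : s.1.card = t.1.card := s.2.trans t.2.symm
  let e : {x // x ∈ s.1} ≃ {x // x ∈ t.1} := Finset.equivOfCardEq hst
  refine ⟨fun _ => e.extendSubtype, ?_⟩
  apply Subtype.ext
  show t.1 = s.1.map (e.extendSubtype).toEmbedding
  symm
  apply eq_of_subset_of_card_le
  · intro v hv
    rw [mem_map] at hv
    obtain ⟨w, hw, rfl⟩ := hv
    exact e.extendSubtype_mem w hw
  · rw [card_map, hst]

end Pool.Agent.L0h23.AA.Sym
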