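import Pool.Agent.L0h23.AA.SymDefs
import Pool.Agent.L0h23.AA.Core

/-!
# Invariant functions have influential variables
-/

set_option autoImplicit false
set_option linter.unusedSectionVars false

open Finset

namespace Pool.Agent.L0h23.AA.Sym

variable {ι : Type} [Fintype ι] [DecidableEq ι] {V : ι → Type} [∀ i, Fintype (V i)]
  [∀ i, DecidableEq (V i)]
variable {I : Type} [Fintype I] [DecidableEq I] [MulAction (∀ i, Equiv.Perm (V i)) I]
variable {κ : ℕ} {supp : I → Finset (Σ i, V i)}

section Big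

variable (b : ι → Prop) [DecidablePred b]

/-- extension of permutations of the big sorts by the identity -/
def phi : (∀ i : {i // b i}, Equiv.Perm (V i.1)) →* (∀ i, Equiv.Perm (V i)) where
  toFun π i := if h : b i then π ⟨i, h⟩ else 1
  map_one' := by
    funext i
    by_cases h : b i <;> simp [h]
  map_mul' π ρ := by
    funext i
    by_cases h : b i <;> simp [h]

theorem phi_big (π : ∀ i : {i // b i}, Equiv.Perm (V i.1)) (i : {i // b i}) :
    phi b π i.1 = π i := by
  unfold phi
  simp [i.2]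

theorem phi_small (π : ∀ i : {i // b i}, Equiv.Perm (V i.1)) (i : ι) (h : ¬ b i) :
    phi b π i = 1 := by
  unfold phi
  simp [h]

/-- the part of the support in the big sorts -/
def suppB (supp : I → Finset (Σ i, V i)) (e : I) : Finset (Σ i : {i // b i}, V i.1) :=
  univ.filter fun q => (⟨q.1.1, q.2⟩ : Σ i, V i) ∈ supp e

theorem mem_suppB (e : I) (q : Σ i : {i // b i}, V i.1) :
    q ∈ suppB b supp e ↔ (⟨q.1.1, q.2⟩ : Σ i, V i) ∈ supp e := by
  unfold suppB; simp

theorem suppB_eq_empty (e : I) : suppB b supp e = ∅ ↔ ∀ p ∈ supp e, ¬ b p.1 := by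
  constructor
  · intro h p hp hb
    have : (⟨⟨p.1, hb⟩, p.2⟩ : Σ i : {i // b i}, V i.1) ∈ suppB b supp e :=
      (mem_suppB b e _).2 hp
    rw [h] at this
    simp at this
  · intro h
    rw [eq_empty_iff_forall_notMem]
    intro q hq
    exact h _ ((mem_suppB b e q).1 hq) q.1.2

theorem local_big (hL : Supported κ supp) :
    let _ := MulAction.compHom I (phi (V := V) b)
    Local (V := fun i : {i // b i} => V i.1) κ (suppB b supp) := by
  let _ := MulAction.compHom I (phi (V := V) b)
  have hsm : ∀ (π : ∀ i : {i // b i}, Equiv.Perm (V i.1)) (e : I), π • e = phi b π • e :=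
    fun _ _ => rfl
  refine ⟨fun e => ?_, fun π e => ?_, fun π e h => ?_⟩
  · refine le_trans ?_ (hL.card_le e)
    refine card_le_card_of_injOn (fun q => (⟨q.1.1, q.2⟩ : Σ i, V i)) ?_ ?_
    · intro q hq
      exact (mem_suppB b e q).1 hq
    · rintro ⟨⟨i, hi⟩, v⟩ _ ⟨⟨j, hj⟩, w⟩ _ h
      dsimp only at h
      rw [Sigma.mk.injEq] at h
      obtain ⟨rfl, h⟩ := h
      rw [heq_eq_eq] at h
      rw [h]
  · ext q
    rw [mem_suppB, hsm, hL.equivariant, mem_image, mem_image]
    constructor
    · rintro ⟨p, hp, hpq⟩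
      obtain ⟨⟨i, hi⟩, v⟩ := q
      obtain ⟨j, w⟩ := p
      dsimp only at hpq
      rw [Sigma.mk.injEq] at hpq
      obtain ⟨rfl, hpq⟩ := hpq
      rw [heq_eq_eq] at hpq
      refine ⟨⟨⟨j, hi⟩, w⟩, (mem_suppB b e _).2 hp, ?_⟩
      rw [← hpq]
      have := phi_big b π ⟨j, hi⟩
      rw [← this]
    · rintro ⟨q', hq', rfl⟩
      refine ⟨⟨q'.1.1, q'.2⟩, (mem_suppB b e _).1 hq', ?_⟩
      rw [phi_big]
  · rw [hsm]
    apply hL.fixed
    intro p hp
    by_cases hb : b p.1
    · have h1 := h ⟨⟨p.1, hb⟩, p.2⟩ ((mem_suppB b e _).2 hp)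
      have h2 := phi_big b π ⟨p.1, hb⟩
      rw [h2]
      exact h1
    · rw [phi_small b π p.1 hb]
      rfl

/-- the number of the coordinates with small supports -/
theorem count_small (hL : Supported κ supp) {l : ℕ} (rep : Fin l → I)
    (hrep : ∀ e, ∃ (k : Fin l) (π : ∀ i, Equiv.Perm (V i)), e = π • rep k) (M : ℝ)
    (hM : κ = 0 ∨ 1 ≤ M) (hb : ∀ i, ¬ b i → (Fintype.card (V i) : ℝ) ≤ M) :
    ((univ.filter fun e : I => suppB b supp e = ∅).card : ℝ) ≤ l * M ^ κ := by
  classical
  have hM0 : 0 ≤ M ^ κ := by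
    rcases hM with h | h
    · rw [h, pow_zero]; norm_num
    · positivity
  have h1 : (univ.filter fun e : I => suppB b supp e = ∅) ⊆
      (univ : Finset (Fin l)).biUnion fun k =>
        univ.filter fun e : I => suppB b supp e = ∅ ∧ ∃ π : ∀ i, Equiv.Perm (V i), e = π • rep k := by
    intro e he
    rw [mem_biUnion]
    obtain ⟨k, π, hk⟩ := hrep e
    exact ⟨k, mem_univ k, mem_filter.2 ⟨mem_univ _, (mem_filter.1 he).2, π, hk⟩⟩
  have h2 : ∀ k : Fin l, ((univ.filter fun e : I => suppB b supp e = ∅ ∧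
      ∃ π : ∀ i, Equiv.Perm (V i), e = π • rep k).card : ℝ) ≤ M ^ κ := by
    intro k
    set T := univ.filter fun e : I => suppB b supp e = ∅ ∧
      ∃ π : ∀ i, Equiv.Perm (V i), e = π • rep k with hT
    rcases T.eq_empty_or_nonempty with h0 | ⟨e₀, he₀⟩
    · rw [h0, card_empty, Nat.cast_zero]; exact hM0
    · obtain ⟨he₀1, π₀, hπ₀⟩ := (mem_filter.1 he₀).2
      have h3 : ∀ e : T, ∃ π : ∀ i, Equiv.Perm (V i), e.1 = π • e₀ := by
        rintro ⟨e, he⟩
        obtain ⟨_, π, hπ⟩ := (mem_filter.1 he).2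
        refine ⟨π * π₀⁻¹, ?_⟩
        show e = (π * π₀⁻¹) • e₀
        rw [hπ, hπ₀, mul_smul, inv_smul_smul]
      choose π hπ using h3
      have hinj : Function.Injective
          (fun (e : T) (p : supp e₀) => π e p.1.1 p.1.2) := by
        intro e e' hee
        have h4 : ((π e)⁻¹ * π e') • e₀ = e₀ := by
          apply hL.fixed
          intro p hp
          have h5 := congrFun hee ⟨p, hp⟩
          dsimp only at h5
          show (π e p.1)⁻¹ (π e' p.1 p.2) = p.2
          rw [← h5]
          simp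
        rw [mul_smul, inv_smul_eq_iff] at h4
        apply Subtype.ext
        rw [hπ e, hπ e', h4]
      have h6 := Fintype.card_le_of_injective _ hinj
      rw [Fintype.card_coe, Fintype.card_pi] at h6
      have h7 : ((∏ p : supp e₀, Fintype.card (V p.1.1) : ℕ) : ℝ) ≤ M ^ (supp e₀).card := by
        push_cast
        have h8 : (∏ p : supp e₀, (Fintype.card (V p.1.1) : ℝ)) ≤ ∏ _p : supp e₀, M := by
          refine prod_le_prod (fun _ _ => by positivity) fun p _ => ?_
          exact hb _ ((suppB_eq_empty b e₀).1 he₀1 p.1 p.2)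
        rwa [prod_const, card_univ, Fintype.card_coe] at h8
      have h9 : (T.card : ℝ) ≤ M ^ (supp e₀).card := le_trans (by exact_mod_cast h6) h7
      refine h9.trans ?_
      rcases hM with h | h
      · have := hL.card_le e₀
        rw [h] at this ⊢
        rw [Nat.le_zero.1 this]
      · exact pow_le_pow_right₀ h (hL.card_le e₀)
  calc ((univ.filter fun e : I => suppB b supp e = ∅).card : ℝ)
      ≤ (((univ : Finset (Fin l)).biUnion fun k => univ.filter fun e : I => suppB b supp e = ∅ ∧
        ∃ π : ∀ i, Equiv.Perm (V i), e = π • rep k).card : ℝ) := by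
        exact_mod_cast card_le_card h1
    _ ≤ ∑ k : Fin l, ((univ.filter fun e : I => suppB b supp e = ∅ ∧
        ∃ π : ∀ i, Equiv.Perm (V i), e = π • rep k).card : ℝ) := by
        exact_mod_cast card_biUnion_le
    _ ≤ ∑ _k : Fin l, M ^ κ := sum_le_sum fun k _ => h2 k
    _ = l * M ^ κ := by rw [sum_const, card_univ, Fintype.card_fin, nsmul_eq_mul]

end Big

/-- **Main theorem.** -/
theorem mainSym (hL : Supported κ supp) {l : ℕ} (rep : Fin l → I)
    (hrep : ∀ e, ∃ (k : Fin l) (π : ∀ i, Equiv.Perm (V i)), e = π • rep k)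
    (f : (I → Bool) → ℝ) (hb : ∀ x, |f x| ≤ 1)
    (hinv : ∀ (π : ∀ i, Equiv.Perm (V i)) (x : I → Bool), f (fun e => x (π • e)) = f x)
    {d : ℕ} (hd : 1 ≤ d) (hdeg : ∀ S : Finset I, d < S.card → coef f S = 0) (v : ℝ) (hv0 : 0 < v)
    (hv : v = (mean fun x => f x ^ 2) - (mean f) ^ 2) :
    ∃ e : I, v / (2 * l) * (v ^ 2 / (8256 * (κ:ℝ) ^ 4 * (d:ℝ) ^ 4)) ^ κ ≤
      mean fun x => Dv e f x ^ 2 := by
  classical
  have hv1 : v ≤ 1 := by
    have h1 : (mean fun x => f x ^ 2) ≤ 1 := by
      have := mean_mono (f := fun x => f x ^ 2) (g := fun _ => (1:ℝ)) (fun x => by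
        rw [← sq_abs]
        exact pow_le_one₀ (abs_nonneg _) (hb x))
      rwa [mean_const] at this
    have h2 := sq_nonneg (mean f)
    linarith
  set M : ℝ := 8256 * (κ:ℝ) ^ 4 * (d:ℝ) ^ 4 / v ^ 2 with hM
  set b : ι → Prop := fun i => M ≤ Fintype.card (V i) with hbd
  let _ := MulAction.compHom I (phi (V := V) b)
  have hLb : Local (V := fun i : {i // b i} => V i.1) κ (suppB b supp) := local_big b hL
  have hd1 : (1:ℝ) ≤ d := by exact_mod_cast hd
  -- the weight on the big sorts
  have hw : ∑ S ∈ touch (suppB b supp), coef f S ^ 2 ≤ v / 2 := by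
    by_cases hκ : κ = 0
    · have : touch (suppB b supp) = ∅ := by
        rw [eq_empty_iff_forall_notMem]
        intro S hS
        obtain ⟨e, _, p, hp⟩ := (mem_filter.1 hS).2
        have h1 := hL.card_le e
        rw [hκ, Nat.le_zero, card_eq_zero] at h1
        have h2 := (mem_suppB b e p).1 hp
        rw [h1] at h2
        simp at h2
      rw [this, sum_empty]
      positivity
    · have hκ1 : (1:ℝ) ≤ κ := by exact_mod_cast Nat.one_le_iff_ne_zero.2 hκ
      set Dn : ℕ := κ * d with hDn
      have hD : 1 ≤ Dn := Nat.mul_pos (Nat.pos_of_ne_zero hκ) hd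
      set D4 : ℝ := (Dn:ℝ) ^ 4 with hD4
      have hDR : (1:ℝ) ≤ Dn := by exact_mod_cast hD
      have hD41 : (1:ℝ) ≤ D4 := one_le_pow₀ hDR
      set η : ℝ := v / 2 with hη
      have hη0 : 0 < η := by positivity
      have hη1 : η ≤ 1 := by linarith
      have hMη : M = 2064 * D4 / η ^ 2 := by
        rw [hM, hD4, hDn, hη]
        push_cast
        field_simp
        ring
      set m : ℕ := ⌈M⌉₊ with hm
      set r : ℕ := ⌈128 * D4 / η⌉₊ with hr
      have hmM : M ≤ m := Nat.le_ceil M
      have hrl : 128 * D4 / η ≤ r := Nat.le_ceil _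
      have hDη : 1 ≤ D4 / η := by
        rw [le_div_iff₀ hη0]; linarith
      have hru : (r:ℝ) ≤ 129 * (D4 / η) := by
        have := (Nat.ceil_lt_add_one (a := 128 * D4 / η) (by positivity)).le
        rw [← hr] at this
        have e : 128 * D4 / η = 128 * (D4 / η) := by ring
        rw [e] at this
        linarith
      have hr0 : (0:ℝ) < r := lt_of_lt_of_le (by positivity) hrl
      have hMl : 2064 * (D4 / η) ≤ M := by
        rw [hMη]
        have e : 2064 * D4 / η ^ 2 = 2064 * (D4 / η) * (1 / η) := by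
          field_simp
        rw [e]
        have : 1 ≤ 1 / η := by
          rw [le_div_iff₀ hη0]; linarith
        have h0 : 0 ≤ 2064 * (D4 / η) := by positivity
        nlinarith
      have hrm : r ≤ m := by
        have : (r:ℝ) ≤ m := by linarith
        exact_mod_cast this
      have h64 : 64 * (κ * d) ^ 4 ≤ m := by
        have : (64:ℝ) * D4 ≤ m := by
          have h1 : D4 ≤ D4 / η := by
            rw [le_div_iff₀ hη0]
            nlinarith
          linarith
        rw [hD4, hDn] at this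
        exact_mod_cast this
      have hcore := core (V := fun i : {i // b i} => V i.1) hLb hb
        (fun π x => hinv (phi b π) x) hdeg (m := m) (r := r)
        (fun i => Nat.ceil_le.2 i.2) hD h64 (by exact_mod_cast hr0) hrm
      have h1 : √((r:ℝ) / m) ≤ √η / 4 := by
        apply Real.sqrt_le_iff.2
        refine ⟨by positivity, ?_⟩
        have e : (√η / 4) ^ 2 = η / 16 := by
          rw [div_pow, Real.sq_sqrt hη0.le]
          norm_num
        rw [e]
        have hm0 : (0:ℝ) < m := lt_of_lt_of_le (by positivity) (hMl.trans hmM)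
        rw [div_le_iff₀ hm0]
        have h2 : η / 16 * M ≤ η / 16 * m := mul_le_mul_of_nonneg_left hmM (by positivity)
        have h3 : η / 16 * M = 129 * (D4 / η) := by
          rw [hMη]
          field_simp
          ring
        linarith
      have h2 : 64 * ((κ * d : ℕ):ℝ) ^ 4 / r ≤ √η / 2 := by
        have h3 : 64 * D4 / r ≤ η / 2 := by
          rw [div_le_iff₀ hr0]
          have : η / 2 * (128 * D4 / η) ≤ η / 2 * r := mul_le_mul_of_nonneg_left hrl (by positivity)
          have e : η / 2 * (128 * D4 / η) = 64 * D4 := by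
            field_simp
            ring
          linarith
        have h4 : η ≤ √η := by
          apply Real.le_sqrt_of_sq_le
          nlinarith
        have h5 : 64 * ((κ * d : ℕ):ℝ) ^ 4 / r = 64 * D4 / r := rfl
        rw [h5]
        linarith
      have h3 : √(∑ S ∈ touch (suppB b supp), coef f S ^ 2) ≤ √η := by
        have := Real.sqrt_nonneg η
        linarith
      exact (Real.sqrt_le_sqrt_iff hη0.le).1 h3
  -- the weight on the small sorts
  set Es := univ.filter fun e : I => suppB b supp e = ∅ with hEs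
  have hsum : v / 2 ≤ ∑ e ∈ Es, mean fun x => Dv e f x ^ 2 := by
    have h1 : v = ∑ S ∈ univ.erase (∅ : Finset I), coef f S ^ 2 := by
      rw [hv]; exact var_eq f
    have h2 : ∑ S ∈ univ.erase (∅ : Finset I), coef f S ^ 2 ≤
        ∑ S ∈ touch (suppB b supp), coef f S ^ 2 +
          ∑ S ∈ (univ.erase (∅ : Finset I)).filter (fun S => S ⊆ Es), coef f S ^ 2 := by
      rw [← sum_filter_add_sum_filter_not (univ.erase (∅ : Finset I)) (fun S => S ⊆ Es), add_comm]
      refine add_le_add_left ?_ _
      refine sum_le_sum_of_subset_of_nonneg ?_ (fun _ _ _ => sq_nonneg _)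
      intro S hS
      obtain ⟨_, hS2⟩ := mem_filter.1 hS
      obtain ⟨e, he, he'⟩ := not_subset.1 hS2
      unfold touch
      refine mem_filter.2 ⟨mem_univ _, e, he, ?_⟩
      rw [nonempty_iff_ne_empty]
      intro h
      exact he' (mem_filter.2 ⟨mem_univ _, h⟩)
    have h3 : ∑ S ∈ (univ.erase (∅ : Finset I)).filter (fun S => S ⊆ Es), coef f S ^ 2 ≤
        ∑ e ∈ Es, mean fun x => Dv e f x ^ 2 := by
      simp only [inf_eq]
      have e1 : ∑ e ∈ Es, ∑ S ∈ univ.filter (fun S => e ∈ S), coef f S ^ 2 =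
          ∑ S, ((Es.filter fun e => e ∈ S).card : ℝ) * coef f S ^ 2 := by
        simp only [sum_filter]
        rw [sum_comm]
        refine sum_congr rfl fun S _ => ?_
        rw [← sum_filter, sum_const, nsmul_eq_mul]
      rw [e1]
      calc ∑ S ∈ (univ.erase (∅ : Finset I)).filter (fun S => S ⊆ Es), coef f S ^ 2
          ≤ ∑ S ∈ (univ.erase (∅ : Finset I)).filter (fun S => S ⊆ Es),
              ((Es.filter fun e => e ∈ S).card : ℝ) * coef f S ^ 2 := by
            refine sum_le_sum fun S hS => ?_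
            obtain ⟨hS1, hS2⟩ := mem_filter.1 hS
            obtain ⟨e, he⟩ := nonempty_iff_ne_empty.2 (mem_erase.1 hS1).1
            have h4 : 1 ≤ (Es.filter fun e => e ∈ S).card :=
              card_pos.2 ⟨e, mem_filter.2 ⟨hS2 he, he⟩⟩
            have h5 : (1:ℝ) ≤ (Es.filter fun e => e ∈ S).card := by exact_mod_cast h4
            have h6 := sq_nonneg (coef f S)
            nlinarith
        _ ≤ _ := sum_le_sum_of_subset_of_nonneg (subset_univ _) (fun _ _ _ => by positivity)
    linarith
  have hcard : (Es.card : ℝ) ≤ l * M ^ κ := by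
    refine count_small b hL rep hrep M ?_ (fun i hi => ?_)
    · by_cases hκ : κ = 0
      · exact Or.inl hκ
      · right
        have hκ1 : (1:ℝ) ≤ κ := by exact_mod_cast Nat.one_le_iff_ne_zero.2 hκ
        rw [hM, le_div_iff₀ (by positivity)]
        have h1 : (1:ℝ) ≤ (κ:ℝ) ^ 4 := one_le_pow₀ hκ1
        have h2 : (1:ℝ) ≤ (d:ℝ) ^ 4 := one_le_pow₀ hd1
        have h3 : v ^ 2 ≤ 1 := pow_le_one₀ hv0.le hv1
        nlinarith
    · rw [hbd] at hi
      push Not at hi
      exact hi.le
  have hne : Es.Nonempty := by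
    by_contra h
    rw [not_nonempty_iff_eq_empty] at h
    rw [h, sum_empty] at hsum
    linarith
  obtain ⟨e, he, hmax⟩ := exists_max_image Es (fun e => mean fun x => Dv e f x ^ 2) hne
  refine ⟨e, ?_⟩
  set z := mean fun x => Dv e f x ^ 2 with hz
  have hz0 : 0 ≤ z := mean_nonneg fun _ => sq_nonneg _
  have h1 : v / 2 ≤ Es.card * z := by
    refine hsum.trans ((sum_le_sum fun i hi => hmax i hi).trans (le_of_eq ?_))
    rw [sum_const, nsmul_eq_mul]
  have h2 : v / 2 ≤ l * M ^ κ * z := h1.trans (mul_le_mul_of_nonneg_right hcard hz0)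
  have hpos : 0 < (l:ℝ) * M ^ κ := by
    by_contra h
    push Not at h
    have : l * M ^ κ * z ≤ 0 := mul_nonpos_of_nonpos_of_nonneg h hz0
    linarith
  have h3 : v / (2 * l) * (v ^ 2 / (8256 * (κ:ℝ) ^ 4 * (d:ℝ) ^ 4)) ^ κ = v / 2 / (l * M ^ κ) := by
    rw [hM, div_pow, div_pow]
    by_cases hl : (l:ℝ) = 0
    · rw [hl] at hpos
      simp at hpos
    · have hM0 : M ^ κ ≠ 0 := by
        intro h
        rw [h] at hpos
        simp at hpos
      rw [hM, div_pow] at hM0
      have hA : (8256 * (κ:ℝ) ^ 4 * (d:ℝ) ^ 4) ^ κ ≠ 0 := by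
        intro h
        rw [h] at hM0
        simp at hM0
      have hB : (v ^ 2) ^ κ ≠ 0 := by positivity
      field_simp
  rw [h3, div_le_iff₀ hpos]
  linarith

end Pool.Agent.L0h23.AA.Sym
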